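import Pool.Agent.Y676.WP.OneAll

/-! # p-rank one, dimension two -/

set_option autoImplicit false

namespace Pool.Agent.Y676.WP

open Polynomial

/-- if all roots have absolute value `√p` and the real Weil polynomial is irreducible, then the Weil
polynomial is irreducible -/
theorem irreducible_of_real2 {p g : ℕ} (hp : p.Prime) (hg : 1 ≤ g) {P h : ℤ[X]} (hmon : P.Monic)
    (hdeg : P.natDegree = 2 * g) (hhm : h.Monic) (hhd : h.natDegree = g) (hh : Irreducible h)
    (hrel : ∀ x x' : ℂ, x * x' = p → aeval x P = x ^ g * aeval (x + x') h)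
    (hreal : ∀ x : ℂ, aeval x P = 0 → x ^ 2 ≠ p)
    (hnorm : ∀ x : ℂ, aeval x P = 0 → ‖x‖ = Real.sqrt p) :
    Irreducible (P.map (Int.castRingHom ℚ)) := by
  obtain ⟨x, hx⟩ := IsAlgClosed.exists_aeval_eq_zero ℂ P (by
    rw [degree_eq_natDegree hmon.ne_zero, hdeg]
    exact_mod_cast (by omega : 2 * g ≠ 0))
  have hxi : IsIntegral ℚ x := (show IsIntegral ℤ x from ⟨_, hmon, hx⟩).tower_top
  have hmap : P.map (Int.castRingHom ℚ) = P.map (algebraMap ℤ ℚ) := rfl
  have hxQ : aeval x (P.map (Int.castRingHom ℚ)) = 0 := by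
    rw [hmap, aeval_map_algebraMap]
    exact hx
  have hdvd : minpoly ℚ x ∣ P.map (Int.castRingHom ℚ) := minpoly.dvd ℚ x hxQ
  have hmonQ : (P.map (Int.castRingHom ℚ)).Monic := hmon.map _
  have hdegQ : (P.map (Int.castRingHom ℚ)).natDegree = 2 * g := by
    rw [hmon.natDegree_map, hdeg]
  have hp0' : (0 : ℝ) < p := by exact_mod_cast hp.pos
  have hx0 : x ≠ 0 := by
    rintro rfl
    have h1 := hnorm 0 hx
    rw [norm_zero] at h1
    exact (Real.sqrt_pos.2 hp0').ne h1
  -- the real part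
  have hp0 : (0 : ℝ) < p := by exact_mod_cast hp.pos
  set x' : ℂ := starRingEnd ℂ x with hx'
  have hxx : x * x' = p := by
    rw [hx', Complex.mul_conj, Complex.normSq_eq_norm_sq, hnorm x hx, Real.sq_sqrt hp0.le]
    norm_num
  set β : ℂ := x + x' with hβ
  have hβr : β = ((2 * x.re : ℝ) : ℂ) := by
    rw [hβ, hx', Complex.add_conj]
  have hβH : aeval β h = 0 := by
    rw [hrel x x' hxx] at hx
    rcases mul_eq_zero.1 hx with h1 | h1
    · exact absurd h1 (pow_ne_zero g hx0)
    · exact h1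
  have hHirr : Irreducible (h.map (algebraMap ℤ ℚ)) :=
    (hhm.irreducible_iff_irreducible_map_fraction_map).1 hh
  have hHmin : minpoly ℚ β = h.map (algebraMap ℤ ℚ) := by
    symm
    apply minpoly.eq_of_irreducible_of_monic hHirr
    · rw [aeval_map_algebraMap]
      exact hβH
    · exact hhm.map _
  have hβi : IsIntegral ℚ β := (show IsIntegral ℤ β from ⟨_, hhm, hβH⟩).tower_top
  set K := IntermediateField.adjoin ℚ {x} with hK
  set L := IntermediateField.adjoin ℚ {β} with hL
  have hfL : Module.finrank ℚ L = g := by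
    rw [hL, IntermediateField.adjoin.finrank hβi, hHmin, hhm.natDegree_map,
      hhd]
  have hfK : Module.finrank ℚ K = (minpoly ℚ x).natDegree := IntermediateField.adjoin.finrank hxi
  have hxK : x ∈ K := IntermediateField.mem_adjoin_simple_self ℚ x
  have hLK : L ≤ K := by
    rw [hL, IntermediateField.adjoin_le_iff, Set.singleton_subset_iff]
    have e : x' = p / x := by
      rw [eq_div_iff hx0, mul_comm, hxx]
    rw [hβ, e]
    exact add_mem hxK (div_mem (natCast_mem K p) hxK)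
  have hfd : FiniteDimensional ℚ K := IntermediateField.adjoin.finiteDimensional hxi
  have hge : 2 * g ≤ (minpoly ℚ x).natDegree := by
    have h1 : Module.finrank ℚ L ∣ Module.finrank ℚ K := IntermediateField.finrank_dvd_of_le_right hLK
    rw [hfL, hfK] at h1
    obtain ⟨d, hd⟩ := h1
    have hpos : 0 < (minpoly ℚ x).natDegree := minpoly.natDegree_pos hxi
    have hd0 : d ≠ 0 := by
      rintro rfl
      omega
    have hd1 : d ≠ 1 := by
      rintro rfl
      rw [mul_one] at hd
      have h2 : L = K := IntermediateField.eq_of_le_of_finrank_eq hLK (by rw [hfL, hfK, hd])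
      -- `x` is real
      have h3 : L ≤ (IsScalarTower.toAlgHom ℚ ℝ ℂ).fieldRange := by
        rw [hL, IntermediateField.adjoin_le_iff, Set.singleton_subset_iff]
        exact ⟨2 * x.re, hβr.symm⟩
      have h4 : x ∈ (IsScalarTower.toAlgHom ℚ ℝ ℂ).fieldRange := h3 (by rw [h2]; exact hxK)
      obtain ⟨r, hr⟩ := h4
      have h5 : x = (r : ℂ) := hr.symm
      have h6 : x' = x := by
        rw [hx', h5]
        exact Complex.conj_ofReal r
      exact hreal x hx (by rw [sq, ← hxx, h6])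
    have h10 : 2 ≤ d := by omega
    rw [hd, mul_comm 2 g]
    exact Nat.mul_le_mul_left g h10
  have heq := eq_of_monic_of_dvd_of_natDegree_le (minpoly.monic hxi) hmonQ hdvd (by
    rw [hdegQ]
    exact hge)
  rw [heq]
  exact minpoly.irreducible hxi


theorem one_two_aux {p : ℕ} (hp : p.Prime) {b : ℤ} (hpb : (p : ℤ) ∣ b) (hb : 0 < b)
    (hroot : ∀ n : ℤ, n ^ 2 + n ≠ b) (hb2 : ∀ t : ℝ, t ^ 2 + t = b → t ^ 2 ≤ 4 * p)
    (hb3 : (4 * (p : ℤ) - b) ^ 2 ≠ 4 * p) :
    ∃ P : ℤ[X], P.Monic ∧ P.natDegree = 2 * 2 ∧ Irreducible (P.map (Int.castRingHom ℚ)) ∧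
      (∀ x : ℂ, aeval x P = 0 → ‖x‖ = Real.sqrt p) ∧
      (∀ i < 2 * 2 - 1, (p : ℤ) ∣ P.coeff i) ∧ ¬ (p : ℤ) ∣ P.coeff (2 * 2 - 1) ∧
      (∀ x : ℂ, aeval x P = 0 → ∀ n : ℕ, 1 ≤ n →
        IntermediateField.adjoin ℚ {x ^ n} = IntermediateField.adjoin ℚ {x}) := by
  have hp0 : (0 : ℝ) < p := by exact_mod_cast hp.pos
  have hpc : (p : ℂ) ≠ 0 := by exact_mod_cast hp.ne_zero
  set h : ℤ[X] := X ^ 2 + (X - C b) with hh
  set P : ℤ[X] := X ^ 4 + (X ^ 3 + C (2 * (p : ℤ) - b) * X ^ 2 + C (p : ℤ) * X + C ((p : ℤ) ^ 2))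
    with hP
  have hhm : h.Monic := by
    apply monic_X_pow_add
    rw [degree_X_sub_C]
    norm_num
  have hhd : h.natDegree = 2 := by
    rw [hh, natDegree_add_eq_left_of_natDegree_lt, natDegree_X_pow]
    rw [natDegree_X_pow, natDegree_X_sub_C]
    norm_num
  have hdl : (X ^ 3 + C (2 * (p : ℤ) - b) * X ^ 2 + C (p : ℤ) * X + C ((p : ℤ) ^ 2)).natDegree
      < 4 := by
    have : (X ^ 3 + C (2 * (p : ℤ) - b) * X ^ 2 + C (p : ℤ) * X + C ((p : ℤ) ^ 2)).natDegree
      ≤ 3 := by
      apply natDegree_add_le_of_degree_le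
      · apply natDegree_add_le_of_degree_le
        · apply natDegree_add_le_of_degree_le
          · exact (natDegree_X_pow _).le
          · exact (natDegree_C_mul_X_pow_le _ _).trans (by norm_num)
        · apply (natDegree_C_mul_le _ _).trans
          rw [natDegree_X]
          norm_num
      · rw [natDegree_C]
        norm_num
    omega
  have hPm : P.Monic := monic_X_pow_add (degree_le_natDegree.trans_lt (by exact_mod_cast hdl))
  have hPd : P.natDegree = 2 * 2 := by
    rw [hP, natDegree_add_eq_left_of_natDegree_lt, natDegree_X_pow]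
    rw [natDegree_X_pow]
    exact hdl
  have hrel : ∀ x x' : ℂ, x * x' = p → aeval x P = x ^ 2 * aeval (x + x') h := by
    intro x x' hxx
    simp only [hP, hh, map_add, map_sub, map_mul, map_pow, aeval_X, eq_intCast, map_intCast,
      map_natCast, map_ofNat]
    rw [← hxx]
    ring
  have hirr : Irreducible h := by
    rw [hhm.irreducible_iff_roots_eq_zero_of_degree_le_three (by omega) (by omega)]
    rw [Multiset.eq_zero_iff_forall_notMem]
    intro n hn
    rw [mem_roots hhm.ne_zero, IsRoot.def, hh] at hn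
    simp at hn
    exact hroot n (by linarith)
  have hx0 : ∀ x : ℂ, aeval x P = 0 → x ≠ 0 := by
    rintro x hx rfl
    simp [hP] at hx
    exact hpc (by exact_mod_cast hx)
  have hβ : ∀ x : ℂ, aeval x P = 0 → (x + p / x) ^ 2 + (x + p / x) - b = 0 := by
    intro x hx
    have h1 := hrel x (p / x) (mul_div_cancel₀ _ (hx0 x hx))
    rw [hx] at h1
    rcases mul_eq_zero.1 h1.symm with h2 | h2
    · exact absurd h2 (pow_ne_zero 2 (hx0 x hx))
    · simp only [hh, map_add, map_sub, map_pow, aeval_X, aeval_C] at h2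
      simp at h2
      linear_combination h2
  -- the zeros of `h` are real
  have hnorm : ∀ x : ℂ, aeval x P = 0 → ‖x‖ = Real.sqrt p := by
    intro x hx
    have h1 := hβ x hx
    set D : ℝ := 1 + 4 * b with hD
    have hDp : 0 < D := by
      have : (0 : ℝ) < b := by exact_mod_cast hb
      rw [hD]
      linarith
    have hs : Real.sqrt D * Real.sqrt D = D := Real.mul_self_sqrt hDp.le
    have hsc : ((Real.sqrt D : ℝ) : ℂ) * ((Real.sqrt D : ℝ) : ℂ) = 1 + 4 * b := by
      rw [← Complex.ofReal_mul, hs, hD]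
      push_cast
      ring
    have h2 : (x + p / x - (((-1 + Real.sqrt D) / 2 : ℝ) : ℂ)) *
        (x + p / x - (((-1 - Real.sqrt D) / 2 : ℝ) : ℂ)) = 0 := by
      push_cast
      linear_combination h1 - hsc / 4
    have h3 : ∃ t : ℝ, x + p / x = (t : ℂ) ∧ t ^ 2 + t = b := by
      rcases mul_eq_zero.1 h2 with h4 | h4
      · refine ⟨(-1 + Real.sqrt D) / 2, sub_eq_zero.1 h4, ?_⟩
        rw [hD] at hs ⊢
        nlinarith
      · refine ⟨(-1 - Real.sqrt D) / 2, sub_eq_zero.1 h4, ?_⟩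
        rw [hD] at hs ⊢
        nlinarith
    obtain ⟨t, ht, ht2⟩ := h3
    apply norm_of_real hp0 (β := t) _ (hb2 t ht2)
    have h5 : x ^ 2 - (x + p / x) * x + p = 0 := by
      have h6 := hx0 x hx
      have : (x + p / x) * x = x ^ 2 + p := by
        field_simp
      rw [this]
      ring
    rw [ht] at h5
    rw [Complex.ofReal_natCast]
    exact h5
  have hreal : ∀ x : ℂ, aeval x P = 0 → x ^ 2 ≠ p := by
    intro x hx hxp
    have h1 := hβ x hx
    have h2 : (p : ℂ) / x = x := by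
      rw [div_eq_iff (hx0 x hx), ← hxp, sq]
    rw [h2] at h1
    -- `4 p + 2 x = b`
    have h3 : 2 * x = b - 4 * p := by linear_combination h1 - 4 * hxp
    have h4 : ((b : ℂ) - 4 * p) ^ 2 = 4 * p := by
      rw [← h3]
      linear_combination 4 * hxp
    apply hb3
    have h5 : (((4 * (p : ℤ) - b) ^ 2 : ℤ) : ℂ) = ((4 * (p : ℤ) : ℤ) : ℂ) := by
      push_cast
      linear_combination h4
    exact_mod_cast h5
  have hPirr := irreducible_of_real2 hp (by norm_num) hPm hPd hhm hhd hirr hrel hreal hnorm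
  have hco : ∀ i : ℕ, P.coeff i = (if i = 4 then 1 else 0) + ((if i = 3 then 1 else 0)
      + (2 * (p : ℤ) - b) * (if i = 2 then 1 else 0) + (p : ℤ) * (if 1 = i then 1 else 0)
      + (if i = 0 then (p : ℤ) ^ 2 else 0)) := by
    intro i
    rw [hP, coeff_add, coeff_add, coeff_add, coeff_add, coeff_C_mul, coeff_C_mul, coeff_X_pow,
      coeff_X_pow, coeff_X_pow, coeff_X, coeff_C]
  have hlow : ∀ i < 2 * 2 - 1, (p : ℤ) ∣ P.coeff i := by
    intro i hi
    have hpd : (p : ℤ) ∣ 2 * p - b := dvd_sub (dvd_mul_left _ _) hpb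
    rw [hco]
    interval_cases i
    · simp
    · simp
    · simpa using hpd
  have htop : ¬ (p : ℤ) ∣ P.coeff (2 * 2 - 1) := by
    have : P.coeff (2 * 2 - 1) = 1 := by
      rw [hco]
      simp
    rw [this]
    exact not_dvd_one' hp
  refine ⟨P, hPm, hPd, hPirr, hnorm, hlow, htop, ?_⟩
  intro x hx n hn
  exact adjoin_pow_eq hPm (nondeg_complexQ hPm
    (nondeg_unitQ hp (by norm_num) hPm hPd hPirr hlow htop)) hx hn

theorem one_two {p : ℕ} (hp : p.Prime) :
    ∃ P : ℤ[X], P.Monic ∧ P.natDegree = 2 * 2 ∧ Irreducible (P.map (Int.castRingHom ℚ)) ∧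
      (∀ x : ℂ, aeval x P = 0 → ‖x‖ = Real.sqrt p) ∧
      (∀ i < 2 * 2 - 1, (p : ℤ) ∣ P.coeff i) ∧ ¬ (p : ℤ) ∣ P.coeff (2 * 2 - 1) ∧
      (∀ x : ℂ, aeval x P = 0 → ∀ n : ℕ, 1 ≤ n →
        IntermediateField.adjoin ℚ {x ^ n} = IntermediateField.adjoin ℚ {x}) := by
  rcases hp.eq_two_or_odd' with h2 | hodd
  · subst h2
    refine one_two_aux hp (b := 4) (by norm_num) (by norm_num) ?_ ?_ (by norm_num)
    · intro n h
      have h1 : n ≤ 2 := by nlinarith
      have h2 : -3 ≤ n := by nlinarith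
      interval_cases n <;> norm_num at h
    · intro t h
      push_cast at h ⊢
      nlinarith [sq_nonneg (t + 1), sq_nonneg (t - 1), sq_nonneg (t + 3)]
  · have hp3 : 3 ≤ p := by
      rcases hodd with ⟨k, hk⟩
      have := hp.two_le
      omega
    have hp3' : (3 : ℤ) ≤ p := by exact_mod_cast hp3
    refine one_two_aux hp (b := p) dvd_rfl (by linarith) ?_ ?_ ?_
    · intro n h
      have h1 : Even (n ^ 2 + n) := by
        have : n ^ 2 + n = n * (n + 1) := by ring
        rw [this]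
        exact Int.even_mul_succ_self n
      rw [h] at h1
      have h3 : Even p := by exact_mod_cast h1
      exact (Nat.not_even_iff_odd.2 hodd) h3
    · intro t h
      have hp3'' : (3 : ℝ) ≤ p := by exact_mod_cast hp3
      rw [Int.cast_natCast] at h
      nlinarith [sq_nonneg (t + 1), sq_nonneg (t + 2)]
    · intro h
      nlinarith

/-- all pairs `(g, 1)` with `g ≥ 2` -/
theorem one_final {p g : ℕ} (hp : p.Prime) (hg : 2 ≤ g) :
    ∃ P : ℤ[X], P.Monic ∧ P.natDegree = 2 * g ∧ Irreducible (P.map (Int.castRingHom ℚ)) ∧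
      (∀ x : ℂ, aeval x P = 0 → ‖x‖ = Real.sqrt p) ∧
      (∀ i < 2 * g - 1, (p : ℤ) ∣ P.coeff i) ∧ ¬ (p : ℤ) ∣ P.coeff (2 * g - 1) ∧
      (∀ x : ℂ, aeval x P = 0 → ∀ n : ℕ, 1 ≤ n →
        IntermediateField.adjoin ℚ {x ^ n} = IntermediateField.adjoin ℚ {x}) := by
  rcases Nat.lt_or_ge g 3 with h | h
  · obtain rfl : g = 2 := by omega
    exact one_two hp
  · exact one_all hp h

end Pool.Agent.Y676.WP
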