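import Pool.Agent.Y676.WP.Core
import Pool.Agent.TH343.PR.Weil

/-! # The absolute values of the roots -/

set_option autoImplicit false

namespace Pool.Agent.Y676.WP

open Polynomial

theorem norm_of_small {p g : ℕ} (hp : p.Prime) (hg : 3 ≤ g) {c : ℕ}
    (hsm : ∀ r : ℝ, 0 ≤ r → r ^ 2 ≤ 1 / p → 2 * c * r ^ (g - 1) + p * r ^ g < 2) (x : ℂ)
    (hx : aeval x (PW p g c) = 0) : ‖x‖ = Real.sqrt p := by
  have hp0 : (0 : ℝ) < p := by exact_mod_cast hp.pos
  have hx0 := ne_zero_of_root hp hg hx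
  set A : ℤ[X] := C 2 + C (2 * (c : ℤ)) * X ^ (g - 1) + C (p : ℤ) * X ^ g with hA
  have hAe : ∀ z : ℂ, aeval z A = 2 + 2 * c * z ^ (g - 1) + p * z ^ g := by
    intro z
    rw [hA]
    simp only [map_add, map_mul, aeval_C, map_pow, aeval_X]
    simp
  have hAd : A.natDegree ≤ g := by
    rw [hA]
    apply natDegree_add_le_of_degree_le
    · apply natDegree_add_le_of_degree_le
      · rw [natDegree_C]
        omega
      · exact (natDegree_C_mul_X_pow_le _ _).trans (by omega)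
    · exact natDegree_C_mul_X_pow_le _ _
  have hne : ∀ z : ℂ, ‖z‖ ^ 2 ≤ 1 / p → aeval z A ≠ 0 := by
    intro z hz h0
    rw [hAe] at h0
    have h1 := hsm ‖z‖ (norm_nonneg z) hz
    have h2 : (2 : ℂ) = -(2 * c * z ^ (g - 1) + p * z ^ g) := by linear_combination h0
    have h3 : ‖(2 : ℂ)‖ ≤ 2 * c * ‖z‖ ^ (g - 1) + p * ‖z‖ ^ g := by
      rw [h2, norm_neg]
      refine (norm_add_le _ _).trans ?_
      rw [norm_mul, norm_mul, norm_mul, norm_pow, norm_pow]
      simp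
    have h4 : ‖(2 : ℂ)‖ = 2 := by simp
    rw [h4] at h3
    linarith
  have hrel : x ^ (2 * g) * aeval (1 / x) A + ((p : ℝ) : ℂ) ^ g * aeval (x / ((p : ℝ) : ℂ)) A = 0 := by
    have hpc : (p : ℂ) ≠ 0 := by exact_mod_cast hp.ne_zero
    have h1 : x ^ (2 * g) * aeval (1 / x) A + ((p : ℝ) : ℂ) ^ g * aeval (x / ((p : ℝ) : ℂ)) A
        = 2 * aeval x (PW p g c) := by
      obtain ⟨k, rfl⟩ : ∃ k, g = k + 1 := ⟨g - 1, by omega⟩
      rw [hAe, hAe, aeval_PW (x' := p / x) (by omega) (mul_div_cancel₀ _ hx0)]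
      simp only [Nat.add_sub_cancel, Complex.ofReal_natCast, Int.cast_natCast]
      have e1 : (1 / x) ^ k * x ^ k = 1 := by
        rw [← mul_pow, one_div, inv_mul_cancel₀ hx0, one_pow]
      have e2 : (1 / x) * x = 1 := by
        rw [one_div, inv_mul_cancel₀ hx0]
      have e3 : (x / (p : ℂ)) ^ k * (p : ℂ) ^ k = x ^ k := by
        rw [← mul_pow, div_mul_cancel₀ _ hpc]
      have e4 : (x / (p : ℂ)) * p = x := div_mul_cancel₀ _ hpc
      have e5 : ((p : ℂ) / x) ^ k * x ^ k = (p : ℂ) ^ k := by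
        rw [← mul_pow, div_mul_cancel₀ _ hx0]
      have e6 : ((p : ℂ) / x) * x = p := div_mul_cancel₀ _ hx0
      generalize (1 / x) = u at *
      generalize (x / (p : ℂ)) = w at *
      generalize ((p : ℂ) / x) = t at *
      have f1 : u ^ (k + 1) * x ^ (k + 1) = 1 := by
        rw [← mul_pow, e2, one_pow]
      have f3 : w ^ (k + 1) * (p : ℂ) ^ (k + 1) = x ^ (k + 1) := by
        rw [← mul_pow, e4]
      have f5 : t ^ (k + 1) * x ^ (k + 1) = (p : ℂ) ^ (k + 1) := by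
        rw [← mul_pow, e6]
      have g1 : x ^ (2 * (k + 1)) = x ^ k * x ^ (k + 2) := by
        rw [← pow_add]
        congr 1
        omega
      have g2 : x ^ (2 * (k + 1)) = x ^ (k + 1) * x ^ (k + 1) := by
        rw [← pow_add]
        congr 1
        omega
      have a1 : x ^ (2 * (k + 1)) * (2 + 2 * (c : ℂ) * u ^ k + (p : ℂ) * u ^ (k + 1))
          = 2 * (x ^ (k + 1) * x ^ (k + 1)) + 2 * c * x ^ (k + 2) + p * x ^ (k + 1) := by
        have : x ^ (2 * (k + 1)) * u ^ k = x ^ (k + 2) := by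
          rw [g1]
          linear_combination x ^ (k + 2) * e1
        have h3 : x ^ (2 * (k + 1)) * u ^ (k + 1) = x ^ (k + 1) := by
          rw [g2]
          linear_combination x ^ (k + 1) * f1
        rw [← g2]
        linear_combination 2 * (c : ℂ) * this + (p : ℂ) * h3
      have a2 : (p : ℂ) ^ (k + 1) * (2 + 2 * (c : ℂ) * w ^ k + (p : ℂ) * w ^ (k + 1))
          = 2 * (p : ℂ) ^ (k + 1) + 2 * c * p * x ^ k + p * x ^ (k + 1) := by
        have : (p : ℂ) ^ (k + 1) * w ^ k = p * x ^ k := by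
          rw [pow_succ]
          linear_combination (p : ℂ) * e3
        linear_combination 2 * (c : ℂ) * this + (p : ℂ) * f3
      rw [a1, a2]
      have a3 : x ^ (k + 1) * t = p * x ^ k := by
        rw [pow_succ]
        linear_combination x ^ k * e6
      linear_combination (-2) * f5 - 2 * (c : ℂ) * a3
    rw [h1, hx, mul_zero]
  have hw := Pool.Agent.TH343.PR.weil A g (by omega) hAd p hp0 hne x hx0 hrel
  rw [← hw, Real.sqrt_sq (norm_nonneg x)]

/-- large dimension, `c = p ^ 2` -/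
theorem norm_six {p g : ℕ} (hp : p.Prime) (hg : 6 ≤ g) (x : ℂ)
    (hx : aeval x (PW p g ((p ^ 2 : ℕ) : ℤ)) = 0) : ‖x‖ = Real.sqrt p := by
  apply norm_of_small hp (by omega) ?_ x hx
  intro r hr hr2
  have hp2 : (2 : ℝ) ≤ p := by exact_mod_cast hp.two_le
  have hp0 : (0 : ℝ) < p := by linarith
  have hpr : p * r ^ 2 ≤ 1 := by
    rw [le_div_iff₀ hp0] at hr2
    linarith
  have hr1 : r ≤ 1 := by nlinarith
  have h5 : r ^ (g - 1) ≤ r ^ 5 := pow_le_pow_of_le_one hr hr1 (by omega)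
  have h6 : r ^ g ≤ r ^ 6 := pow_le_pow_of_le_one hr hr1 hg
  have h7 : (p : ℝ) ^ 2 * r ^ 5 ≤ r := by
    have : (p : ℝ) ^ 2 * r ^ 5 = (p * r ^ 2) ^ 2 * r := by ring
    rw [this]
    have h8 : (p * r ^ 2) ^ 2 ≤ 1 := pow_le_one₀ (by positivity) hpr
    nlinarith
  have h8 : (p : ℝ) * r ^ 6 ≤ r ^ 4 := by
    have : (p : ℝ) * r ^ 6 = (p * r ^ 2) * r ^ 4 := by ring
    rw [this]
    have : 0 ≤ r ^ 4 := by positivity
    nlinarith
  have hr3 : r ^ 2 ≤ 1 / 2 := by nlinarith [sq_nonneg r]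
  have hr4 : r ≤ 3 / 4 := by nlinarith
  have h9 : r ^ 4 ≤ 1 / 4 := by
    have : r ^ 4 = r ^ 2 * r ^ 2 := by ring
    rw [this]
    nlinarith [sq_nonneg r]
  push_cast
  have h10 : 2 * (p : ℝ) ^ 2 * r ^ (g - 1) ≤ 2 * ((p : ℝ) ^ 2 * r ^ 5) := by
    have : 0 ≤ (p : ℝ) ^ 2 := by positivity
    nlinarith
  have h11 : (p : ℝ) * r ^ g ≤ p * r ^ 6 := by nlinarith
  linarith

/-- dimension at least four, `c = p` -/
theorem norm_four {p g : ℕ} (hp : p.Prime) (hg : 4 ≤ g) (x : ℂ)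
    (hx : aeval x (PW p g ((p : ℕ) : ℤ)) = 0) : ‖x‖ = Real.sqrt p := by
  apply norm_of_small hp (by omega) ?_ x hx
  intro r hr hr2
  have hp2 : (2 : ℝ) ≤ p := by exact_mod_cast hp.two_le
  have hp0 : (0 : ℝ) < p := by linarith
  have hpr : p * r ^ 2 ≤ 1 := by
    rw [le_div_iff₀ hp0] at hr2
    linarith
  have hr1 : r ≤ 1 := by nlinarith
  have h5 : r ^ (g - 1) ≤ r ^ 3 := pow_le_pow_of_le_one hr hr1 (by omega)
  have h6 : r ^ g ≤ r ^ 4 := pow_le_pow_of_le_one hr hr1 hg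
  have hr3 : r ^ 2 ≤ 1 / 2 := by nlinarith [sq_nonneg r]
  have hr4 : r ≤ 71 / 100 := by nlinarith
  have h7 : (p : ℝ) * r ^ 3 ≤ r := by
    have : (p : ℝ) * r ^ 3 = (p * r ^ 2) * r := by ring
    rw [this]
    nlinarith
  have h8 : (p : ℝ) * r ^ 4 ≤ r ^ 2 := by
    have : (p : ℝ) * r ^ 4 = (p * r ^ 2) * r ^ 2 := by ring
    rw [this]
    nlinarith [sq_nonneg r]
  have h10 : 2 * (p : ℝ) * r ^ (g - 1) ≤ 2 * ((p : ℝ) * r ^ 3) := by nlinarith
  have h11 : (p : ℝ) * r ^ g ≤ p * r ^ 4 := by nlinarith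
  linarith

end Pool.Agent.Y676.WP
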