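import Pool.Agent.Y676.WP.Small
import Pool.Agent.Y676.WP.Norm

/-! # Assembly -/

set_option autoImplicit false

namespace Pool.Agent.Y676.WP

open Polynomial

/-- the properties of the polynomial which follow from the absolute values of the roots and from
non-degeneracy -/
theorem assemble {p g : ℕ} (hp : p.Prime) (hg : 3 ≤ g) {c : ℤ} (hc : (p : ℤ) ∣ c)
    (hnorm : ∀ x : ℂ, aeval x (PW p g c) = 0 → ‖x‖ = Real.sqrt p)
    (hcore : ∀ (B : ValuationSubring ℂ) (x x' ζ ζ' : ℂ) (n : ℕ),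
      Pair p g c B x x' ζ ζ' n → ζ = 1) :
    ∃ P : ℤ[X], P.Monic ∧ P.natDegree = 2 * g ∧ Irreducible (P.map (Int.castRingHom ℚ)) ∧
      (∀ x : ℂ, aeval x P = 0 → ‖x‖ = Real.sqrt p) ∧
      (∀ i < 2 * g, (p : ℤ) ∣ P.coeff i) ∧ ¬ (p : ℤ) ^ 2 ∣ P.coeff g ∧
      (∀ x : ℂ, aeval x P = 0 → ∀ n : ℕ, 1 ≤ n →
        IntermediateField.adjoin ℚ {x ^ n} = IntermediateField.adjoin ℚ {x}) := by
  refine ⟨PW p g c, monic_PW hg c, natDegree_PW hg c, irreducible_PW hp hg hc hnorm, hnorm,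
    ?_, ?_, ?_⟩
  · intro i hi
    have h1 : (PW p g c).coeff i = (C c * (X ^ (g + 1) + C (p : ℤ) * X ^ (g - 1))
        + C (p : ℤ) * X ^ g + C ((p : ℤ) ^ g)).coeff i := by
      rw [PW, coeff_add, coeff_X_pow, if_neg (by omega), zero_add]
    rw [h1]
    have h2 : C (p : ℤ) ∣ (C c * (X ^ (g + 1) + C (p : ℤ) * X ^ (g - 1))
        + C (p : ℤ) * X ^ g + C ((p : ℤ) ^ g)) := by
      apply dvd_add
      · apply dvd_add
        · exact (map_dvd C hc).mul_right _
        · exact dvd_mul_right _ _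
      · exact map_dvd C (dvd_pow_self _ (by omega))
    exact (C_dvd_iff_dvd_coeff _ _).1 h2 i
  · have h1 : (PW p g c).coeff g = p := by
      rw [PW, coeff_add, coeff_add, coeff_add, coeff_C_mul, coeff_add, coeff_C_mul, coeff_C_mul,
        coeff_X_pow, coeff_X_pow, coeff_X_pow, coeff_X_pow, coeff_C, if_neg (by omega),
        if_neg (by omega), if_neg (by omega), if_pos rfl, if_neg (by omega)]
      ring
    rw [h1]
    intro h
    have hpi : Prime (p : ℤ) := Nat.prime_iff_prime_int.1 hp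
    have h3 : (p : ℤ) ^ 2 ∣ (p : ℤ) ^ 1 := by rwa [pow_one]
    have h4 := (pow_dvd_pow_iff hpi.ne_zero hpi.not_isUnit).1 h3
    omega
  · intro x hx n hn
    exact adjoin_pow_eq (monic_PW hg c) (nondeg hp hg hcore) hx hn

theorem final {p g : ℕ} (hp : p.Prime) (hg : 3 ≤ g) (h33 : ¬ (g = 3 ∧ p = 3))
    (h45 : ¬ (g = 4 ∧ p = 5)) :
    ∃ P : ℤ[X], P.Monic ∧ P.natDegree = 2 * g ∧ Irreducible (P.map (Int.castRingHom ℚ)) ∧
      (∀ x : ℂ, aeval x P = 0 → ‖x‖ = Real.sqrt p) ∧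
      (∀ i < 2 * g, (p : ℤ) ∣ P.coeff i) ∧ ¬ (p : ℤ) ^ 2 ∣ P.coeff g ∧
      (∀ x : ℂ, aeval x P = 0 → ∀ n : ℕ, 1 ≤ n →
        IntermediateField.adjoin ℚ {x ^ n} = IntermediateField.adjoin ℚ {x}) := by
  have hp0 : (p : ℤ) ≠ 0 := by exact_mod_cast hp.ne_zero
  have hp20 : ((p ^ 2 : ℕ) : ℤ) ≠ 0 := by exact_mod_cast (pow_pos hp.pos 2).ne'
  have hp2d : (p : ℤ) ^ 2 ∣ ((p ^ 2 : ℕ) : ℤ) := by rw [Nat.cast_pow]
  have hp1d : (p : ℤ) ∣ ((p ^ 2 : ℕ) : ℤ) := by
    rw [Nat.cast_pow]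
    exact dvd_pow_self _ two_ne_zero
  have h2 := hp.two_le
  rcases le_or_gt 6 g with hg6 | hg6
  · exact assemble hp hg hp1d (norm_six hp hg6)
      (fun B x x' ζ ζ' n D => core hp hg hp20 (Or.inl hp2d) D)
  · obtain rfl | rfl | rfl : g = 3 ∨ g = 4 ∨ g = 5 := by omega
    · -- dimension 3
      refine assemble hp hg (c := (p : ℤ)) dvd_rfl (norm_three hp) ?_
      intro B x x' ζ ζ' n D
      rcases le_or_gt 5 p with h5 | h5
      · exact core hp hg hp0 (Or.inr ⟨dvd_rfl, by omega⟩) D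
      · have h4 : p ≠ 4 := by
          rintro rfl
          exact absurd hp (by norm_num)
        obtain rfl : p = 2 := by omega
        exact core_three_two D
    · -- dimension 4
      refine assemble hp hg (c := (p : ℤ)) dvd_rfl (norm_four hp le_rfl) ?_
      intro B x x' ζ ζ' n D
      rcases le_or_gt 6 p with h5 | h5
      · exact core hp hg hp0 (Or.inr ⟨dvd_rfl, by omega⟩) D
      · have h4 : p ≠ 4 := by
          rintro rfl
          exact absurd hp (by norm_num)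
        obtain rfl | rfl : p = 2 ∨ p = 3 := by omega
        · exact core_four_two D
        · exact core_four_three D
    · -- dimension 5
      exact assemble hp hg hp1d (norm_five hp)
        (fun B x x' ζ ζ' n D => core hp hg hp20 (Or.inl hp2d) D)

end Pool.Agent.Y676.WP
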