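import Pool.Agent.Y676.WP.SpecCore
import Pool.Agent.Y676.WP.Final

/-! # All pairs -/

set_option autoImplicit false

namespace Pool.Agent.Y676.WP

open Polynomial

lemma norm_33 (x : ℂ) (hx : aeval x (PG 3 3 3 9 15) = 0) : ‖x‖ = Real.sqrt ((3 : ℕ) : ℝ) := by
  set f : ℝ → ℝ := fun t => t ^ 3 + 3 * t ^ 2 - 3 with hf
  have hfc : Continuous f := by
    rw [hf]
    fun_prop
  have hev : ∀ t : ℝ, aeval t (HG 3 3 3 9 15) = f t := by
    intro t
    have e : (3 : ℕ) = 1 + 2 := rfl
    unfold HG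
    rw [show dickson 1 (((3 : ℕ) : ℤ)) 3 = dickson 1 (((3 : ℕ) : ℤ)) (1 + 2) from rfl,
      dickson_add_two, dickson_add_two, dk_zero, dickson_one]
    simp only [map_add, map_sub, map_mul, map_pow, aeval_X, aeval_C, map_ofNat]
    simp [hf]
    ring
  obtain ⟨t1, a1, b1, c1⟩ := exists_zero hfc (a := -3) (b := -2) (by norm_num)
    (Or.inl ⟨by norm_num [hf], by norm_num [hf]⟩)
  obtain ⟨t2, a2, b2, c2⟩ := exists_zero hfc (a := -2) (b := 0) (by norm_num)
    (Or.inr ⟨by norm_num [hf], by norm_num [hf]⟩)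
  obtain ⟨t3, a3, b3, c3⟩ := exists_zero hfc (a := 0) (b := 1) (by norm_num)
    (Or.inl ⟨by norm_num [hf], by norm_num [hf]⟩)
  have hbd : ∀ t : ℝ, -3 < t → t < 3 → t ^ 2 ≤ 4 * ((3 : ℕ) : ℝ) := by
    intro t h1 h2
    push_cast
    nlinarith
  apply norm_of_rootsG Nat.prime_three le_rfl {t1, t2, t3} ?_ ?_ ?_ x hx
  · rw [Finset.card_insert_of_notMem, Finset.card_insert_of_notMem, Finset.card_singleton]
    · simp only [Finset.mem_singleton]
      linarith
    · simp only [Finset.mem_insert, Finset.mem_singleton, not_or]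
      constructor <;> linarith
  · intro t ht
    simp only [Finset.mem_insert, Finset.mem_singleton] at ht
    rw [hev]
    rcases ht with rfl | rfl | rfl <;> assumption
  · intro t ht
    simp only [Finset.mem_insert, Finset.mem_singleton] at ht
    rcases ht with rfl | rfl | rfl <;> exact hbd _ (by linarith) (by linarith)

lemma norm_45 (x : ℂ) (hx : aeval x (PG 5 4 0 5 10) = 0) : ‖x‖ = Real.sqrt ((5 : ℕ) : ℝ) := by
  set f : ℝ → ℝ := fun t => t ^ 4 - 20 * t ^ 2 + 5 * t + 60 with hf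
  have hfc : Continuous f := by
    rw [hf]
    fun_prop
  have hev : ∀ t : ℝ, aeval t (HG 5 4 0 5 10) = f t := by
    intro t
    unfold HG
    rw [show dickson 1 (((5 : ℕ) : ℤ)) 4 = dickson 1 (((5 : ℕ) : ℤ)) (0 + 2 + 2) from rfl,
      dickson_add_two, dickson_add_two, dickson_add_two, dk_zero, dickson_one]
    simp only [map_add, map_sub, map_mul, map_pow, aeval_X, aeval_C, map_ofNat]
    simp [hf]
    ring
  obtain ⟨t1, a1, b1, c1⟩ := exists_zero hfc (a := -22 / 5) (b := -3) (by norm_num)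
    (Or.inr ⟨by norm_num [hf], by norm_num [hf]⟩)
  obtain ⟨t2, a2, b2, c2⟩ := exists_zero hfc (a := -3) (b := 0) (by norm_num)
    (Or.inl ⟨by norm_num [hf], by norm_num [hf]⟩)
  obtain ⟨t3, a3, b3, c3⟩ := exists_zero hfc (a := 0) (b := 3) (by norm_num)
    (Or.inr ⟨by norm_num [hf], by norm_num [hf]⟩)
  obtain ⟨t4, a4, b4, c4⟩ := exists_zero hfc (a := 3) (b := 22 / 5) (by norm_num)
    (Or.inl ⟨by norm_num [hf], by norm_num [hf]⟩)
  have hbd : ∀ t : ℝ, -22 / 5 < t → t < 22 / 5 → t ^ 2 ≤ 4 * ((5 : ℕ) : ℝ) := by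
    intro t h1 h2
    push_cast
    nlinarith
  apply norm_of_rootsG (by norm_num : Nat.Prime 5) (by norm_num) {t1, t2, t3, t4} ?_ ?_ ?_ x hx
  · rw [Finset.card_insert_of_notMem, Finset.card_insert_of_notMem, Finset.card_insert_of_notMem,
      Finset.card_singleton]
    · simp only [Finset.mem_singleton]
      linarith
    · simp only [Finset.mem_insert, Finset.mem_singleton, not_or]
      constructor <;> linarith
    · simp only [Finset.mem_insert, Finset.mem_singleton, not_or]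
      refine ⟨?_, ?_, ?_⟩ <;> linarith
  · intro t ht
    simp only [Finset.mem_insert, Finset.mem_singleton] at ht
    rw [hev]
    rcases ht with rfl | rfl | rfl | rfl <;> assumption
  · intro t ht
    simp only [Finset.mem_insert, Finset.mem_singleton] at ht
    rcases ht with rfl | rfl | rfl | rfl <;> exact hbd _ (by linarith) (by linarith)

theorem all {p g : ℕ} (hp : p.Prime) (hg : 3 ≤ g) :
    ∃ P : ℤ[X], P.Monic ∧ P.natDegree = 2 * g ∧ Irreducible (P.map (Int.castRingHom ℚ)) ∧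
      (∀ x : ℂ, aeval x P = 0 → ‖x‖ = Real.sqrt p) ∧
      (∀ i < 2 * g, (p : ℤ) ∣ P.coeff i) ∧ ¬ (p : ℤ) ^ 2 ∣ P.coeff g ∧
      (∀ x : ℂ, aeval x P = 0 → ∀ n : ℕ, 1 ≤ n →
        IntermediateField.adjoin ℚ {x ^ n} = IntermediateField.adjoin ℚ {x}) := by
  by_cases h33 : g = 3 ∧ p = 3
  · obtain ⟨rfl, rfl⟩ := h33
    exact assembleG hp hg (d := 3) (c := 9) (e := 15) (by norm_num) (by norm_num) (by norm_num)
      (by norm_num) norm_33 (fun B x x' ζ ζ' n D => core_33 D)
  · by_cases h45 : g = 4 ∧ p = 5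
    · obtain ⟨rfl, rfl⟩ := h45
      exact assembleG hp hg (d := 0) (c := 5) (e := 10) (by norm_num) (by norm_num) (by norm_num)
        (by norm_num) norm_45 (fun B x x' ζ ζ' n D => core_45 D)
    · exact final hp hg h33 h45

end Pool.Agent.Y676.WP
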