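import Pool.Agent.Y676.WP.Val

/-! # The polynomials and the non-degeneracy of their roots -/

set_option autoImplicit false

namespace Pool.Agent.Y676.WP

open Polynomial

/-- the Weil polynomial `X^(2g) + c (X^(g+1) + p X^(g-1)) + p X^g + p^g` -/
noncomputable def PW (p g : ℕ) (c : ℤ) : ℤ[X] :=
  X ^ (2 * g) + (C c * (X ^ (g + 1) + C (p : ℤ) * X ^ (g - 1)) + C (p : ℤ) * X ^ g
    + C ((p : ℤ) ^ g))

lemma aeval_PW {p g : ℕ} (hg : 1 ≤ g) {c : ℤ} {x x' : ℂ} (h : x * x' = p) :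
    aeval x (PW p g c) = x ^ g * (x ^ g + x' ^ g + c * (x + x') + p) := by
  obtain ⟨k, rfl⟩ : ∃ k, g = k + 1 := ⟨g - 1, by omega⟩
  simp only [PW, map_add, map_mul, map_pow, aeval_X, eq_intCast, map_intCast,
    Nat.add_sub_cancel, map_natCast]
  rw [← h]
  ring

/-- a root of unity `ζ` such that `x` and `ζ x` are roots, `|p/x| ≤ |x|` -/
structure Pair (p g : ℕ) (c : ℤ) (B : ValuationSubring ℂ) (x x' ζ ζ' : ℂ) (n : ℕ) : Prop where
  hB : B.valuation (p : ℂ) < 1
  hint : IsIntegral ℤ x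
  hxx : x * x' = p
  hx : x ^ g + x' ^ g + c * (x + x') + p = 0
  hζ : ζ * ζ' = 1
  hy : (ζ * x) ^ g + (ζ' * x') ^ g + c * (ζ * x + ζ' * x') + p = 0
  hn : 1 ≤ n
  hζn : ζ ^ n = 1
  hle : B.valuation x' ≤ B.valuation x

/-- valuation core -/
theorem core_data {p g : ℕ} (hp : p.Prime) (hg : 3 ≤ g) {c : ℤ} (hc0 : c ≠ 0)
    (hpc : (p : ℤ) ∣ c) {B : ValuationSubring ℂ} {x x' ζ ζ' : ℂ} {n : ℕ}
    (D : Pair p g c B x x' ζ ζ' n) :
    0 < B.valuation x ∧ B.valuation x < 1 ∧ B.valuation x ^ g = B.valuation (p : ℂ) ∧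
      B.valuation (ζ - 1) ≤ 1 ∧ B.valuation (ζ ^ g - 1) ≤ 1 ∧
      B.valuation (ζ ^ g - 1) * B.valuation (p : ℂ) =
        B.valuation (c : ℂ) * (B.valuation (ζ - 1) * B.valuation x) ∧ (ζ ^ g = 1 → ζ = 1) := by
  obtain ⟨hB, hint, hxx, hx, hζ, hy, hn, hζn, hle⟩ := D
  have hp0 : (p : ℂ) ≠ 0 := by exact_mod_cast hp.ne_zero
  set v := B.valuation with hv
  set a := v x with ha
  set b := v x' with hb
  set π := v (p : ℂ) with hπ
  have hπ0 : 0 < π := by
    rw [hπ, Valuation.pos_iff]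
    exact hp0
  have hab : a * b = π := by
    rw [ha, hb, ← map_mul, hxx]
  have ha1 : a ≤ 1 := val_le_one B hint
  have ha0 : 0 < a := by
    rcases eq_or_lt_of_le (zero_le : 0 ≤ a) with h | h
    · rw [← h, zero_mul] at hab
      rw [← hab] at hπ0
      exact absurd hπ0 (lt_irrefl _)
    · exact h
  have hvc : v (c : ℂ) ≤ π := by
    obtain ⟨d, hd⟩ := hpc
    rw [hd, Int.cast_mul, map_mul, Int.cast_natCast]
    exact mul_le_of_le_one_right' (val_int_le B d)
  set r : ℂ := x' ^ g + c * (x + x') with hr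
  have hxg : x ^ g = -(r + p) := by
    rw [hr]
    linear_combination hx
  have hvs : v (x + x') ≤ a := (v.map_add x x').trans (max_le le_rfl hle)
  have hb1 : b ≤ 1 := hle.trans ha1
  -- a < 1
  have ha_lt : a < 1 := by
    by_contra hcon
    rw [not_lt] at hcon
    have ha_eq : a = 1 := le_antisymm ha1 hcon
    have hbπ : b = π := by
      rw [← hab, ha_eq, one_mul]
    have h1 : v (x' ^ g) < 1 := by
      rw [map_pow, ← hb, hbπ]
      exact pow_lt_one₀ zero_le hB (by omega)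
    have h2 : v (c * (x + x')) < 1 := by
      rw [map_mul]
      exact (mul_le_mul' hvc (hvs.trans ha1)).trans_lt (by rw [mul_one]; exact hB)
    have h3 : v r < 1 := v.map_add_lt h1 h2
    have h4 : v (r + p) < 1 := v.map_add_lt h3 hB
    have h5 : v (x ^ g) = 1 := by
      rw [map_pow, ← ha, ha_eq, one_pow]
    rw [hxg, Valuation.map_neg] at h5
    rw [h5] at h4
    exact lt_irrefl _ h4
  have hb_lt : b < 1 := hle.trans_lt ha_lt
  have hbg : b ^ g < π := by
    have h1 : b ^ g = b ^ 2 * b ^ (g - 2) := by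
      rw [← pow_add]
      congr 1
      omega
    have h2 : b ^ 2 ≤ π := by
      rw [sq, ← hab]
      exact mul_le_mul_left hle b
    have h3 : b ^ (g - 2) < 1 := pow_lt_one₀ zero_le hb_lt (by omega)
    rw [h1]
    calc b ^ 2 * b ^ (g - 2) ≤ π * b ^ (g - 2) := mul_le_mul_left h2 _
      _ < π * 1 := (mul_lt_mul_iff_right₀ hπ0).2 h3
      _ = π := mul_one _
  have hcs : v (c * (x + x')) < π := by
    rw [map_mul]
    calc v (c : ℂ) * v (x + x') ≤ π * a := mul_le_mul' hvc hvs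
      _ < π * 1 := (mul_lt_mul_iff_right₀ hπ0).2 ha_lt
      _ = π := mul_one _
  have hvr : v r < π := v.map_add_lt (by rw [map_pow]; exact hbg) hcs
  have hag : a ^ g = π := by
    rw [ha, ← map_pow, hxg, Valuation.map_neg, add_comm]
    exact Valuation.map_add_eq_of_lt_left v hvr
  have hba : b < a := by
    apply lt_of_pow_lt_pow_left₀ g zero_le
    rw [hag]
    exact hbg
  -- the difference of the two relations
  have hω : ζ ^ g * ζ' ^ g = 1 := by
    rw [← mul_pow, hζ, one_pow]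
  have hd : (ζ ^ g - 1) * (x ^ g - ζ' ^ g * x' ^ g) = -(c * ((ζ - 1) * (x - ζ' * x'))) := by
    rw [mul_pow, mul_pow] at hy
    linear_combination hy - hx - x' ^ g * hω - c * x' * hζ
  have hζ'n : ζ' ^ n = 1 := by
    have h1 : ζ ^ n * ζ' ^ n = 1 := by
      rw [← mul_pow, hζ, one_pow]
    rwa [hζn, one_mul] at h1
  have hζi : IsIntegral ℤ ζ := integral_of_pow hn hζn
  have hζi' : IsIntegral ℤ ζ' := integral_of_pow hn hζ'n
  have e1 : v (x ^ g - ζ' ^ g * x' ^ g) = π := by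
    have h1 : v (ζ' ^ g * x' ^ g) < v (x ^ g) := by
      rw [map_mul, map_pow v x', map_pow v x, ← ha, ← hb, hag]
      exact (mul_le_of_le_one_left' (val_le_one B (hζi'.pow g))).trans_lt hbg
    rw [Valuation.map_sub_eq_of_lt_left v h1, map_pow, ← ha, hag]
  have e2 : v (x - ζ' * x') = a := by
    have h1 : v (ζ' * x') < v x := by
      rw [map_mul]
      exact (mul_le_of_le_one_left' (val_le_one B hζi')).trans_lt hba
    rw [Valuation.map_sub_eq_of_lt_left v h1]
  have hvζ : v (ζ - 1) ≤ 1 := val_le_one B (hζi.sub isIntegral_one)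
  have hvω : v (ζ ^ g - 1) ≤ 1 := val_le_one B ((hζi.pow g).sub isIntegral_one)
  have e3 : v (ζ ^ g - 1) * π = v (c : ℂ) * (v (ζ - 1) * a) := by
    rw [← e1, ← e2, ← map_mul, ← map_mul, ← map_mul, hd, Valuation.map_neg]
  refine ⟨ha0, ha_lt, hag, hvζ, hvω, e3, fun hω1 => ?_⟩
  rw [hω1, sub_self, zero_mul] at hd
  have h1 : (c : ℂ) ≠ 0 := by exact_mod_cast hc0
  have h2 : x - ζ' * x' ≠ 0 := by
    intro h
    rw [h, map_zero] at e2
    exact ha0.ne e2
  have h3 : (c : ℂ) * ((ζ - 1) * (x - ζ' * x')) = 0 := by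
    linear_combination hd
  rcases mul_eq_zero.1 h3 with h | h
  · exact absurd h h1
  · rcases mul_eq_zero.1 h with h | h
    · exact sub_eq_zero.1 h
    · exact absurd h h2

/-- the general case -/
theorem core {p g : ℕ} (hp : p.Prime) (hg : 3 ≤ g) {c : ℤ} (hc0 : c ≠ 0)
    (hc : (p : ℤ) ^ 2 ∣ c ∨ ((p : ℤ) ∣ c ∧ g + 1 < p)) {B : ValuationSubring ℂ}
    {x x' ζ ζ' : ℂ} {n : ℕ} (D : Pair p g c B x x' ζ ζ' n) : ζ = 1 := by
  have hpc : (p : ℤ) ∣ c := by
    rcases hc with h | h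
    · exact (Dvd.intro_left ((p : ℤ) ^ 1) (by ring)).trans h
    · exact h.1
  obtain ⟨ha0, ha_lt, hag, hvζ, hvω, e3, hconc⟩ := core_data hp hg hc0 hpc D
  have hp0 : (p : ℂ) ≠ 0 := by exact_mod_cast hp.ne_zero
  have hB := D.hB
  set v := B.valuation with hv
  set a := v x with ha
  set π := v (p : ℂ) with hπ
  have hπ0 : 0 < π := by
    rw [hπ, Valuation.pos_iff]
    exact hp0
  have e4 : v (ζ ^ g - 1) * π ≤ v (c : ℂ) * a := by
    rw [e3]
    exact mul_le_mul_right (mul_le_of_le_one_left' hvζ) _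
  by_cases hω1 : ζ ^ g = 1
  · exact hconc hω1
  · exfalso
    have hωn : (ζ ^ g) ^ n = 1 := by
      rw [← pow_mul, mul_comm, pow_mul, D.hζn, one_pow]
    have hrb := root_bound hp B hB D.hn hωn hω1
    have hp2 := hp.two_le
    rcases hc with h | h
    · obtain ⟨d, hd2⟩ := h
      have hvc2 : v (c : ℂ) ≤ π * π := by
        rw [hd2, Int.cast_mul, map_mul, Int.cast_pow, Int.cast_natCast, sq, map_mul]
        exact mul_le_of_le_one_right' (val_int_le B d)
      have h1 : v (ζ ^ g - 1) < π := by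
        have h2 : v (ζ ^ g - 1) * π < π * π := by
          calc v (ζ ^ g - 1) * π ≤ v (c : ℂ) * a := e4
            _ ≤ π * π * a := mul_le_mul_left hvc2 _
            _ < π * π * 1 := (mul_lt_mul_iff_right₀ (mul_pos hπ0 hπ0)).2 ha_lt
            _ = π * π := mul_one _
        exact lt_of_mul_lt_mul_right h2 zero_le
      have h2 : v (ζ ^ g - 1) ^ (p - 1) ≤ v (ζ ^ g - 1) := pow_le_of_le_one zero_le hvω (by omega)
      exact absurd (hrb.trans h2) (not_le.2 h1)
    · have hvc : v (c : ℂ) ≤ π := by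
        obtain ⟨d, hd⟩ := hpc
        rw [hd, Int.cast_mul, map_mul, Int.cast_natCast]
        exact mul_le_of_le_one_right' (val_int_le B d)
      have h1 : v (ζ ^ g - 1) ≤ a := by
        have h2 : v (ζ ^ g - 1) * π ≤ a * π := by
          rw [mul_comm a]
          exact e4.trans (mul_le_mul_left hvc _)
        exact le_of_mul_le_mul_right h2 hπ0
      have h2 : v (ζ ^ g - 1) ^ (p - 1) ≤ a ^ (p - 1) := pow_le_pow_left₀ zero_le h1 _
      have h3 : a ^ (p - 1) ≤ a ^ (g + 1) := pow_le_pow_of_le_one zero_le ha_lt.le (by omega)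
      have h4 : a ^ (g + 1) < π := by
        rw [pow_succ, hag]
        calc π * a < π * 1 := (mul_lt_mul_iff_right₀ hπ0).2 ha_lt
          _ = π := mul_one _
      exact absurd (hrb.trans (h2.trans h3)) (not_le.2 h4)

/-- the case `c = p`: `|ζ ^ g - 1| = |ζ - 1| |x|` -/
lemma core_p {p g : ℕ} (hp : p.Prime) (hg : 3 ≤ g) {B : ValuationSubring ℂ}
    {x x' ζ ζ' : ℂ} {n : ℕ} (D : Pair p g (p : ℤ) B x x' ζ ζ' n) :
    0 < B.valuation x ∧ B.valuation x < 1 ∧ B.valuation x ^ g = B.valuation (p : ℂ) ∧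
      B.valuation (ζ - 1) ≤ 1 ∧
      B.valuation (ζ ^ g - 1) = B.valuation (ζ - 1) * B.valuation x ∧ (ζ ^ g = 1 → ζ = 1) := by
  obtain ⟨ha0, ha_lt, hag, hvζ, hvω, e3, hconc⟩ := core_data hp hg
    (by exact_mod_cast hp.ne_zero) dvd_rfl D
  refine ⟨ha0, ha_lt, hag, hvζ, ?_, hconc⟩
  rw [Int.cast_natCast, mul_comm] at e3
  have hπ0 : 0 < B.valuation (p : ℂ) := by
    rw [Valuation.pos_iff]
    exact_mod_cast hp.ne_zero
  exact mul_left_cancel₀ hπ0.ne' e3

lemma vadd_left {B : ValuationSubring ℂ} {y z : ℂ} (h : B.valuation z < B.valuation y) :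
    B.valuation (y + z) = B.valuation y := Valuation.map_add_eq_of_lt_left _ h

theorem core_three_two {B : ValuationSubring ℂ} {x x' ζ ζ' : ℂ} {n : ℕ}
    (D : Pair 2 3 ((2 : ℕ) : ℤ) B x x' ζ ζ' n) : ζ = 1 := by
  obtain ⟨ha0, ha_lt, hag, hvζ, e, hconc⟩ := core_p Nat.prime_two le_rfl D
  by_contra hne
  have hB := D.hB
  have hω1 : ζ ^ 3 ≠ 1 := fun h => hne (hconc h)
  have hζi : IsIntegral ℤ ζ := integral_of_pow D.hn D.hζn
  have ht0 : B.valuation (ζ - 1) ≠ 0 := by
    rw [Ne, Valuation.zero_iff]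
    exact sub_ne_zero.2 hne
  have h3 : B.valuation (3 : ℂ) = 1 := by
    have := val_eq_one B hB (m := 3) (by norm_num)
    exact_mod_cast this
  have e1 : B.valuation (ζ ^ 2 + ζ + 1) = B.valuation x := by
    apply mul_left_cancel₀ ht0
    rw [← e, ← map_mul]
    congr 1
    ring
  have hB2 : B.valuation (2 : ℂ) = B.valuation x ^ 3 := by
    rw [hag]
    norm_num
  rcases lt_or_eq_of_le hvζ with ht | ht
  · have h1 : B.valuation ((ζ - 1) * (ζ + 2)) < 1 := by
      rw [map_mul]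
      exact mul_lt_one_of_lt_of_le ht (val_le_one B (hζi.add (by
        exact_mod_cast isIntegral_algebraMap (R := ℤ) (A := ℂ) (x := 2))))
    have h2 : B.valuation (3 + (ζ - 1) * (ζ + 2)) = 1 := by
      rw [vadd_left (by rw [h3]; exact h1), h3]
    have h4 : (3 : ℂ) + (ζ - 1) * (ζ + 2) = ζ ^ 2 + ζ + 1 := by ring
    rw [h4, e1] at h2
    exact ha_lt.ne h2
  · rw [ht, one_mul] at e
    set a := B.valuation x with ha
    have m1 : B.valuation (ζ ^ 3 + 1) = a := by
      have h1 : ζ ^ 3 + 1 = (ζ ^ 3 - 1) + 2 := by ring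
      rw [h1, vadd_left, e]
      rw [hB2, e]
      exact pow_lt_self_of_lt_one₀ ha0 ha_lt (by norm_num)
    have m2 : B.valuation (ζ ^ 6 - 1) = a ^ 2 := by
      have h1 : ζ ^ 6 - 1 = (ζ ^ 3 - 1) * (ζ ^ 3 + 1) := by ring
      rw [h1, map_mul, e, m1, sq]
    have m3 : B.valuation (ζ ^ 6 + 1) = a ^ 2 := by
      have h1 : ζ ^ 6 + 1 = (ζ ^ 6 - 1) + 2 := by ring
      rw [h1, vadd_left, m2]
      rw [hB2, m2]
      exact pow_lt_pow_right_of_lt_one₀ ha0 ha_lt (by norm_num)
    have m4 : B.valuation (ζ ^ 12 - 1) = a ^ 4 := by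
      have h1 : ζ ^ 12 - 1 = (ζ ^ 6 - 1) * (ζ ^ 6 + 1) := by ring
      rw [h1, map_mul, m2, m3, ← pow_add]
    have m5 : ζ ^ 12 ≠ 1 := by
      intro h
      rw [h, sub_self, map_zero] at m4
      exact (pow_pos ha0 4).ne m4
    have m6 := root_bound Nat.prime_two B hB D.hn
      (show (ζ ^ 12) ^ n = 1 by rw [← pow_mul, mul_comm, pow_mul, D.hζn, one_pow]) m5
    rw [m4, ← hag] at m6
    exact absurd m6 (not_le.2 (by
      rw [← pow_mul]
      exact pow_lt_pow_right_of_lt_one₀ ha0 ha_lt (by norm_num)))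

theorem core_four_three {B : ValuationSubring ℂ} {x x' ζ ζ' : ℂ} {n : ℕ}
    (D : Pair 3 4 ((3 : ℕ) : ℤ) B x x' ζ ζ' n) : ζ = 1 := by
  obtain ⟨ha0, ha_lt, hag, hvζ, e, hconc⟩ := core_p Nat.prime_three (by norm_num) D
  by_contra hne
  have hB := D.hB
  have hω1 : ζ ^ 4 ≠ 1 := fun h => hne (hconc h)
  have hζi : IsIntegral ℤ ζ := integral_of_pow D.hn D.hζn
  have ht0 : B.valuation (ζ - 1) ≠ 0 := by
    rw [Ne, Valuation.zero_iff]
    exact sub_ne_zero.2 hne
  have h2 : B.valuation (2 : ℂ) = 1 := by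
    have := val_eq_one B hB (m := 2) (by norm_num)
    exact_mod_cast this
  have e1 : B.valuation (ζ + 1) * B.valuation (ζ ^ 2 + 1) = B.valuation x := by
    apply mul_left_cancel₀ ht0
    rw [← e, ← map_mul, ← map_mul]
    congr 1
    ring
  have hB3 : B.valuation (3 : ℂ) = B.valuation x ^ 4 := by
    rw [hag]
    norm_num
  rcases lt_or_eq_of_le hvζ with ht | ht
  · have h3 : B.valuation (ζ + 1) = 1 := by
      have h4 : ζ + 1 = 2 + (ζ - 1) := by ring
      rw [h4, vadd_left (by rw [h2]; exact ht), h2]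
    have h5 : B.valuation (ζ ^ 2 + 1) = 1 := by
      have h4 : ζ ^ 2 + 1 = 2 + (ζ - 1) * (ζ + 1) := by ring
      rw [h4, vadd_left, h2]
      rw [h2, map_mul, h3, mul_one]
      exact ht
    rw [h3, h5, one_mul] at e1
    exact ha_lt.ne e1.symm
  · rw [ht, one_mul] at e
    set a := B.valuation x with ha
    have m1 : B.valuation (ζ ^ 12 - 1) = a ^ 3 := by
      have h1 : ζ ^ 12 - 1 = (ζ ^ 4 - 1) * ((ζ ^ 4 - 1) ^ 2 + 3 * ζ ^ 4) := by ring
      rw [h1, map_mul, e, vadd_left, map_pow, e]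
      · exact (pow_succ' a 2).symm
      · rw [map_mul, map_pow B.valuation (ζ ^ 4 - 1) 2, e, hB3]
        refine lt_of_le_of_lt (mul_le_of_le_one_right' (val_le_one B (hζi.pow 4))) ?_
        exact pow_lt_pow_right_of_lt_one₀ ha0 ha_lt (by norm_num)
    have m5 : ζ ^ 12 ≠ 1 := by
      intro h
      rw [h, sub_self, map_zero] at m1
      exact (pow_pos ha0 3).ne m1
    have m6 := root_bound Nat.prime_three B hB D.hn
      (show (ζ ^ 12) ^ n = 1 by rw [← pow_mul, mul_comm, pow_mul, D.hζn, one_pow]) m5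
    rw [m1, ← hag] at m6
    exact absurd m6 (not_le.2 (by
      rw [← pow_mul]
      exact pow_lt_pow_right_of_lt_one₀ ha0 ha_lt (by norm_num)))

theorem core_four_two {B : ValuationSubring ℂ} {x x' ζ ζ' : ℂ} {n : ℕ}
    (D : Pair 2 4 ((2 : ℕ) : ℤ) B x x' ζ ζ' n) : ζ = 1 := by
  obtain ⟨ha0, ha_lt, hag, hvζ, e, hconc⟩ := core_p Nat.prime_two (by norm_num) D
  by_contra hne
  have hB := D.hB
  have hω1 : ζ ^ 4 ≠ 1 := fun h => hne (hconc h)
  have hζi : IsIntegral ℤ ζ := integral_of_pow D.hn D.hζn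
  have ht0 : B.valuation (ζ - 1) ≠ 0 := by
    rw [Ne, Valuation.zero_iff]
    exact sub_ne_zero.2 hne
  have e1 : B.valuation (ζ + 1) * B.valuation (ζ ^ 2 + 1) = B.valuation x := by
    apply mul_left_cancel₀ ht0
    rw [← e, ← map_mul, ← map_mul]
    congr 1
    ring
  have hB2 : B.valuation (2 : ℂ) = B.valuation x ^ 4 := by
    rw [hag]
    norm_num
  have hrb := root_bound Nat.prime_two B hB D.hn D.hζn hne
  rw [← hag] at hrb
  simp only [pow_one, show 2 - 1 = 1 from rfl] at hrb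
  have hpos : 0 < B.valuation (ζ - 1) := lt_of_le_of_ne zero_le (Ne.symm ht0)
  set t := B.valuation (ζ - 1) with htd
  set a := B.valuation x with ha
  have hv2 : B.valuation (ζ ^ 2 + 1) ≤ 1 := val_le_one B ((hζi.pow 2).add isIntegral_one)
  have ha4 : a ^ 4 < a := pow_lt_self_of_lt_one₀ ha0 ha_lt (by norm_num)
  have s1 : ζ + 1 = (ζ - 1) + 2 := by ring
  have s2 : ζ ^ 2 + 1 = (ζ - 1) * (ζ + 1) + 2 := by ring
  rcases eq_or_lt_of_le hrb with h | h
  · -- `t = |2|`
    have h1 : B.valuation (ζ + 1) ≤ a ^ 4 := by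
      rw [s1]
      refine (B.valuation.map_add _ _).trans (max_le ?_ ?_)
      · rw [← htd, ← h]
      · rw [hB2]
    have h2 : a ≤ a ^ 4 := by
      rw [← e1]
      calc B.valuation (ζ + 1) * B.valuation (ζ ^ 2 + 1) ≤ a ^ 4 * 1 := mul_le_mul' h1 hv2
        _ = a ^ 4 := mul_one _
        _ = _ := by rw [e1]
    exact absurd h2 (not_le.2 ha4)
  · have m1 : B.valuation (ζ + 1) = t := by
      rw [s1, vadd_left]
      rw [hB2]
      exact h
    rcases le_or_gt (t ^ 2) (a ^ 4) with h' | h'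
    · have h1 : B.valuation (ζ ^ 2 + 1) ≤ a ^ 4 := by
        rw [s2]
        refine (B.valuation.map_add _ _).trans (max_le ?_ ?_)
        · rw [map_mul, m1, ← htd, ← sq]
          exact h'
        · rw [hB2]
      have h2 : a ≤ a ^ 4 := by
        rw [← e1, m1]
        calc t * B.valuation (ζ ^ 2 + 1) ≤ 1 * a ^ 4 := mul_le_mul' hvζ h1
          _ = a ^ 4 := one_mul _
          _ = _ := by rw [← e1, m1]
      exact absurd h2 (not_le.2 ha4)
    · have m2 : B.valuation (ζ ^ 2 + 1) = t ^ 2 := by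
        rw [s2, vadd_left]
        · rw [map_mul, m1, ← htd, ← sq]
        · rw [map_mul, m1, ← htd, ← sq, hB2]
          exact h'
      have ht3 : t ^ 3 = a := by
        rw [← e1, m1, m2]
        exact pow_succ' t 2
      have ht1 : t < 1 := by
        by_contra hcon
        rw [not_lt] at hcon
        have : (1 : B.ValueGroup) ≤ t ^ 3 := one_le_pow₀ hcon
        rw [ht3] at this
        exact absurd this (not_le.2 ha_lt)
      have hπ : a ^ 4 = t ^ 12 := by
        rw [← ht3, ← pow_mul]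
      have m3 : B.valuation (ζ ^ 4 - 1) = t ^ 4 := by
        rw [e, ← ht3]
        exact (pow_succ' t 3).symm
      have m4 : B.valuation (ζ ^ 4 + 1) = t ^ 4 := by
        have h1 : ζ ^ 4 + 1 = (ζ ^ 4 - 1) + 2 := by ring
        rw [h1, vadd_left, m3]
        rw [hB2, m3, hπ]
        exact pow_lt_pow_right_of_lt_one₀ hpos ht1 (by norm_num)
      have m5 : B.valuation (ζ ^ 8 - 1) = t ^ 8 := by
        have h1 : ζ ^ 8 - 1 = (ζ ^ 4 - 1) * (ζ ^ 4 + 1) := by ring
        rw [h1, map_mul, m3, m4, ← pow_add]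
      have m6 : B.valuation (ζ ^ 8 + 1) = t ^ 8 := by
        have h1 : ζ ^ 8 + 1 = (ζ ^ 8 - 1) + 2 := by ring
        rw [h1, vadd_left, m5]
        rw [hB2, m5, hπ]
        exact pow_lt_pow_right_of_lt_one₀ hpos ht1 (by norm_num)
      have m7 : B.valuation (ζ ^ 16 - 1) = t ^ 16 := by
        have h1 : ζ ^ 16 - 1 = (ζ ^ 8 - 1) * (ζ ^ 8 + 1) := by ring
        rw [h1, map_mul, m5, m6, ← pow_add]
      have m8 : ζ ^ 16 ≠ 1 := by
        intro h
        rw [h, sub_self, map_zero] at m7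
        exact (pow_pos hpos 16).ne m7
      have m9 := root_bound Nat.prime_two B hB D.hn
        (show (ζ ^ 16) ^ n = 1 by rw [← pow_mul, mul_comm, pow_mul, D.hζn, one_pow]) m8
      rw [m7, ← hag, hπ] at m9
      exact absurd m9 (not_le.2 (by
        rw [← pow_mul]
        exact pow_lt_pow_right_of_lt_one₀ hpos ht1 (by norm_num)))

lemma natDegree_aux (p g : ℕ) (hg : 3 ≤ g) (c : ℤ) :
    (C c * (X ^ (g + 1) + C (p : ℤ) * X ^ (g - 1)) + C (p : ℤ) * X ^ g
    + C ((p : ℤ) ^ g)).natDegree < 2 * g := by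
  have h1 : (C c * (X ^ (g + 1) + C (p : ℤ) * X ^ (g - 1)) + C (p : ℤ) * X ^ g
    + C ((p : ℤ) ^ g)).natDegree ≤ g + 1 := by
    apply natDegree_add_le_of_degree_le
    · apply natDegree_add_le_of_degree_le
      · apply (natDegree_C_mul_le _ _).trans
        apply natDegree_add_le_of_degree_le
        · exact (natDegree_X_pow _).le
        · exact (natDegree_C_mul_X_pow_le _ _).trans (by omega)
      · exact (natDegree_C_mul_X_pow_le _ _).trans (by omega)
    · rw [natDegree_C]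
      omega
  omega

lemma natDegree_PW {p g : ℕ} (hg : 3 ≤ g) (c : ℤ) : (PW p g c).natDegree = 2 * g := by
  unfold PW
  rw [natDegree_add_eq_left_of_natDegree_lt, natDegree_X_pow]
  rw [natDegree_X_pow]
  exact natDegree_aux p g hg c

lemma monic_PW {p g : ℕ} (hg : 3 ≤ g) (c : ℤ) : (PW p g c).Monic :=
  monic_X_pow_add (degree_le_natDegree.trans_lt (by exact_mod_cast natDegree_aux p g hg c))

lemma ne_zero_of_root {p g : ℕ} (hp : p.Prime) (hg : 3 ≤ g) {c : ℤ} {x : ℂ}
    (hx : aeval x (PW p g c) = 0) : x ≠ 0 := by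
  rintro rfl
  have h1 : aeval (0 : ℂ) (PW p g c) = (p : ℂ) ^ g := by
    obtain ⟨k, rfl⟩ : ∃ k, g = k + 2 := ⟨g - 2, by omega⟩
    have e : k + 2 - 1 = k + 1 := by omega
    simp [PW, e]
  rw [h1] at hx
  exact pow_ne_zero g (by exact_mod_cast hp.ne_zero) hx

lemma rel_of_root {p g : ℕ} (hp : p.Prime) (hg : 3 ≤ g) {c : ℤ} {x x' : ℂ}
    (hx : aeval x (PW p g c) = 0) (h : x * x' = p) :
    x ^ g + x' ^ g + c * (x + x') + p = 0 := by
  rw [aeval_PW (by omega) h] at hx
  rcases mul_eq_zero.1 hx with h1 | h1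
  · exact absurd h1 (pow_ne_zero g (ne_zero_of_root hp hg (by rw [aeval_PW (by omega) h]; exact hx)))
  · exact h1

/-- two roots of which the quotient is a root of unity are equal -/
theorem nondeg {p g : ℕ} (hp : p.Prime) (hg : 3 ≤ g) {c : ℤ}
    (hcore : ∀ (B : ValuationSubring ℂ) (x x' ζ ζ' : ℂ) (n : ℕ),
      Pair p g c B x x' ζ ζ' n → ζ = 1) (x y : ℂ)
    (hx : aeval x (PW p g c) = 0) (hy : aeval y (PW p g c) = 0) (n : ℕ) (hn : 1 ≤ n)
    (hxy : x ^ n = y ^ n) : x = y := by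
  obtain ⟨B, hB⟩ := exists_val hp
  have hB' := val_p_lt B hB
  have hp0 : (p : ℂ) ≠ 0 := by exact_mod_cast hp.ne_zero
  have hx0 := ne_zero_of_root hp hg hx
  have hy0 := ne_zero_of_root hp hg hy
  have hxx : x * (p / x) = p := mul_div_cancel₀ _ hx0
  have hyy : y * (p / y) = p := mul_div_cancel₀ _ hy0
  have hrx := rel_of_root hp hg hx hxx
  have hry := rel_of_root hp hg hy hyy
  have hxi : IsIntegral ℤ x := ⟨PW p g c, monic_PW hg c, hx⟩
  have hx'r : aeval (p / x) (PW p g c) = 0 := by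
    rw [aeval_PW (by omega) (show p / x * x = (p : ℂ) by rw [mul_comm]; exact hxx)]
    have : ((p : ℂ) / x) ^ g + x ^ g + c * (p / x + x) + p = 0 := by
      linear_combination hrx
    rw [this, mul_zero]
  have hxi' : IsIntegral ℤ (p / x) := ⟨PW p g c, monic_PW hg c, hx'r⟩
  have hζ : (y / x) * (x / y) = 1 := by
    field_simp
  have hζn : (y / x) ^ n = 1 := by
    rw [div_pow, hxy, div_self (pow_ne_zero n hy0)]
  have hζn' : (x / y) ^ n = 1 := by
    rw [div_pow, hxy, div_self (pow_ne_zero n hy0)]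
  have e1 : y / x * x = y := div_mul_cancel₀ _ hx0
  have e2 : x / y * (p / x) = p / y := by
    field_simp
  rcases le_total (B.valuation (p / x)) (B.valuation x) with h | h
  · have h1 := hcore B _ _ _ _ n
      ⟨hB', hxi, hxx, hrx, hζ, by rw [e1, e2]; exact hry, hn, hζn, h⟩
    rw [div_eq_one_iff_eq hx0] at h1
    exact h1.symm
  · have h1 := hcore B _ _ _ _ n
      ⟨hB', hxi', by rw [mul_comm]; exact hxx, by linear_combination hrx,
        by rw [mul_comm]; exact hζ, by rw [e1, e2]; linear_combination hry, hn, hζn', h⟩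
    rw [div_eq_one_iff_eq hy0] at h1
    exact h1

/-- fields generated by powers (the argument is the one of
`Pool.Agent.TH343.PR.adjoin_pow_eq`) -/
lemma adjoin_pow_eq {P : ℤ[X]} (hm : P.Monic)
    (h : ∀ x y : ℂ, aeval x P = 0 → aeval y P = 0 → ∀ n : ℕ, 1 ≤ n → x ^ n = y ^ n → x = y)
    {x : ℂ} (hx : aeval x P = 0) {n : ℕ} (hn : 1 ≤ n) :
    IntermediateField.adjoin ℚ {x ^ n} = IntermediateField.adjoin ℚ {x} := by
  apply le_antisymm
  · rw [IntermediateField.adjoin_le_iff, Set.singleton_subset_iff]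
    exact pow_mem (IntermediateField.mem_adjoin_simple_self ℚ x) n
  · rw [IntermediateField.adjoin_le_iff, Set.singleton_subset_iff, SetLike.mem_coe]
    by_contra hcon
    set L := IntermediateField.adjoin ℚ {x ^ n} with hL
    have hxi : IsIntegral ℤ x := ⟨P, hm, hx⟩
    have hxL : IsIntegral L x := hxi.tower_top
    have hnot : x ∉ (⊥ : Subalgebra L ℂ) := by
      intro hb
      obtain ⟨y, hy⟩ := Algebra.mem_bot.1 hb
      apply hcon
      rw [← hy]
      exact y.2
    have hsep : IsSeparable L x := (minpoly.irreducible hxL).separable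
    obtain ⟨y, hy1, hy2⟩ := (notMem_iff_exists_ne_and_isConjRoot hsep (IsAlgClosed.splits _)).1 hnot
    apply hy1
    have hmem : x ^ n ∈ L := IntermediateField.mem_adjoin_simple_self ℚ (x ^ n)
    have hdvd1 : minpoly L x ∣ X ^ n - C (⟨x ^ n, hmem⟩ : L) := by
      apply minpoly.dvd
      rw [map_sub, map_pow, aeval_X, aeval_C]
      exact sub_self _
    have hdvd2 : minpoly L x ∣ P.map (algebraMap ℤ L) := by
      apply minpoly.dvd
      rw [aeval_map_algebraMap]
      exact hx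
    have hy0 : aeval y (minpoly L x) = 0 := hy2.aeval_eq_zero
    have hyn : y ^ n = x ^ n := by
      obtain ⟨Q, hQ⟩ := hdvd1
      have h1 := congrArg (aeval y) hQ
      rw [map_mul, hy0, zero_mul, map_sub, map_pow, aeval_X, aeval_C] at h1
      exact sub_eq_zero.1 h1
    have hyP : aeval y P = 0 := by
      obtain ⟨Q, hQ⟩ := hdvd2
      have h1 := congrArg (aeval y) hQ
      rw [map_mul, hy0, zero_mul, aeval_map_algebraMap] at h1
      exact h1
    exact h x y hx hyP n hn hyn.symm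

end Pool.Agent.Y676.WP
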