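import Pool.Agent.Y676.WP.Core

/-! # Irreducibility -/

set_option autoImplicit false

namespace Pool.Agent.Y676.WP

open Polynomial

lemma dk_zero (a : ℤ) : dickson 1 a 0 = (2 : ℤ[X]) := by
  rw [dickson_zero]
  norm_num

lemma dk_eval {p : ℕ} {x x' : ℂ} (h : x * x' = p) :
    ∀ n : ℕ, aeval (x + x') (dickson 1 (p : ℤ) n) = x ^ n + x' ^ n := by
  intro n
  induction n using Nat.twoStepInduction with
  | zero =>
    rw [dk_zero, show (2 : ℤ[X]) = C 2 from rfl, aeval_C]
    norm_num
  | one => simp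
  | more n h1 h2 =>
    rw [dickson_add_two, map_sub, map_mul, map_mul, h1, h2, aeval_X, aeval_C]
    have e : (algebraMap ℤ ℂ) (p : ℤ) = x * x' := by
      rw [h]
      simp
    rw [e]
    ring

lemma dk_deg (a : ℤ) : ∀ n : ℕ, ∃ r : ℤ[X], r.natDegree < n + 1 ∧ dickson 1 a (n + 1) = X ^ (n + 1) + r := by
  intro n
  induction n using Nat.twoStepInduction with
  | zero => exact ⟨0, by simp, by simp⟩
  | one =>
    refine ⟨C (-2 * a), by rw [natDegree_C]; omega, ?_⟩
    rw [dickson_add_two, dk_zero, zero_add, dickson_one]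
    simp only [map_mul, map_neg]
    rw [show (C (2 : ℤ) : ℤ[X]) = 2 from rfl]
    ring
  | more n h1 h2 =>
    obtain ⟨r1, hr1, e1⟩ := h1
    obtain ⟨r2, hr2, e2⟩ := h2
    refine ⟨X * r2 - C a * (X ^ (n + 1) + r1), ?_, ?_⟩
    · apply lt_of_le_of_lt (natDegree_sub_le _ _)
      apply max_lt
      · apply lt_of_le_of_lt natDegree_mul_le
        rw [natDegree_X]
        omega
      · apply lt_of_le_of_lt (natDegree_C_mul_le _ _)
        apply lt_of_le_of_lt (natDegree_add_le _ _)
        apply max_lt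
        · rw [natDegree_X_pow]
          omega
        · omega
    · rw [dickson_add_two, e2, e1]
      ring

lemma dk_mod (p : ℕ) : ∀ n : ℕ, dickson 1 (0 : ZMod p) (n + 1) = X ^ (n + 1) := by
  intro n
  induction n with
  | zero => simp
  | succ n ih =>
    rw [dickson_add_two, ih, C_0]
    ring

lemma dk_coeff_zero (p : ℕ) : ∀ n : ℕ, (p : ℤ) ^ 2 ∣ (dickson 1 (p : ℤ) (n + 3)).coeff 0 := by
  have hs : ∀ n : ℕ, (dickson 1 (p : ℤ) (n + 2)).coeff 0 = - (p * (dickson 1 (p : ℤ) n).coeff 0) := by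
    intro n
    rw [dickson_add_two, coeff_sub, coeff_C_mul, mul_coeff_zero, coeff_X_zero]
    ring
  intro n
  induction n using Nat.twoStepInduction with
  | zero =>
    rw [show 0 + 3 = 1 + 2 from rfl, hs, dickson_one, coeff_X_zero]
    simp
  | one =>
    rw [show 1 + 3 = (0 + 2) + 2 from rfl, hs, hs, dk_zero]
    refine ⟨2, ?_⟩
    have : (2 : ℤ[X]).coeff 0 = 2 := by
      rw [show (2 : ℤ[X]) = C 2 from rfl, coeff_C_zero]
    rw [this]
    ring
  | more n h1 h2 =>
    rw [show n + 2 + 3 = (n + 3) + 2 from rfl, hs]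
    exact (h1.mul_left _).neg_right

/-- the real Weil polynomial -/
noncomputable def HW (p g : ℕ) (c : ℤ) : ℤ[X] := dickson 1 (p : ℤ) g + (C c * X + C (p : ℤ))

lemma aeval_HW {p g : ℕ} {c : ℤ} {x x' : ℂ} (h : x * x' = p) :
    aeval (x + x') (HW p g c) = x ^ g + x' ^ g + c * (x + x') + p := by
  simp only [HW, map_add, map_mul, aeval_X, aeval_C, dk_eval h]
  simp
  ring

lemma HW_form {p g : ℕ} (hg : 3 ≤ g) (c : ℤ) :
    ∃ r : ℤ[X], r.natDegree < g ∧ HW p g c = X ^ g + r := by
  obtain ⟨k, rfl⟩ : ∃ k, g = k + 1 := ⟨g - 1, by omega⟩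
  obtain ⟨r, hr, e⟩ := dk_deg (p : ℤ) k
  refine ⟨r + (C c * X + C (p : ℤ)), ?_, ?_⟩
  · apply lt_of_le_of_lt (natDegree_add_le _ _)
    apply max_lt hr
    apply lt_of_le_of_lt (natDegree_add_le _ _)
    apply max_lt
    · apply lt_of_le_of_lt (natDegree_C_mul_le _ _)
      rw [natDegree_X]
      omega
    · rw [natDegree_C]
      omega
  · rw [HW, e]
    ring

lemma monic_HW {p g : ℕ} (hg : 3 ≤ g) (c : ℤ) : (HW p g c).Monic := by
  obtain ⟨r, hr, e⟩ := HW_form (p := p) hg c
  rw [e]
  exact monic_X_pow_add (degree_le_natDegree.trans_lt (by exact_mod_cast hr))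

lemma natDegree_HW {p g : ℕ} (hg : 3 ≤ g) (c : ℤ) : (HW p g c).natDegree = g := by
  obtain ⟨r, hr, e⟩ := HW_form (p := p) hg c
  rw [e, natDegree_add_eq_left_of_natDegree_lt, natDegree_X_pow]
  rwa [natDegree_X_pow]

theorem irreducible_HW {p g : ℕ} (hp : p.Prime) (hg : 3 ≤ g) {c : ℤ} (hc : (p : ℤ) ∣ c) :
    Irreducible (HW p g c) := by
  have hpi : Prime (p : ℤ) := Nat.prime_iff_prime_int.1 hp
  have hmon := monic_HW (p := p) hg c
  have hdeg := natDegree_HW (p := p) hg c
  have hP : (Ideal.span {(p : ℤ)}).IsPrime := (Ideal.span_singleton_prime hpi.ne_zero).2 hpi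
  apply irreducible_of_eisenstein_criterion hP
  · rw [hmon.leadingCoeff, Ideal.mem_span_singleton]
    exact hpi.not_dvd_one
  · intro n hn
    rw [Ideal.mem_span_singleton, ← ZMod.intCast_zmod_eq_zero_iff_dvd]
    have h1 : (HW p g c).map (Int.castRingHom (ZMod p)) = X ^ g := by
      obtain ⟨k, rfl⟩ : ∃ k, g = k + 1 := ⟨g - 1, by omega⟩
      have h2 : Int.castRingHom (ZMod p) c = 0 := by
        rw [eq_intCast]
        exact (ZMod.intCast_zmod_eq_zero_iff_dvd c p).2 hc
      have h4 : Int.castRingHom (ZMod p) (p : ℤ) = 0 := by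
        rw [eq_intCast, Int.cast_natCast, CharP.cast_eq_zero]
      rw [HW, Polynomial.map_add, map_dickson, Polynomial.map_add, Polynomial.map_mul, map_C,
        map_C, map_X, h2, h4, dk_mod, C_0]
      ring
    have h3 := congrArg (fun q => coeff q n) h1
    simp only [coeff_map, eq_intCast, coeff_X_pow] at h3
    rw [h3, if_neg]
    intro h
    rw [degree_eq_natDegree hmon.ne_zero, hdeg, h] at hn
    exact lt_irrefl _ hn
  · rw [degree_eq_natDegree hmon.ne_zero, hdeg]
    exact_mod_cast (by omega : 0 < g)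
  · rw [Ideal.span_singleton_pow, Ideal.mem_span_singleton]
    obtain ⟨k, rfl⟩ : ∃ k, g = k + 3 := ⟨g - 3, by omega⟩
    have h1 : (HW p (k + 3) c).coeff 0 = (dickson 1 (p : ℤ) (k + 3)).coeff 0 + p := by
      simp [HW]
    rw [h1]
    intro h
    have h2 := (dvd_add_right (dk_coeff_zero p k)).1 h
    have h3 : (p : ℤ) ^ 2 ∣ (p : ℤ) ^ 1 := by rwa [pow_one]
    have h4 := (pow_dvd_pow_iff hpi.ne_zero hpi.not_isUnit).1 h3
    omega
  · exact hmon.isPrimitive

/-- if all roots have absolute value `√p` then the Weil polynomial is irreducible -/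
theorem irreducible_PW {p g : ℕ} (hp : p.Prime) (hg : 3 ≤ g) {c : ℤ} (hc : (p : ℤ) ∣ c)
    (hnorm : ∀ x : ℂ, aeval x (PW p g c) = 0 → ‖x‖ = Real.sqrt p) :
    Irreducible ((PW p g c).map (Int.castRingHom ℚ)) := by
  have hmon : (PW p g c).Monic := monic_PW hg c
  have hdeg := natDegree_PW (p := p) hg c
  obtain ⟨x, hx⟩ := IsAlgClosed.exists_aeval_eq_zero ℂ (PW p g c) (by
    rw [degree_eq_natDegree hmon.ne_zero, hdeg]
    exact_mod_cast (by omega : 2 * g ≠ 0))
  have hxi : IsIntegral ℚ x := (show IsIntegral ℤ x from ⟨_, hmon, hx⟩).tower_top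
  have hmap : (PW p g c).map (Int.castRingHom ℚ) = (PW p g c).map (algebraMap ℤ ℚ) := rfl
  have hxQ : aeval x ((PW p g c).map (Int.castRingHom ℚ)) = 0 := by
    rw [hmap, aeval_map_algebraMap]
    exact hx
  have hdvd : minpoly ℚ x ∣ (PW p g c).map (Int.castRingHom ℚ) := minpoly.dvd ℚ x hxQ
  have hmonQ : ((PW p g c).map (Int.castRingHom ℚ)).Monic := hmon.map _
  have hdegQ : ((PW p g c).map (Int.castRingHom ℚ)).natDegree = 2 * g := by
    rw [hmon.natDegree_map, hdeg]
  -- the real part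
  have hp0 : (0 : ℝ) < p := by exact_mod_cast hp.pos
  set x' : ℂ := starRingEnd ℂ x with hx'
  have hxx : x * x' = p := by
    rw [hx', Complex.mul_conj, Complex.normSq_eq_norm_sq, hnorm x hx, Real.sq_sqrt hp0.le]
    norm_num
  set β : ℂ := x + x' with hβ
  have hβr : β = ((2 * x.re : ℝ) : ℂ) := by
    rw [hβ, hx', Complex.add_conj]
  have hβH : aeval β (HW p g c) = 0 := by
    rw [hβ, aeval_HW hxx]
    exact rel_of_root hp hg hx hxx
  have hHirr : Irreducible ((HW p g c).map (algebraMap ℤ ℚ)) :=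
    ((monic_HW hg c).irreducible_iff_irreducible_map_fraction_map).1 (irreducible_HW hp hg hc)
  have hHmin : minpoly ℚ β = (HW p g c).map (algebraMap ℤ ℚ) := by
    symm
    apply minpoly.eq_of_irreducible_of_monic hHirr
    · rw [aeval_map_algebraMap]
      exact hβH
    · exact (monic_HW hg c).map _
  have hβi : IsIntegral ℚ β := (show IsIntegral ℤ β from ⟨_, monic_HW hg c, hβH⟩).tower_top
  set K := IntermediateField.adjoin ℚ {x} with hK
  set L := IntermediateField.adjoin ℚ {β} with hL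
  have hfL : Module.finrank ℚ L = g := by
    rw [hL, IntermediateField.adjoin.finrank hβi, hHmin, (monic_HW hg c).natDegree_map,
      natDegree_HW hg c]
  have hfK : Module.finrank ℚ K = (minpoly ℚ x).natDegree := IntermediateField.adjoin.finrank hxi
  have hxK : x ∈ K := IntermediateField.mem_adjoin_simple_self ℚ x
  have hx0 := ne_zero_of_root hp hg hx
  have hLK : L ≤ K := by
    rw [hL, IntermediateField.adjoin_le_iff, Set.singleton_subset_iff]
    have e : x' = p / x := by
      rw [eq_div_iff hx0, mul_comm, hxx]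
    rw [hβ, e]
    exact add_mem hxK (div_mem (natCast_mem K p) hxK)
  have hfd : FiniteDimensional ℚ K := IntermediateField.adjoin.finiteDimensional hxi
  have hge : 2 * g ≤ (minpoly ℚ x).natDegree := by
    have h1 : Module.finrank ℚ L ∣ Module.finrank ℚ K := IntermediateField.finrank_dvd_of_le_right hLK
    rw [hfL, hfK] at h1
    obtain ⟨d, hd⟩ := h1
    have hpos : 0 < (minpoly ℚ x).natDegree := minpoly.natDegree_pos hxi
    have hd0 : d ≠ 0 := by
      rintro rfl
      omega
    have hd1 : d ≠ 1 := by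
      rintro rfl
      rw [mul_one] at hd
      have h2 : L = K := IntermediateField.eq_of_le_of_finrank_eq hLK (by rw [hfL, hfK, hd])
      -- `x` is real
      have h3 : L ≤ (IsScalarTower.toAlgHom ℚ ℝ ℂ).fieldRange := by
        rw [hL, IntermediateField.adjoin_le_iff, Set.singleton_subset_iff]
        exact ⟨2 * x.re, hβr.symm⟩
      have h4 : x ∈ (IsScalarTower.toAlgHom ℚ ℝ ℂ).fieldRange := h3 (by rw [h2]; exact hxK)
      obtain ⟨r, hr⟩ := h4
      have h5 : x = (r : ℂ) := hr.symm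
      have h6 : x' = x := by
        rw [hx', h5]
        exact Complex.conj_ofReal r
      have h7 : β ^ 2 = 4 * (p : ℂ) := by
        rw [hβ, ← hxx, h6]
        ring
      have h8 : minpoly ℚ β ∣ X ^ 2 - C (4 * (p : ℚ)) := by
        apply minpoly.dvd
        rw [map_sub, map_pow, aeval_X, aeval_C, h7]
        simp
      have h9 := natDegree_le_of_dvd h8 (X_pow_sub_C_ne_zero (by norm_num) _)
      rw [natDegree_X_pow_sub_C, hHmin, (monic_HW hg c).natDegree_map, natDegree_HW hg c] at h9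
      omega
    have h10 : 2 ≤ d := by omega
    rw [hd, mul_comm 2 g]
    exact Nat.mul_le_mul_left g h10
  have heq := eq_of_monic_of_dvd_of_natDegree_le (minpoly.monic hxi) hmonQ hdvd (by
    rw [hdegQ]
    exact hge)
  rw [heq]
  exact minpoly.irreducible hxi

end Pool.Agent.Y676.WP
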