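import Pool.Agent.Y676.WP.Core

/-! # p-rank one: non-degeneracy -/

set_option autoImplicit false

namespace Pool.Agent.Y676.WP

open Polynomial

/-- the algebraic numbers -/
abbrev QQ : Type := AlgebraicClosure ℚ

/-- a valuation ring over a prime number (the argument is the one of
`Pool.Agent.TH343.PR.exists_val`) -/
lemma exists_valQ {p : ℕ} (hp : p.Prime) : ∃ B : ValuationSubring QQ, (p : QQ) ∈ B.nonunits := by
  set A : Subring QQ := (Int.castRingHom QQ).range with hA
  have hpA : (p : QQ) ∈ A := ⟨(p : ℤ), by simp⟩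
  set I : Ideal A := Ideal.span {(⟨(p : QQ), hpA⟩ : A)} with hI
  have hItop : I ≠ ⊤ := by
    intro h
    have h1 : (1 : A) ∈ I := by
      rw [h]
      trivial
    rw [hI, Ideal.mem_span_singleton'] at h1
    obtain ⟨⟨a, m, hm⟩, ha⟩ := h1
    have h2 : (a : QQ) * (p : QQ) = 1 := congrArg (fun z : A => (z : QQ)) ha
    have h3 : ((m * p : ℤ) : QQ) = ((1 : ℤ) : QQ) := by
      rw [Int.cast_mul, Int.cast_natCast, Int.cast_one]
      rw [← hm] at h2
      exact h2
    have h4 : m * p = 1 := by exact_mod_cast h3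
    have h5 : (p : ℤ) ∣ 1 := ⟨m, by rw [← h4]; ring⟩
    have h6 : (p : ℤ) = 1 := by
      exact Int.eq_one_of_dvd_one (by positivity) h5
    have h7 : p = 1 := by exact_mod_cast h6
    exact hp.ne_one h7
  obtain ⟨B, _, hB⟩ := Ideal.image_subset_nonunits_valuationSubring I hItop
  refine ⟨B, hB ⟨⟨(p : QQ), hpA⟩, ?_, rfl⟩⟩
  exact Ideal.subset_span rfl

lemma val_le_oneQ (B : ValuationSubring QQ) {z : QQ} (hz : IsIntegral ℤ z) :
    B.valuation z ≤ 1 := by
  have h1 : IsIntegral B z := hz.tower_top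
  obtain ⟨y, hy⟩ := (IsIntegrallyClosed.isIntegral_iff (R := B) (K := QQ)).1 h1
  rw [B.valuation_le_one_iff, ← hy]
  exact y.2

lemma val_int_leQ (B : ValuationSubring QQ) (m : ℤ) : B.valuation (m : QQ) ≤ 1 :=
  val_le_oneQ B (by exact_mod_cast isIntegral_algebraMap (R := ℤ) (A := QQ) (x := m))

lemma val_eq_oneQ {p : ℕ} (B : ValuationSubring QQ) (h : B.valuation (p : QQ) < 1) {m : ℤ}
    (hm : IsCoprime m (p : ℤ)) : B.valuation (m : QQ) = 1 := by
  apply le_antisymm (val_int_leQ B m)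
  obtain ⟨a, b, hab⟩ := hm
  by_contra hcon
  rw [not_le] at hcon
  have h1 : (a : QQ) * m + (b : QQ) * p = 1 := by exact_mod_cast hab
  have h2 : B.valuation ((a : QQ) * m) < 1 := by
    rw [map_mul]
    exact mul_lt_one_of_nonneg_of_lt_one_right (val_int_leQ B a) zero_le hcon
  have h3 : B.valuation ((b : QQ) * p) < 1 := by
    rw [map_mul]
    exact mul_lt_one_of_nonneg_of_lt_one_right (val_int_leQ B b) zero_le h
  have h4 := B.valuation.map_add_lt h2 h3
  rw [h1, map_one] at h4
  exact lt_irrefl _ h4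

lemma sum_lt (B : ValuationSubring QQ) (s : Multiset QQ) (h : ∀ x ∈ s, B.valuation x < 1) :
    B.valuation s.sum < 1 := by
  induction s using Multiset.induction with
  | empty =>
    rw [Multiset.sum_zero, map_zero]
    exact zero_lt_one
  | cons a s ih =>
    rw [Multiset.sum_cons]
    exact B.valuation.map_add_lt (h a (Multiset.mem_cons_self a s))
      (ih (fun x hx => h x (Multiset.mem_cons_of_mem hx)))

/-- some root is a unit -/
lemma exists_unit_root {p : ℕ} (hp : p.Prime) {P : ℤ[X]} {N : ℕ} (hN : 2 ≤ N)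
    (hPm : P.Monic) (hPd : P.natDegree = N) (htop : ¬ (p : ℤ) ∣ P.coeff (N - 1))
    (B : ValuationSubring QQ) (hB : B.valuation (p : QQ) < 1) :
    ∃ r : QQ, aeval r P = 0 ∧ B.valuation r = 1 := by
  set q : QQ[X] := P.map (algebraMap ℤ QQ) with hq
  have hqm : q.Monic := hPm.map _
  have hqd : q.natDegree = N := by rw [hq, hPm.natDegree_map, hPd]
  have hroot : ∀ x ∈ q.roots, aeval x P = 0 := by
    intro x hx
    rw [mem_roots hqm.ne_zero, IsRoot.def, hq, eval_map_algebraMap] at hx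
    exact hx
  by_contra hcon
  push Not at hcon
  have h1 : ∀ x ∈ q.roots, B.valuation x < 1 := by
    intro x hx
    exact lt_of_le_of_ne (val_le_oneQ B ⟨P, hPm, hroot x hx⟩) (hcon x (hroot x hx))
  have h2 := sum_lt B q.roots h1
  have h3 := (IsAlgClosed.splits q).nextCoeff_eq_neg_sum_roots_of_monic hqm
  have h4 : q.nextCoeff = ((P.coeff (N - 1) : ℤ) : QQ) := by
    rw [nextCoeff_of_natDegree_pos (by omega), hqd, hq, coeff_map]
    simp
  have h5 : B.valuation ((P.coeff (N - 1) : ℤ) : QQ) < 1 := by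
    rw [← h4, h3, Valuation.map_neg]
    exact h2
  have h6 : IsCoprime (P.coeff (N - 1)) (p : ℤ) := by
    have hpi : Prime (p : ℤ) := Nat.prime_iff_prime_int.1 hp
    exact ((Irreducible.coprime_iff_not_dvd hpi.irreducible).2 htop).symm
  rw [val_eq_oneQ B hB h6] at h5
  exact lt_irrefl _ h5

/-- there is only one unit root -/
lemma unit_root_unique {p : ℕ} {P : ℤ[X]} {N : ℕ} (hN : 2 ≤ N)
    (hPm : P.Monic) (hPd : P.natDegree = N) (hlow : ∀ i < N - 1, (p : ℤ) ∣ P.coeff i)
    (B : ValuationSubring QQ) (hB : B.valuation (p : QQ) < 1) {r s : QQ}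
    (hr : aeval r P = 0) (hs : aeval s P = 0) (hr1 : B.valuation r = 1)
    (hs1 : B.valuation s = 1) : r = s := by
  set c := P.coeff (N - 1) with hc
  obtain ⟨M, rfl⟩ : ∃ M, N = M + 1 := ⟨N - 1, by omega⟩
  rw [Nat.add_sub_cancel] at hc hlow
  have hPf : ∃ R : ℤ[X], P = X ^ (M + 1) + C c * X ^ M + C (p : ℤ) * R := by
    have h1 : C (p : ℤ) ∣ P - (X ^ (M + 1) + C c * X ^ M) := by
      rw [C_dvd_iff_dvd_coeff]
      intro i
      rw [coeff_sub, coeff_add, coeff_X_pow, coeff_C_mul, coeff_X_pow]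
      rcases lt_trichotomy i M with h | h | h
      · rw [if_neg (by omega), if_neg (by omega), mul_zero, add_zero, sub_zero]
        exact hlow i h
      · rw [if_neg (by omega), if_pos h, h, ← hc]
        simp
      · rcases Nat.lt_or_ge (M + 1) i with h' | h'
        · rw [if_neg (by omega), if_neg (by omega), coeff_eq_zero_of_natDegree_lt (by omega)]
          simp
        · obtain rfl : i = M + 1 := by omega
          have : P.coeff (M + 1) = 1 := by
            rw [← hPd]
            exact hPm.coeff_natDegree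
          rw [if_pos rfl, if_neg (by omega), this]
          simp
    obtain ⟨R, hR⟩ := h1
    exact ⟨R, by rw [← hR]; ring⟩
  obtain ⟨R, hR⟩ := hPf
  have hri : IsIntegral ℤ r := ⟨P, hPm, hr⟩
  have hsi : IsIntegral ℤ s := ⟨P, hPm, hs⟩
  have ev : ∀ z : QQ, aeval z P = z ^ (M + 1) + c * z ^ M + p * aeval z R := by
    intro z
    rw [hR]
    simp only [map_add, map_mul, map_pow, aeval_X, aeval_C]
    simp
  have hrB : r ∈ B := by
    rw [← B.valuation_le_one_iff]
    exact hr1.le
  have hsB : s ∈ B := by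
    rw [← B.valuation_le_one_iff]
    exact hs1.le
  have hlift : ∀ (z : B), ((eval z (R.map (algebraMap ℤ B)) : B) : QQ) = aeval (z : QQ) R := by
    intro z
    rw [eval_map_algebraMap]
    exact (aeval_algebraMap_apply QQ z R).symm
  obtain ⟨k, hk⟩ := sub_dvd_eval_sub (⟨r, hrB⟩ : B) ⟨s, hsB⟩ (R.map (algebraMap ℤ B))
  obtain ⟨S, hS⟩ := sub_dvd_pow_sub_pow (⟨r, hrB⟩ : B) ⟨s, hsB⟩ M
  have hk' : aeval r R - aeval s R = (r - s) * (k : QQ) := by
    have h1 := congrArg (fun z : B => (z : QQ)) hk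
    have h2 : (((eval (⟨r, hrB⟩ : B) (R.map (algebraMap ℤ B)) -
        eval (⟨s, hsB⟩ : B) (R.map (algebraMap ℤ B)) : B)) : QQ) = aeval r R - aeval s R := by
      rw [← hlift ⟨r, hrB⟩, ← hlift ⟨s, hsB⟩]
      rfl
    rw [← h2]
    exact h1
  have hS' : r ^ M - s ^ M = (r - s) * (S : QQ) := by
    have h1 := congrArg (fun z : B => (z : QQ)) hS
    exact h1
  have hvk : B.valuation (k : QQ) ≤ 1 := B.valuation_le_one k
  have hvS : B.valuation (S : QQ) ≤ 1 := B.valuation_le_one S
  have hvR : B.valuation (aeval s R) ≤ 1 := by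
    rw [show s = ((⟨s, hsB⟩ : B) : QQ) from rfl, ← hlift]
    exact B.valuation_le_one _
  have hsc : B.valuation (s + c) < 1 := by
    have h1 : s ^ M * (s + c) = -(p * aeval s R) := by
      have h2 := ev s
      rw [hs] at h2
      linear_combination -h2
    have h2 : B.valuation (s ^ M * (s + c)) < 1 := by
      rw [h1, Valuation.map_neg, map_mul]
      exact mul_lt_one_of_lt_of_le hB hvR
    rw [map_mul, map_pow, hs1, one_pow, one_mul] at h2
    exact h2
  have hmain : (r - s) * (r ^ M + ((s + c) * S + p * k)) = 0 := by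
    have h1 := ev r
    have h2 := ev s
    rw [hr] at h1
    rw [hs] at h2
    linear_combination h2 - h1 - (s + c) * hS' - p * hk'
  have hb : B.valuation (r ^ M + ((s + c) * S + p * k)) = 1 := by
    have h1 : B.valuation ((s + c) * S + p * k) < 1 := by
      apply B.valuation.map_add_lt
      · rw [map_mul]
        exact mul_lt_one_of_lt_of_le hsc hvS
      · rw [map_mul]
        exact mul_lt_one_of_lt_of_le hB hvk
    have h2 : B.valuation (r ^ M) = 1 := by rw [map_pow, hr1, one_pow]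
    rw [Valuation.map_add_eq_of_lt_left _ (by rw [h2]; exact h1), h2]
  rcases mul_eq_zero.1 hmain with h | h
  · exact sub_eq_zero.1 h
  · rw [h, map_zero] at hb
    exact absurd hb zero_ne_one

/-- a Weil polynomial with exactly one unit root is non-degenerate -/
theorem nondeg_unitQ {p : ℕ} (hp : p.Prime) {P : ℤ[X]} {N : ℕ} (hN : 2 ≤ N)
    (hPm : P.Monic) (hPd : P.natDegree = N) (hirr : Irreducible (P.map (Int.castRingHom ℚ)))
    (hlow : ∀ i < N - 1, (p : ℤ) ∣ P.coeff i) (htop : ¬ (p : ℤ) ∣ P.coeff (N - 1))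
    (x y : QQ) (hx : aeval x P = 0) (hy : aeval y P = 0) (n : ℕ) (hn : 1 ≤ n)
    (hxy : x ^ n = y ^ n) : x = y := by
  obtain ⟨B, hB0⟩ := exists_valQ hp
  have hB : B.valuation (p : QQ) < 1 := (ValuationSubring.mem_nonunits_iff B).1 hB0
  obtain ⟨r, hr, hr1⟩ := exists_unit_root hp hN hPm hPd htop B hB
  -- an automorphism which takes `x` to `r`
  have hm : (P.map (algebraMap ℤ ℚ)).Monic := hPm.map _
  have hx' : aeval x (P.map (algebraMap ℤ ℚ)) = 0 := by
    rw [aeval_map_algebraMap]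
    exact hx
  have hr' : aeval r (P.map (algebraMap ℤ ℚ)) = 0 := by
    rw [aeval_map_algebraMap]
    exact hr
  have hirr' : Irreducible (P.map (algebraMap ℤ ℚ)) := hirr
  have h1 := minpoly.eq_of_irreducible_of_monic hirr' hx' hm
  have h2 := minpoly.eq_of_irreducible_of_monic hirr' hr' hm
  have hnor : Normal ℚ QQ := by
    have : Algebra.IsAlgebraic ℚ QQ := AlgebraicClosure.isAlgebraic ℚ
    exact normal_iff.2 (fun x => ⟨Algebra.IsIntegral.isIntegral x, IsAlgClosed.splits _⟩)
  have h3 : IsConjRoot ℚ r x := by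
    show minpoly ℚ r = minpoly ℚ x
    rw [← h1, ← h2]
  obtain ⟨σ, hσ⟩ := isConjRoot_iff_exists_algEquiv.1 h3
  have hσy : aeval (σ y) P = 0 := by
    rw [aeval_def]
    have h4 := hom_eval₂ P (algebraMap ℤ QQ) (σ : QQ →+* QQ) y
    have e : (σ : QQ →+* QQ).comp (algebraMap ℤ QQ) = algebraMap ℤ QQ := RingHom.ext_int _ _
    rw [e] at h4
    have h5 : eval₂ (algebraMap ℤ QQ) y P = 0 := hy
    rw [h5, map_zero] at h4
    exact h4.symm
  have hpow : (σ y) ^ n = r ^ n := by
    rw [← map_pow, ← hxy, map_pow, hσ]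
  have hσ1 : B.valuation (σ y) = 1 := by
    have h4 : B.valuation (σ y) ^ n = 1 := by
      rw [← map_pow, hpow, map_pow, hr1, one_pow]
    exact (pow_eq_one_iff_of_nonneg zero_le (by omega)).1 h4
  have h5 := unit_root_unique hN hPm hPd hlow B hB hr hσy hr1 hσ1
  apply σ.injective
  rw [hσ, h5]

/-- non-degeneracy over the complex numbers (the argument is the one of
`Pool.Agent.TH343.PR.nondeg_complex`) -/
lemma nondeg_complexQ {P : ℤ[X]} (hm : P.Monic)
    (h : ∀ x y : QQ, aeval x P = 0 → aeval y P = 0 → ∀ n : ℕ, 1 ≤ n → x ^ n = y ^ n → x = y)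
    (x y : ℂ) (hx : aeval x P = 0) (hy : aeval y P = 0) (n : ℕ) (hn : 1 ≤ n)
    (hxy : x ^ n = y ^ n) : x = y := by
  have hxz : IsIntegral ℤ x := ⟨P, hm, hx⟩
  have hyz : IsIntegral ℤ y := ⟨P, hm, hy⟩
  have hxi : IsIntegral ℚ x := hxz.tower_top
  have hyi : IsIntegral ℚ y := hyz.tower_top
  set L := algebraicClosure ℚ ℂ with hL
  have hLalg : Algebra.IsAlgebraic ℚ L := algebraicClosure.isAlgebraic ℚ ℂ
  have hxL : x ∈ L := mem_algebraicClosure_iff'.2 hxi
  have hyL : y ∈ L := mem_algebraicClosure_iff'.2 hyi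
  have φ : L →ₐ[ℚ] QQ := IsAlgClosed.lift
  have hφ : ∀ z : L, aeval (z : ℂ) P = 0 → aeval (φ z) P = 0 := by
    intro z hz
    have h1 : aeval z P = 0 := by
      apply (algebraMap L ℂ).injective
      rw [map_zero, ← aeval_algebraMap_apply]
      exact hz
    rw [aeval_def] at h1 ⊢
    have h2 := hom_eval₂ P (algebraMap ℤ L) (φ : L →+* QQ) z
    have e : (φ : L →+* QQ).comp (algebraMap ℤ L) = algebraMap ℤ QQ := RingHom.ext_int _ _
    rw [e, h1, map_zero] at h2
    exact h2.symm
  have h1 := h (φ ⟨x, hxL⟩) (φ ⟨y, hyL⟩) (hφ _ hx) (hφ _ hy) n hn (by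
    rw [← map_pow, ← map_pow]
    congr 1
    apply Subtype.ext
    push_cast
    exact hxy)
  have h2 := φ.injective h1
  exact congrArg Subtype.val h2

end Pool.Agent.Y676.WP
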