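import Pool.Agent.Y676.WP.OneIrred
import Pool.Agent.Y676.WP.OneNondeg
import Pool.Agent.TH343.PR.Weil

/-! # p-rank one -/

set_option autoImplicit false

namespace Pool.Agent.Y676.WP

open Polynomial

/-- `X^(2g) + X^(2g-1) + p^(g-1) X + p u X^g + p^g` -/
noncomputable def PO (p g : ℕ) (u : ℤ) : ℤ[X] :=
  X ^ (2 * g) + (X ^ (2 * g - 1) + (C ((p : ℤ) ^ (g - 1)) * X + C ((p : ℤ) * u) * X ^ g
    + C ((p : ℤ) ^ g)))

/-- the real Weil polynomial -/
noncomputable def HO (p g : ℕ) (u : ℤ) : ℤ[X] :=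
  dickson 1 (p : ℤ) g + (dickson 1 (p : ℤ) (g - 1) + C ((p : ℤ) * u))

lemma aeval_HO {p g : ℕ} {u : ℤ} {x x' : ℂ} (h : x * x' = p) :
    aeval (x + x') (HO p g u) = x ^ g + x' ^ g + (x ^ (g - 1) + x' ^ (g - 1)) + p * u := by
  simp only [HO, map_add, aeval_C, dk_eval h]
  simp
  ring

lemma aeval_PO {p g : ℕ} (hg : 1 ≤ g) {u : ℤ} {x x' : ℂ} (h : x * x' = p) :
    aeval x (PO p g u) = x ^ g * aeval (x + x') (HO p g u) := by
  rw [aeval_HO h]
  obtain ⟨k, rfl⟩ : ∃ k, g = k + 1 := ⟨g - 1, by omega⟩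
  have e1 : 2 * (k + 1) - 1 = 2 * k + 1 := by omega
  simp only [PO, map_add, map_mul, map_pow, aeval_X, eq_intCast, map_intCast,
    Nat.add_sub_cancel, map_natCast, e1]
  rw [← h]
  ring

lemma natDegree_auxO (p g : ℕ) (hg : 3 ≤ g) (u : ℤ) :
    (X ^ (2 * g - 1) + (C ((p : ℤ) ^ (g - 1)) * X + C ((p : ℤ) * u) * X ^ g
    + C ((p : ℤ) ^ g))).natDegree < 2 * g := by
  have h1 : (X ^ (2 * g - 1) + (C ((p : ℤ) ^ (g - 1)) * X + C ((p : ℤ) * u) * X ^ g
    + C ((p : ℤ) ^ g))).natDegree ≤ 2 * g - 1 := by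
    apply natDegree_add_le_of_degree_le
    · exact (natDegree_X_pow _).le
    · apply natDegree_add_le_of_degree_le
      · apply natDegree_add_le_of_degree_le
        · apply (natDegree_C_mul_le _ _).trans
          rw [natDegree_X]
          omega
        · exact (natDegree_C_mul_X_pow_le _ _).trans (by omega)
      · rw [natDegree_C]
        omega
  omega

lemma natDegree_PO {p g : ℕ} (hg : 3 ≤ g) (u : ℤ) : (PO p g u).natDegree = 2 * g := by
  unfold PO
  rw [natDegree_add_eq_left_of_natDegree_lt, natDegree_X_pow]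
  rw [natDegree_X_pow]
  exact natDegree_auxO p g hg u

lemma monic_PO {p g : ℕ} (hg : 3 ≤ g) (u : ℤ) : (PO p g u).Monic :=
  monic_X_pow_add (degree_le_natDegree.trans_lt (by exact_mod_cast natDegree_auxO p g hg u))

lemma HO_form {p g : ℕ} (hg : 3 ≤ g) (u : ℤ) :
    ∃ r : ℤ[X], r.natDegree < g ∧ HO p g u = X ^ g + r := by
  obtain ⟨k, rfl⟩ : ∃ k, g = k + 2 := ⟨g - 2, by omega⟩
  obtain ⟨r, hr, e1⟩ := dk_deg (p : ℤ) (k + 1)
  obtain ⟨r', hr', e2⟩ := dk_deg (p : ℤ) k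
  refine ⟨r + ((X ^ (k + 1) + r') + C ((p : ℤ) * u)), ?_, ?_⟩
  · apply lt_of_le_of_lt (natDegree_add_le _ _)
    apply max_lt hr
    apply lt_of_le_of_lt (natDegree_add_le _ _)
    apply max_lt
    · apply lt_of_le_of_lt (natDegree_add_le _ _)
      apply max_lt
      · rw [natDegree_X_pow]
        omega
      · omega
    · rw [natDegree_C]
      omega
  · rw [HO, show k + 2 - 1 = k + 1 from rfl, e2]
    rw [show dickson 1 (p : ℤ) (k + 2) = dickson 1 (p : ℤ) (k + 1 + 1) from rfl, e1]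
    ring

lemma monic_HO {p g : ℕ} (hg : 3 ≤ g) (u : ℤ) : (HO p g u).Monic := by
  obtain ⟨r, hr, e⟩ := HO_form (p := p) hg u
  rw [e]
  exact monic_X_pow_add (degree_le_natDegree.trans_lt (by exact_mod_cast hr))

lemma natDegree_HO {p g : ℕ} (hg : 3 ≤ g) (u : ℤ) : (HO p g u).natDegree = g := by
  obtain ⟨r, hr, e⟩ := HO_form (p := p) hg u
  rw [e, natDegree_add_eq_left_of_natDegree_lt, natDegree_X_pow]
  rwa [natDegree_X_pow]

lemma HO_mod {p g : ℕ} (hg : 3 ≤ g) (u : ℤ) :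
    (HO p g u).map (Int.castRingHom (ZMod p)) = X ^ (g - 1) * (X + 1) := by
  obtain ⟨k, rfl⟩ : ∃ k, g = k + 2 := ⟨g - 2, by omega⟩
  have h2 : Int.castRingHom (ZMod p) ((p : ℤ) * u) = 0 := by
    rw [eq_intCast, ZMod.intCast_zmod_eq_zero_iff_dvd]
    exact dvd_mul_right _ _
  have h4 : Int.castRingHom (ZMod p) (p : ℤ) = 0 := by
    rw [eq_intCast, Int.cast_natCast, CharP.cast_eq_zero]
  have e1 : dickson 1 (0 : ZMod p) (k + 2) = X ^ (k + 2) := dk_mod p (k + 1)
  have e2 : dickson 1 (0 : ZMod p) (k + 1) = X ^ (k + 1) := dk_mod p k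
  rw [HO, show k + 2 - 1 = k + 1 from rfl, Polynomial.map_add, Polynomial.map_add, map_dickson,
    map_dickson, map_C, h2, h4, C_0, e1, e2]
  ring

/-- an integer zero is small -/
lemma root_small {p g : ℕ} (hp : p.Prime) {P h : ℤ[X]}
    (hrel : ∀ x x' : ℂ, x * x' = p → aeval x P = x ^ g * aeval (x + x') h)
    (hnorm : ∀ x : ℂ, aeval x P = 0 → ‖x‖ = Real.sqrt p) {n : ℤ} (hn : h.eval n = 0) :
    n ^ 2 ≤ 4 * p := by
  have hp0 : (0 : ℝ) < p := by exact_mod_cast hp.pos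
  obtain ⟨x, hx⟩ := IsAlgClosed.exists_root ((X : ℂ[X]) ^ 2 - C (n : ℂ) * X + C (p : ℂ)) (by
    have : (X : ℂ[X]) ^ 2 - C (n : ℂ) * X + C (p : ℂ) =
      C 1 * X ^ 2 + C (-(n : ℂ)) * X + C (p : ℂ) := by
      rw [C_1, C_neg]
      ring
    rw [this, degree_quadratic one_ne_zero]
    norm_num)
  rw [IsRoot.def] at hx
  simp at hx
  have h1 : x * (n - x) = p := by linear_combination -hx
  have h2 : aeval x P = 0 := by
    rw [hrel x (n - x) h1]
    have : x + (n - x) = ((n : ℤ) : ℂ) := by ring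
    rw [this]
    have h3 : aeval ((n : ℤ) : ℂ) h = ((h.eval n : ℤ) : ℂ) := by
      have := aeval_algebraMap_apply ℂ n h
      simpa using this
    rw [h3, hn]
    simp
  have h3 := hnorm x h2
  have h4 : (n : ℂ) * x = x ^ 2 + p := by linear_combination -hx
  have h5 : |(n : ℝ)| * Real.sqrt p ≤ 2 * p := by
    have h6 : ‖(n : ℂ) * x‖ = |(n : ℝ)| * Real.sqrt p := by
      rw [norm_mul, h3, Complex.norm_intCast]
    rw [← h6, h4]
    refine (norm_add_le _ _).trans ?_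
    rw [norm_pow, h3, Real.sq_sqrt hp0.le, Complex.norm_natCast]
    linarith
  have h7 : |(n : ℝ)| ≤ 2 * Real.sqrt p := by
    have h8 : 0 < Real.sqrt p := Real.sqrt_pos.2 hp0
    have h9 : Real.sqrt p * Real.sqrt p = p := Real.mul_self_sqrt hp0.le
    by_contra hcon
    rw [not_le] at hcon
    nlinarith
  have h8 : (n : ℝ) ^ 2 ≤ 4 * p := by
    have h9 : (Real.sqrt p) ^ 2 = p := Real.sq_sqrt hp0.le
    have h10 : (n : ℝ) ^ 2 = |(n : ℝ)| ^ 2 := (sq_abs _).symm
    rw [h10]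
    have h11 : 0 ≤ |(n : ℝ)| := abs_nonneg _
    nlinarith
  exact_mod_cast h8

/-- the values at integers -/
noncomputable def dv (p : ℕ) (n : ℤ) (k : ℕ) : ℤ := (dickson 1 (p : ℤ) k).eval n

lemma dv_rec (p : ℕ) (n : ℤ) (k : ℕ) : dv p n (k + 2) = n * dv p n (k + 1) - p * dv p n k := by
  unfold dv
  rw [dickson_add_two, eval_sub, eval_mul, eval_mul, eval_X, eval_C]

lemma dv_zero (p : ℕ) (n : ℤ) : dv p n 0 = 2 := by
  unfold dv
  rw [dk_zero]
  simp

lemma dv_one (p : ℕ) (n : ℤ) : dv p n 1 = n := by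
  unfold dv
  rw [dickson_one, eval_X]

lemma eval_HO {p k : ℕ} {u n : ℤ} :
    (HO p (k + 2) u).eval n = (n + 1) * dv p n (k + 1) - p * dv p n k + p * u := by
  rw [HO, eval_add, eval_add, eval_C, show k + 2 - 1 = k + 1 from rfl]
  have h := dv_rec p n k
  unfold dv at h ⊢
  rw [h]
  ring

lemma even_diff {p : ℕ} (hp : p.Prime) (h5 : p ≤ 5) (k : ℕ) :
    Even (dv p ((p : ℤ) - 1) (k + 2) - dv p ((p : ℤ) - 1) (k + 1)) := by
  have h2 := hp.two_le
  obtain rfl | rfl | rfl : p = 2 ∨ p = 3 ∨ p = 5 := by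
    have h4 : p ≠ 4 := by
      rintro rfl
      exact absurd hp (by norm_num)
    omega
  · -- all values are odd
    have hodd : ∀ k : ℕ, Odd (dv 2 (((2 : ℕ) : ℤ) - 1) (k + 1)) := by
      intro k
      induction k with
      | zero =>
        rw [dv_one]
        norm_num
      | succ k ih =>
        rw [dv_rec]
        have e : (((2 : ℕ) : ℤ) - 1) = 1 := by norm_num
        rw [e] at ih ⊢
        rw [one_mul]
        apply Odd.sub_even ih
        exact ⟨dv 2 1 k, by push_cast; ring⟩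
    exact (hodd (k + 1)).sub_odd (hodd k)
  · have hev : ∀ k : ℕ, Even (dv 3 (((3 : ℕ) : ℤ) - 1) k) := by
      intro k
      induction k using Nat.twoStepInduction with
      | zero =>
        rw [dv_zero]
        norm_num
      | one =>
        rw [dv_one]
        norm_num
      | more k h1 h2 =>
        rw [dv_rec]
        exact (h2.mul_left _).sub (h1.mul_left _)
    exact (hev _).sub (hev _)
  · have hev : ∀ k : ℕ, Even (dv 5 (((5 : ℕ) : ℤ) - 1) k) := by
      intro k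
      induction k using Nat.twoStepInduction with
      | zero =>
        rw [dv_zero]
        norm_num
      | one =>
        rw [dv_one]
        exact ⟨2, by norm_num⟩
      | more k h1 h2 =>
        rw [dv_rec]
        exact (h2.mul_left _).sub (h1.mul_left _)
    exact (hev _).sub (hev _)

/-- no integer zeros -/
lemma no_root {p k : ℕ} (hp : p.Prime) {u : ℤ} (hk : 1 ≤ k) (hu : Odd u)
    (hu1 : u ≠ dv p (-1) k)
    (hsm : ∀ n : ℤ, (HO p (k + 2) u).eval n = 0 → n ^ 2 ≤ 4 * p) (n : ℤ) (hn : (p : ℤ) ∣ n + 1) :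
    (HO p (k + 2) u).eval n ≠ 0 := by
  intro h0
  have h1 := hsm n h0
  obtain ⟨m, hm⟩ := hn
  have hn' : n = p * m - 1 := by linarith
  have hp2 : (2 : ℤ) ≤ p := by exact_mod_cast hp.two_le
  have hm01 : m = 0 ∨ (m = 1 ∧ (p : ℤ) ≤ 5) := by
    rw [hn'] at h1
    rcases lt_trichotomy m 0 with h | h | h
    · exfalso
      have a1 : (p : ℤ) * m ≤ -p := by nlinarith
      have a2 : (p + 1 : ℤ) ^ 2 ≤ (1 - p * m) ^ 2 :=
        pow_le_pow_left₀ (by linarith) (by linarith) 2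
      nlinarith
    · exact Or.inl h
    · right
      have hm1 : m = 1 := by
        by_contra hne
        have h2m : 2 ≤ m := by omega
        have a1 : 2 * (p : ℤ) ≤ p * m := by nlinarith
        have a2 : (2 * p - 1 : ℤ) ^ 2 ≤ (p * m - 1) ^ 2 :=
          pow_le_pow_left₀ (by linarith) (by linarith) 2
        nlinarith
      subst hm1
      refine ⟨rfl, ?_⟩
      by_contra hcon
      rw [not_le] at hcon
      nlinarith
  rw [eval_HO] at h0
  have hp0 : (p : ℤ) ≠ 0 := by linarith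
  rcases hm01 with h | ⟨h, hp5⟩
  · rw [h, mul_zero, zero_sub] at hn'
    rw [hn'] at h0
    have : (p : ℤ) * (u - dv p (-1) k) = 0 := by linear_combination h0
    rcases mul_eq_zero.1 this with h' | h'
    · exact hp0 h'
    · exact hu1 (by linarith)
  · rw [h, mul_one] at hn'
    rw [hn'] at h0
    obtain ⟨j, rfl⟩ : ∃ j, k = j + 1 := ⟨k - 1, by omega⟩
    have : (p : ℤ) * ((dv p ((p : ℤ) - 1) (j + 2) - dv p ((p : ℤ) - 1) (j + 1)) + u) = 0 := by
      linear_combination h0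
    rcases mul_eq_zero.1 this with h' | h'
    · exact hp0 h'
    · have he := even_diff hp (by exact_mod_cast hp5) j
      have := he.add_odd hu
      rw [h'] at this
      exact absurd this (by decide)

/-- the absolute values of the roots -/
theorem norm_smallO {p g : ℕ} (hp : p.Prime) (hg : 3 ≤ g) {u : ℤ} (hu : |u| = 1)
    (hsm : ∀ r : ℝ, 0 ≤ r → r ^ 2 ≤ 1 / p → 2 * r + p * r ^ g < 2) (x : ℂ)
    (hx : aeval x (PO p g u) = 0) : ‖x‖ = Real.sqrt p := by
  have hp0 : (0 : ℝ) < p := by exact_mod_cast hp.pos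
  have hpc : (p : ℂ) ≠ 0 := by exact_mod_cast hp.ne_zero
  have hx0 : x ≠ 0 := by
    rintro rfl
    have h1 : aeval (0 : ℂ) (PO p g u) = (p : ℂ) ^ g := by
      obtain ⟨k, rfl⟩ : ∃ k, g = k + 3 := ⟨g - 3, by omega⟩
      have e : 2 * (k + 3) - 1 = 2 * k + 5 := by omega
      simp [PO, e]
    rw [h1] at hx
    exact pow_ne_zero g hpc hx
  set A : ℤ[X] := C 2 + C 2 * X + C ((p : ℤ) * u) * X ^ g with hA
  have hAe : ∀ z : ℂ, aeval z A = 2 + 2 * z + (p * u) * z ^ g := by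
    intro z
    rw [hA]
    simp only [map_add, map_mul, aeval_C, map_pow, aeval_X]
    simp
  have hAd : A.natDegree ≤ g := by
    rw [hA]
    apply natDegree_add_le_of_degree_le
    · apply natDegree_add_le_of_degree_le
      · rw [natDegree_C]
        omega
      · apply (natDegree_C_mul_le _ _).trans
        rw [natDegree_X]
        omega
    · exact natDegree_C_mul_X_pow_le _ _
  have hne : ∀ z : ℂ, ‖z‖ ^ 2 ≤ 1 / p → aeval z A ≠ 0 := by
    intro z hz h0
    rw [hAe] at h0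
    have h1 := hsm ‖z‖ (norm_nonneg z) hz
    have h2 : (2 : ℂ) = -(2 * z + (p * u) * z ^ g) := by linear_combination h0
    have h3 : ‖(2 : ℂ)‖ ≤ 2 * ‖z‖ + p * ‖z‖ ^ g := by
      rw [h2, norm_neg]
      refine (norm_add_le _ _).trans ?_
      have hu' : ‖(u : ℂ)‖ = 1 := by
        rw [Complex.norm_intCast, ← Int.cast_abs, hu, Int.cast_one]
      rw [norm_mul, norm_mul, norm_mul, norm_pow, hu']
      simp
    have h4 : ‖(2 : ℂ)‖ = 2 := by simp
    rw [h4] at h3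
    linarith
  have hrel : x ^ (2 * g) * aeval (1 / x) A + ((p : ℝ) : ℂ) ^ g * aeval (x / ((p : ℝ) : ℂ)) A = 0 := by
    have h1 : x ^ (2 * g) * aeval (1 / x) A + ((p : ℝ) : ℂ) ^ g * aeval (x / ((p : ℝ) : ℂ)) A
        = 2 * aeval x (PO p g u) := by
      have hPe : aeval x (PO p g u) = x ^ (2 * g) + (x ^ (2 * g - 1) + ((p : ℂ) ^ (g - 1) * x
          + (p * u) * x ^ g + (p : ℂ) ^ g)) := by
        simp [PO]
      rw [hAe, hAe, hPe]
      obtain ⟨k, rfl⟩ : ∃ k, g = k + 1 := ⟨g - 1, by omega⟩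
      have e0 : 2 * (k + 1) - 1 = 2 * k + 1 := by omega
      simp only [Nat.add_sub_cancel, Complex.ofReal_natCast, e0]
      have e2 : (1 / x) * x = 1 := by
        rw [one_div, inv_mul_cancel₀ hx0]
      have e4 : (x / (p : ℂ)) * p = x := div_mul_cancel₀ _ hpc
      generalize (1 / x) = w at *
      generalize (x / (p : ℂ)) = t at *
      have f1 : w ^ (k + 1) * x ^ (k + 1) = 1 := by
        rw [← mul_pow, e2, one_pow]
      have f3 : t ^ (k + 1) * (p : ℂ) ^ (k + 1) = x ^ (k + 1) := by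
        rw [← mul_pow, e4]
      have g2 : x ^ (2 * (k + 1)) = x ^ (k + 1) * x ^ (k + 1) := by
        rw [← pow_add]
        congr 1
        omega
      have g3 : x ^ (2 * (k + 1)) = x ^ (2 * k + 1) * x := by
        rw [show 2 * (k + 1) = 2 * k + 1 + 1 by ring, pow_succ]
      have a1 : x ^ (2 * (k + 1)) * w = x ^ (2 * k + 1) := by
        rw [g3]
        linear_combination x ^ (2 * k + 1) * e2
      have a2 : x ^ (2 * (k + 1)) * w ^ (k + 1) = x ^ (k + 1) := by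
        rw [g2]
        linear_combination x ^ (k + 1) * f1
      have a3 : (p : ℂ) ^ (k + 1) * t = p ^ k * x := by
        rw [pow_succ]
        linear_combination (p : ℂ) ^ k * e4
      linear_combination 2 * a1 + (p : ℂ) * u * a2 + 2 * a3 + (p : ℂ) * u * f3
    rw [h1, hx, mul_zero]
  have hw := Pool.Agent.TH343.PR.weil A g (by omega) hAd p hp0 hne x hx0 hrel
  rw [← hw, Real.sqrt_sq (norm_nonneg x)]

lemma smallO {p g : ℕ} (hp : p.Prime) (hg : 4 ≤ g ∨ (3 ≤ g ∧ 3 ≤ p)) (r : ℝ) (hr : 0 ≤ r)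
    (hr2 : r ^ 2 ≤ 1 / p) : 2 * r + p * r ^ g < 2 := by
  have hp2 : (2 : ℝ) ≤ p := by exact_mod_cast hp.two_le
  have hp0 : (0 : ℝ) < p := by linarith
  have hpr : p * r ^ 2 ≤ 1 := by
    rw [le_div_iff₀ hp0] at hr2
    linarith
  have hr1 : r ≤ 1 := by nlinarith
  rcases hg with hg | ⟨hg, hp3⟩
  · have h6 : r ^ g ≤ r ^ 4 := pow_le_pow_of_le_one hr hr1 hg
    have hr3 : r ^ 2 ≤ 1 / 2 := by nlinarith [sq_nonneg r]
    have hr4 : r ≤ 71 / 100 := by nlinarith
    have h8 : (p : ℝ) * r ^ 4 ≤ r ^ 2 := by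
      have : (p : ℝ) * r ^ 4 = (p * r ^ 2) * r ^ 2 := by ring
      rw [this]
      nlinarith [sq_nonneg r]
    have h11 : (p : ℝ) * r ^ g ≤ p * r ^ 4 := by nlinarith
    linarith
  · have hp3' : (3 : ℝ) ≤ p := by exact_mod_cast hp3
    have h6 : r ^ g ≤ r ^ 3 := pow_le_pow_of_le_one hr hr1 hg
    have hr3 : r ^ 2 ≤ 1 / 3 := by nlinarith [sq_nonneg r]
    have hr4 : r ≤ 6 / 10 := by nlinarith
    have h8 : (p : ℝ) * r ^ 3 ≤ r := by
      have : (p : ℝ) * r ^ 3 = (p * r ^ 2) * r := by ring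
      rw [this]
      nlinarith
    have h11 : (p : ℝ) * r ^ g ≤ p * r ^ 3 := by nlinarith
    linarith

/-- all properties from the real Weil polynomial -/
theorem assembleO {p g : ℕ} (hp : p.Prime) (hg : 3 ≤ g) {P h : ℤ[X]} (hPm : P.Monic)
    (hPd : P.natDegree = 2 * g) (hhm : h.Monic) (hhd : h.natDegree = g)
    (hmod : h.map (Int.castRingHom (ZMod p)) = X ^ (g - 1) * (X + 1))
    (h0 : ¬ (p : ℤ) ^ 2 ∣ h.coeff 0)
    (hroot : ∀ n : ℤ, (p : ℤ) ∣ n + 1 → h.eval n ≠ 0)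
    (hrel : ∀ x x' : ℂ, x * x' = p → aeval x P = x ^ g * aeval (x + x') h)
    (hnorm : ∀ x : ℂ, aeval x P = 0 → ‖x‖ = Real.sqrt p)
    (hlow : ∀ i < 2 * g - 1, (p : ℤ) ∣ P.coeff i) (htop : ¬ (p : ℤ) ∣ P.coeff (2 * g - 1)) :
    ∃ P : ℤ[X], P.Monic ∧ P.natDegree = 2 * g ∧ Irreducible (P.map (Int.castRingHom ℚ)) ∧
      (∀ x : ℂ, aeval x P = 0 → ‖x‖ = Real.sqrt p) ∧
      (∀ i < 2 * g - 1, (p : ℤ) ∣ P.coeff i) ∧ ¬ (p : ℤ) ∣ P.coeff (2 * g - 1) ∧
      (∀ x : ℂ, aeval x P = 0 → ∀ n : ℕ, 1 ≤ n →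
        IntermediateField.adjoin ℚ {x ^ n} = IntermediateField.adjoin ℚ {x}) := by
  have hh := irreducible_of_linear hp (by omega) hhm hhd hmod h0 hroot
  have hirr := irreducible_of_real hp hg hPm hPd hhm hhd hh hrel hnorm
  refine ⟨P, hPm, hPd, hirr, hnorm, hlow, htop, ?_⟩
  intro x hx n hn
  exact adjoin_pow_eq hPm (nondeg_complexQ hPm
    (nondeg_unitQ hp (by omega) hPm hPd hirr hlow htop)) hx hn

end Pool.Agent.Y676.WP
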