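import Pool.Agent.Y676.WP.Small

/-! # A larger family of polynomials, for the two remaining pairs `(3, 3)` and `(4, 5)` -/

set_option autoImplicit false

namespace Pool.Agent.Y676.WP

open Polynomial

/-- `X^(2g) + d (X^(g+2) + p² X^(g-2)) + c (X^(g+1) + p X^(g-1)) + e X^g + p^g` -/
noncomputable def PG (p g : ℕ) (d c e : ℤ) : ℤ[X] :=
  X ^ (2 * g) + (C d * (X ^ (g + 2) + C ((p : ℤ) ^ 2) * X ^ (g - 2)) +
    C c * (X ^ (g + 1) + C (p : ℤ) * X ^ (g - 1)) + C e * X ^ g + C ((p : ℤ) ^ g))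

lemma aeval_PG {p g : ℕ} (hg : 2 ≤ g) {d c e : ℤ} {x x' : ℂ} (h : x * x' = p) :
    aeval x (PG p g d c e) =
      x ^ g * (x ^ g + x' ^ g + d * (x ^ 2 + x' ^ 2) + c * (x + x') + e) := by
  obtain ⟨k, rfl⟩ : ∃ k, g = k + 2 := ⟨g - 2, by omega⟩
  have e1 : k + 2 - 1 = k + 1 := by omega
  simp only [PG, map_add, map_mul, map_pow, aeval_X, eq_intCast, map_intCast,
    Nat.add_sub_cancel, map_natCast, e1]
  rw [← h]
  ring

lemma natDegree_auxG (p g : ℕ) (hg : 3 ≤ g) (d c e : ℤ) :
    (C d * (X ^ (g + 2) + C ((p : ℤ) ^ 2) * X ^ (g - 2)) +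
    C c * (X ^ (g + 1) + C (p : ℤ) * X ^ (g - 1)) + C e * X ^ g + C ((p : ℤ) ^ g)).natDegree
      < 2 * g := by
  have h1 : (C d * (X ^ (g + 2) + C ((p : ℤ) ^ 2) * X ^ (g - 2)) +
    C c * (X ^ (g + 1) + C (p : ℤ) * X ^ (g - 1)) + C e * X ^ g + C ((p : ℤ) ^ g)).natDegree
      ≤ g + 2 := by
    apply natDegree_add_le_of_degree_le
    · apply natDegree_add_le_of_degree_le
      · apply natDegree_add_le_of_degree_le
        · apply (natDegree_C_mul_le _ _).trans
          apply natDegree_add_le_of_degree_le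
          · exact (natDegree_X_pow _).le
          · exact (natDegree_C_mul_X_pow_le _ _).trans (by omega)
        · apply (natDegree_C_mul_le _ _).trans
          apply natDegree_add_le_of_degree_le
          · exact (natDegree_X_pow _).le.trans (by omega)
          · exact (natDegree_C_mul_X_pow_le _ _).trans (by omega)
      · exact (natDegree_C_mul_X_pow_le _ _).trans (by omega)
    · rw [natDegree_C]
      omega
  omega

lemma natDegree_PG {p g : ℕ} (hg : 3 ≤ g) (d c e : ℤ) : (PG p g d c e).natDegree = 2 * g := by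
  unfold PG
  rw [natDegree_add_eq_left_of_natDegree_lt, natDegree_X_pow]
  rw [natDegree_X_pow]
  exact natDegree_auxG p g hg d c e

lemma monic_PG {p g : ℕ} (hg : 3 ≤ g) (d c e : ℤ) : (PG p g d c e).Monic :=
  monic_X_pow_add (degree_le_natDegree.trans_lt (by exact_mod_cast natDegree_auxG p g hg d c e))

lemma ne_zero_of_rootG {p g : ℕ} (hp : p.Prime) (hg : 3 ≤ g) {d c e : ℤ} {x : ℂ}
    (hx : aeval x (PG p g d c e) = 0) : x ≠ 0 := by
  rintro rfl
  have h1 : aeval (0 : ℂ) (PG p g d c e) = (p : ℂ) ^ g := by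
    obtain ⟨k, rfl⟩ : ∃ k, g = k + 3 := ⟨g - 3, by omega⟩
    have e : k + 3 - 1 = k + 2 := by omega
    have e' : k + 3 - 2 = k + 1 := by omega
    simp [PG, e, e']
  rw [h1] at hx
  exact pow_ne_zero g (by exact_mod_cast hp.ne_zero) hx

lemma rel_of_rootG {p g : ℕ} (hp : p.Prime) (hg : 3 ≤ g) {d c e : ℤ} {x x' : ℂ}
    (hx : aeval x (PG p g d c e) = 0) (h : x * x' = p) :
    x ^ g + x' ^ g + d * (x ^ 2 + x' ^ 2) + c * (x + x') + e = 0 := by
  rw [aeval_PG (by omega) h] at hx
  rcases mul_eq_zero.1 hx with h1 | h1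
  · exact absurd h1 (pow_ne_zero g (ne_zero_of_rootG hp hg (by
      rw [aeval_PG (by omega) h]; exact hx)))
  · exact h1

/-- the real Weil polynomial -/
noncomputable def HG (p g : ℕ) (d c e : ℤ) : ℤ[X] :=
  dickson 1 (p : ℤ) g + (C d * (X ^ 2 - C (2 * (p : ℤ))) + C c * X + C e)

lemma aeval_HG {p g : ℕ} {d c e : ℤ} {x x' : ℂ} (h : x * x' = p) :
    aeval (x + x') (HG p g d c e) =
      x ^ g + x' ^ g + d * (x ^ 2 + x' ^ 2) + c * (x + x') + e := by
  simp only [HG, map_add, map_sub, map_mul, map_pow, aeval_X, aeval_C, dk_eval h]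
  simp
  rw [← h]
  ring

lemma HG_form {p g : ℕ} (hg : 3 ≤ g) (d c e : ℤ) :
    ∃ r : ℤ[X], r.natDegree < g ∧ HG p g d c e = X ^ g + r := by
  obtain ⟨k, rfl⟩ : ∃ k, g = k + 1 := ⟨g - 1, by omega⟩
  obtain ⟨r, hr, e1⟩ := dk_deg (p : ℤ) k
  refine ⟨r + (C d * (X ^ 2 - C (2 * (p : ℤ))) + C c * X + C e), ?_, ?_⟩
  · apply lt_of_le_of_lt (natDegree_add_le _ _)
    apply max_lt hr
    apply lt_of_le_of_lt (natDegree_add_le _ _)
    apply max_lt
    · apply lt_of_le_of_lt (natDegree_add_le _ _)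
      apply max_lt
      · apply lt_of_le_of_lt (natDegree_C_mul_le _ _)
        rw [natDegree_X_pow_sub_C]
        omega
      · apply lt_of_le_of_lt (natDegree_C_mul_le _ _)
        rw [natDegree_X]
        omega
    · rw [natDegree_C]
      omega
  · rw [HG, e1]
    ring

lemma monic_HG {p g : ℕ} (hg : 3 ≤ g) (d c e : ℤ) : (HG p g d c e).Monic := by
  obtain ⟨r, hr, e⟩ := HG_form (p := p) hg d c e
  rw [e]
  exact monic_X_pow_add (degree_le_natDegree.trans_lt (by exact_mod_cast hr))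

lemma natDegree_HG {p g : ℕ} (hg : 3 ≤ g) (d c e : ℤ) : (HG p g d c e).natDegree = g := by
  obtain ⟨r, hr, e⟩ := HG_form (p := p) hg d c e
  rw [e, natDegree_add_eq_left_of_natDegree_lt, natDegree_X_pow]
  rwa [natDegree_X_pow]

theorem irreducible_HG {p g : ℕ} (hp : p.Prime) (hg : 3 ≤ g) {d c e : ℤ} (hd : (p : ℤ) ∣ d)
    (hc : (p : ℤ) ∣ c) (he : (p : ℤ) ∣ e) (he2 : ¬ (p : ℤ) ^ 2 ∣ e) :
    Irreducible (HG p g d c e) := by
  have hpi : Prime (p : ℤ) := Nat.prime_iff_prime_int.1 hp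
  have hmon := monic_HG (p := p) hg d c e
  have hdeg := natDegree_HG (p := p) hg d c e
  have hP : (Ideal.span {(p : ℤ)}).IsPrime := (Ideal.span_singleton_prime hpi.ne_zero).2 hpi
  apply irreducible_of_eisenstein_criterion hP
  · rw [hmon.leadingCoeff, Ideal.mem_span_singleton]
    exact hpi.not_dvd_one
  · intro n hn
    rw [Ideal.mem_span_singleton, ← ZMod.intCast_zmod_eq_zero_iff_dvd]
    have h1 : (HG p g d c e).map (Int.castRingHom (ZMod p)) = X ^ g := by
      obtain ⟨k, rfl⟩ : ∃ k, g = k + 1 := ⟨g - 1, by omega⟩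
      have h2 : ∀ m : ℤ, (p : ℤ) ∣ m → Int.castRingHom (ZMod p) m = 0 := by
        intro m hm
        rw [eq_intCast]
        exact (ZMod.intCast_zmod_eq_zero_iff_dvd m p).2 hm
      rw [HG, Polynomial.map_add, map_dickson, Polynomial.map_add, Polynomial.map_add,
        Polynomial.map_mul, Polynomial.map_mul, map_C, map_C, map_C, map_X, h2 _ hd, h2 _ hc,
        h2 _ he, h2 _ dvd_rfl, dk_mod, C_0]
      ring
    have h3 := congrArg (fun q => coeff q n) h1
    simp only [coeff_map, eq_intCast, coeff_X_pow] at h3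
    rw [h3, if_neg]
    intro h
    rw [degree_eq_natDegree hmon.ne_zero, hdeg, h] at hn
    exact lt_irrefl _ hn
  · rw [degree_eq_natDegree hmon.ne_zero, hdeg]
    exact_mod_cast (by omega : 0 < g)
  · rw [Ideal.span_singleton_pow, Ideal.mem_span_singleton]
    obtain ⟨k, rfl⟩ : ∃ k, g = k + 3 := ⟨g - 3, by omega⟩
    have h1 : (HG p (k + 3) d c e).coeff 0 =
        ((dickson 1 (p : ℤ) (k + 3)).coeff 0 + d * -(2 * p)) + e := by
      rw [HG, coeff_add, coeff_add, coeff_add, coeff_C_mul, coeff_C_mul, coeff_sub, coeff_C_zero,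
        coeff_C_zero, coeff_X_pow, coeff_X_zero]
      simp
      ring
    rw [h1]
    intro h
    obtain ⟨d', hd'⟩ := hd
    have h2 : (p : ℤ) ^ 2 ∣ (dickson 1 (p : ℤ) (k + 3)).coeff 0 + d * -(2 * p) := by
      apply dvd_add (dk_coeff_zero p k)
      refine ⟨-(2 * d'), ?_⟩
      rw [hd']
      ring
    exact he2 ((dvd_add_right h2).1 h)
  · exact hmon.isPrimitive

/-- if all roots have absolute value `√p` then the Weil polynomial is irreducible -/
theorem irreducible_PG {p g : ℕ} (hp : p.Prime) (hg : 3 ≤ g) {d c e : ℤ} (hd : (p : ℤ) ∣ d)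
    (hc : (p : ℤ) ∣ c) (he : (p : ℤ) ∣ e) (he2 : ¬ (p : ℤ) ^ 2 ∣ e)
    (hnorm : ∀ x : ℂ, aeval x (PG p g d c e) = 0 → ‖x‖ = Real.sqrt p) :
    Irreducible ((PG p g d c e).map (Int.castRingHom ℚ)) := by
  have hmon : (PG p g d c e).Monic := monic_PG hg d c e
  have hdeg := natDegree_PG (p := p) hg d c e
  obtain ⟨x, hx⟩ := IsAlgClosed.exists_aeval_eq_zero ℂ (PG p g d c e) (by
    rw [degree_eq_natDegree hmon.ne_zero, hdeg]
    exact_mod_cast (by omega : 2 * g ≠ 0))
  have hxi : IsIntegral ℚ x := (show IsIntegral ℤ x from ⟨_, hmon, hx⟩).tower_top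
  have hmap : (PG p g d c e).map (Int.castRingHom ℚ) = (PG p g d c e).map (algebraMap ℤ ℚ) := rfl
  have hxQ : aeval x ((PG p g d c e).map (Int.castRingHom ℚ)) = 0 := by
    rw [hmap, aeval_map_algebraMap]
    exact hx
  have hdvd : minpoly ℚ x ∣ (PG p g d c e).map (Int.castRingHom ℚ) := minpoly.dvd ℚ x hxQ
  have hmonQ : ((PG p g d c e).map (Int.castRingHom ℚ)).Monic := hmon.map _
  have hdegQ : ((PG p g d c e).map (Int.castRingHom ℚ)).natDegree = 2 * g := by
    rw [hmon.natDegree_map, hdeg]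
  -- the real part
  have hp0 : (0 : ℝ) < p := by exact_mod_cast hp.pos
  set x' : ℂ := starRingEnd ℂ x with hx'
  have hxx : x * x' = p := by
    rw [hx', Complex.mul_conj, Complex.normSq_eq_norm_sq, hnorm x hx, Real.sq_sqrt hp0.le]
    norm_num
  set β : ℂ := x + x' with hβ
  have hβr : β = ((2 * x.re : ℝ) : ℂ) := by
    rw [hβ, hx', Complex.add_conj]
  have hβH : aeval β (HG p g d c e) = 0 := by
    rw [hβ, aeval_HG hxx]
    exact rel_of_rootG hp hg hx hxx
  have hHirr : Irreducible ((HG p g d c e).map (algebraMap ℤ ℚ)) :=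
    ((monic_HG hg d c e).irreducible_iff_irreducible_map_fraction_map).1 (irreducible_HG hp hg hd hc he he2)
  have hHmin : minpoly ℚ β = (HG p g d c e).map (algebraMap ℤ ℚ) := by
    symm
    apply minpoly.eq_of_irreducible_of_monic hHirr
    · rw [aeval_map_algebraMap]
      exact hβH
    · exact (monic_HG hg d c e).map _
  have hβi : IsIntegral ℚ β := (show IsIntegral ℤ β from ⟨_, monic_HG hg d c e, hβH⟩).tower_top
  set K := IntermediateField.adjoin ℚ {x} with hK
  set L := IntermediateField.adjoin ℚ {β} with hL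
  have hfL : Module.finrank ℚ L = g := by
    rw [hL, IntermediateField.adjoin.finrank hβi, hHmin, (monic_HG hg d c e).natDegree_map,
      natDegree_HG hg d c e]
  have hfK : Module.finrank ℚ K = (minpoly ℚ x).natDegree := IntermediateField.adjoin.finrank hxi
  have hxK : x ∈ K := IntermediateField.mem_adjoin_simple_self ℚ x
  have hx0 := ne_zero_of_rootG hp hg hx
  have hLK : L ≤ K := by
    rw [hL, IntermediateField.adjoin_le_iff, Set.singleton_subset_iff]
    have ex : x' = p / x := by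
      rw [eq_div_iff hx0, mul_comm, hxx]
    rw [hβ, ex]
    exact add_mem hxK (div_mem (natCast_mem K p) hxK)
  have hfd : FiniteDimensional ℚ K := IntermediateField.adjoin.finiteDimensional hxi
  have hge : 2 * g ≤ (minpoly ℚ x).natDegree := by
    have h1 : Module.finrank ℚ L ∣ Module.finrank ℚ K := IntermediateField.finrank_dvd_of_le_right hLK
    rw [hfL, hfK] at h1
    obtain ⟨m, hm⟩ := h1
    have hpos : 0 < (minpoly ℚ x).natDegree := minpoly.natDegree_pos hxi
    have hm0 : m ≠ 0 := by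
      rintro rfl
      omega
    have hm1 : m ≠ 1 := by
      rintro rfl
      rw [mul_one] at hm
      have h2 : L = K := IntermediateField.eq_of_le_of_finrank_eq hLK (by rw [hfL, hfK, hm])
      -- `x` is real
      have h3 : L ≤ (IsScalarTower.toAlgHom ℚ ℝ ℂ).fieldRange := by
        rw [hL, IntermediateField.adjoin_le_iff, Set.singleton_subset_iff]
        exact ⟨2 * x.re, hβr.symm⟩
      have h4 : x ∈ (IsScalarTower.toAlgHom ℚ ℝ ℂ).fieldRange := h3 (by rw [h2]; exact hxK)
      obtain ⟨r, hr⟩ := h4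
      have h5 : x = (r : ℂ) := hr.symm
      have h6 : x' = x := by
        rw [hx', h5]
        exact Complex.conj_ofReal r
      have h7 : β ^ 2 = 4 * (p : ℂ) := by
        rw [hβ, ← hxx, h6]
        ring
      have h8 : minpoly ℚ β ∣ X ^ 2 - C (4 * (p : ℚ)) := by
        apply minpoly.dvd
        rw [map_sub, map_pow, aeval_X, aeval_C, h7]
        simp
      have h9 := natDegree_le_of_dvd h8 (X_pow_sub_C_ne_zero (by norm_num) _)
      rw [natDegree_X_pow_sub_C, hHmin, (monic_HG hg d c e).natDegree_map, natDegree_HG hg d c e] at h9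
      omega
    have h10 : 2 ≤ m := by omega
    rw [hm, mul_comm 2 g]
    exact Nat.mul_le_mul_left g h10
  have heq := eq_of_monic_of_dvd_of_natDegree_le (minpoly.monic hxi) hmonQ hdvd (by
    rw [hdegQ]
    exact hge)
  rw [heq]
  exact minpoly.irreducible hxi


theorem norm_of_rootsG {p g : ℕ} (hp : p.Prime) (hg : 3 ≤ g) {d c e : ℤ} (S : Finset ℝ)
    (hS : S.card = g) (hr : ∀ s ∈ S, aeval s (HG p g d c e) = 0) (hb : ∀ s ∈ S, s ^ 2 ≤ 4 * p)
    (x : ℂ) (hx : aeval x (PG p g d c e) = 0) : ‖x‖ = Real.sqrt p := by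
  have hp0 : (0 : ℝ) < p := by exact_mod_cast hp.pos
  have hx0 := ne_zero_of_rootG hp hg hx
  have hxx : x * (p / x) = p := mul_div_cancel₀ _ hx0
  have hβ : aeval (x + p / x) (HG p g d c e) = 0 := by
    rw [aeval_HG hxx]
    exact rel_of_rootG hp hg hx hxx
  set q : ℂ[X] := (HG p g d c e).map (algebraMap ℤ ℂ) with hq
  have hqm : q.Monic := (monic_HG hg d c e).map _
  have hqd : q.natDegree = g := by
    rw [hq, (monic_HG hg d c e).natDegree_map, natDegree_HG hg d c e]
  have hmem : ∃ s ∈ S, x + p / x = (s : ℂ) := by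
    by_contra hcon
    push Not at hcon
    have hT : (insert (x + p / x) (S.image (fun s : ℝ => (s : ℂ)))) ⊆ q.roots.toFinset := by
      intro z hz
      rw [Multiset.mem_toFinset, mem_roots hqm.ne_zero, IsRoot.def, hq, eval_map_algebraMap]
      rcases Finset.mem_insert.1 hz with h | h
      · rw [h]
        exact hβ
      · obtain ⟨s, hs, rfl⟩ := Finset.mem_image.1 h
        have h1 := hr s hs
        have h2 : aeval ((algebraMap ℝ ℂ) s) (HG p g d c e) = algebraMap ℝ ℂ (aeval s (HG p g d c e)) :=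
          aeval_algebraMap_apply ℂ s (HG p g d c e)
        rw [h1, map_zero] at h2
        exact h2
    have h1 := Finset.card_le_card hT
    rw [Finset.card_insert_of_notMem, Finset.card_image_of_injective _ Complex.ofReal_injective,
      hS] at h1
    · have h2 := Multiset.toFinset_card_le q.roots
      have h3 := q.card_roots'
      omega
    · intro h
      obtain ⟨s, hs, hs2⟩ := Finset.mem_image.1 h
      exact hcon s hs hs2.symm
  obtain ⟨s, hs, hs2⟩ := hmem
  apply norm_of_real hp0 (β := s) _ (hb s hs)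
  have h1 : x ^ 2 - (x + p / x) * x + p = 0 := by
    have : (x + p / x) * x = x ^ 2 + p := by
      field_simp
    rw [this]
    ring
  rw [hs2] at h1
  rw [Complex.ofReal_natCast]
  exact h1


/-- a root of unity `ζ` such that `x` and `ζ x` are roots, `|p/x| ≤ |x|` -/
structure PairG (p g : ℕ) (d c e : ℤ) (B : ValuationSubring ℂ) (x x' ζ ζ' : ℂ) (n : ℕ) : Prop where
  hB : B.valuation (p : ℂ) < 1
  hint : IsIntegral ℤ x
  hxx : x * x' = p
  hx : x ^ g + x' ^ g + d * (x ^ 2 + x' ^ 2) + c * (x + x') + e = 0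
  hζ : ζ * ζ' = 1
  hy : (ζ * x) ^ g + (ζ' * x') ^ g + d * ((ζ * x) ^ 2 + (ζ' * x') ^ 2) +
    c * (ζ * x + ζ' * x') + e = 0
  hn : 1 ≤ n
  hζn : ζ ^ n = 1
  hle : B.valuation x' ≤ B.valuation x

/-- two roots of which the quotient is a root of unity are equal -/
theorem nondegG {p g : ℕ} (hp : p.Prime) (hg : 3 ≤ g) {d c e : ℤ}
    (hcore : ∀ (B : ValuationSubring ℂ) (x x' ζ ζ' : ℂ) (n : ℕ),
      PairG p g d c e B x x' ζ ζ' n → ζ = 1) (x y : ℂ)
    (hx : aeval x (PG p g d c e) = 0) (hy : aeval y (PG p g d c e) = 0) (n : ℕ) (hn : 1 ≤ n)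
    (hxy : x ^ n = y ^ n) : x = y := by
  obtain ⟨B, hB⟩ := exists_val hp
  have hB' := val_p_lt B hB
  have hp0 : (p : ℂ) ≠ 0 := by exact_mod_cast hp.ne_zero
  have hx0 := ne_zero_of_rootG hp hg hx
  have hy0 := ne_zero_of_rootG hp hg hy
  have hxx : x * (p / x) = p := mul_div_cancel₀ _ hx0
  have hyy : y * (p / y) = p := mul_div_cancel₀ _ hy0
  have hrx := rel_of_rootG hp hg hx hxx
  have hry := rel_of_rootG hp hg hy hyy
  have hxi : IsIntegral ℤ x := ⟨PG p g d c e, monic_PG hg d c e, hx⟩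
  have hx'r : aeval (p / x) (PG p g d c e) = 0 := by
    rw [aeval_PG (by omega) (show p / x * x = (p : ℂ) by rw [mul_comm]; exact hxx)]
    have : ((p : ℂ) / x) ^ g + x ^ g + d * ((p / x) ^ 2 + x ^ 2) + c * (p / x + x) + e = 0 := by
      linear_combination hrx
    rw [this, mul_zero]
  have hxi' : IsIntegral ℤ (p / x) := ⟨PG p g d c e, monic_PG hg d c e, hx'r⟩
  have hζ : (y / x) * (x / y) = 1 := by
    field_simp
  have hζn : (y / x) ^ n = 1 := by
    rw [div_pow, hxy, div_self (pow_ne_zero n hy0)]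
  have hζn' : (x / y) ^ n = 1 := by
    rw [div_pow, hxy, div_self (pow_ne_zero n hy0)]
  have e1 : y / x * x = y := div_mul_cancel₀ _ hx0
  have e2 : x / y * (p / x) = p / y := by
    field_simp
  rcases le_total (B.valuation (p / x)) (B.valuation x) with h | h
  · have h1 := hcore B _ _ _ _ n
      ⟨hB', hxi, hxx, hrx, hζ, by rw [e1, e2]; exact hry, hn, hζn, h⟩
    rw [div_eq_one_iff_eq hx0] at h1
    exact h1.symm
  · have h1 := hcore B _ _ _ _ n
      ⟨hB', hxi', by rw [mul_comm]; exact hxx, by linear_combination hrx,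
        by rw [mul_comm]; exact hζ, by rw [e1, e2]; linear_combination hry, hn, hζn', h⟩
    rw [div_eq_one_iff_eq hy0] at h1
    exact h1

/-- the properties of the polynomial which follow from the absolute values of the roots and from
non-degeneracy -/
theorem assembleG {p g : ℕ} (hp : p.Prime) (hg : 3 ≤ g) {d c e : ℤ} (hd : (p : ℤ) ∣ d)
    (hc : (p : ℤ) ∣ c) (he : (p : ℤ) ∣ e) (he2 : ¬ (p : ℤ) ^ 2 ∣ e)
    (hnorm : ∀ x : ℂ, aeval x (PG p g d c e) = 0 → ‖x‖ = Real.sqrt p)
    (hcore : ∀ (B : ValuationSubring ℂ) (x x' ζ ζ' : ℂ) (n : ℕ),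
      PairG p g d c e B x x' ζ ζ' n → ζ = 1) :
    ∃ P : ℤ[X], P.Monic ∧ P.natDegree = 2 * g ∧ Irreducible (P.map (Int.castRingHom ℚ)) ∧
      (∀ x : ℂ, aeval x P = 0 → ‖x‖ = Real.sqrt p) ∧
      (∀ i < 2 * g, (p : ℤ) ∣ P.coeff i) ∧ ¬ (p : ℤ) ^ 2 ∣ P.coeff g ∧
      (∀ x : ℂ, aeval x P = 0 → ∀ n : ℕ, 1 ≤ n →
        IntermediateField.adjoin ℚ {x ^ n} = IntermediateField.adjoin ℚ {x}) := by
  refine ⟨PG p g d c e, monic_PG hg d c e, natDegree_PG hg d c e,
    irreducible_PG hp hg hd hc he he2 hnorm, hnorm, ?_, ?_, ?_⟩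
  · intro i hi
    have h1 : (PG p g d c e).coeff i = (C d * (X ^ (g + 2) + C ((p : ℤ) ^ 2) * X ^ (g - 2)) +
        C c * (X ^ (g + 1) + C (p : ℤ) * X ^ (g - 1)) + C e * X ^ g + C ((p : ℤ) ^ g)).coeff i := by
      rw [PG, coeff_add, coeff_X_pow, if_neg (by omega), zero_add]
    rw [h1]
    have h2 : C (p : ℤ) ∣ (C d * (X ^ (g + 2) + C ((p : ℤ) ^ 2) * X ^ (g - 2)) +
        C c * (X ^ (g + 1) + C (p : ℤ) * X ^ (g - 1)) + C e * X ^ g + C ((p : ℤ) ^ g)) := by
      apply dvd_add
      · apply dvd_add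
        · apply dvd_add
          · exact (map_dvd C hd).mul_right _
          · exact (map_dvd C hc).mul_right _
        · exact (map_dvd C he).mul_right _
      · exact map_dvd C (dvd_pow_self _ (by omega))
    exact (C_dvd_iff_dvd_coeff _ _).1 h2 i
  · have h1 : (PG p g d c e).coeff g = e := by
      rw [PG, coeff_add, coeff_add, coeff_add, coeff_add, coeff_C_mul, coeff_C_mul, coeff_add,
        coeff_add, coeff_C_mul, coeff_C_mul, coeff_C_mul, coeff_X_pow, coeff_X_pow, coeff_X_pow,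
        coeff_X_pow, coeff_X_pow, coeff_X_pow, coeff_C, if_neg (by omega), if_neg (by omega),
        if_neg (by omega), if_neg (by omega), if_neg (by omega), if_pos rfl, if_neg (by omega)]
      ring
    rw [h1]
    exact he2
  · intro x hx n hn
    exact adjoin_pow_eq (monic_PG hg d c e) (nondegG hp hg hcore) hx hn

end Pool.Agent.Y676.WP
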