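import Pool.Agent.Y676.WP.One
import Pool.Agent.Y676.WP.Spec

/-! # p-rank one: all pairs -/

set_option autoImplicit false

namespace Pool.Agent.Y676.WP

open Polynomial

lemma PO_low {p g : ℕ} (hg : 3 ≤ g) (u : ℤ) :
    (∀ i < 2 * g - 1, (p : ℤ) ∣ (PO p g u).coeff i) ∧ (PO p g u).coeff (2 * g - 1) = 1 := by
  constructor
  · intro i hi
    have h1 : (PO p g u).coeff i = (C ((p : ℤ) ^ (g - 1)) * X + C ((p : ℤ) * u) * X ^ g
        + C ((p : ℤ) ^ g)).coeff i := by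
      rw [PO, coeff_add, coeff_X_pow, if_neg (by omega), zero_add, coeff_add, coeff_X_pow,
        if_neg (by omega), zero_add]
    rw [h1]
    have h2 : C (p : ℤ) ∣ (C ((p : ℤ) ^ (g - 1)) * X + C ((p : ℤ) * u) * X ^ g
        + C ((p : ℤ) ^ g)) := by
      apply dvd_add
      · apply dvd_add
        · exact (_root_.map_dvd C (dvd_pow_self _ (by omega))).mul_right _
        · exact (_root_.map_dvd C (dvd_mul_right _ _)).mul_right _
      · exact _root_.map_dvd C (dvd_pow_self _ (by omega))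
    exact (C_dvd_iff_dvd_coeff _ _).1 h2 i
  · rw [PO, coeff_add, coeff_add, coeff_add, coeff_add, coeff_C_mul, coeff_C_mul, coeff_X_pow,
      coeff_X_pow, coeff_X_pow, coeff_X, coeff_C, if_neg (by omega), if_pos rfl,
      if_neg (by omega), if_neg (by omega), if_neg (by omega)]
    ring

lemma not_dvd_one' {p : ℕ} (hp : p.Prime) : ¬ (p : ℤ) ∣ 1 :=
  (Nat.prime_iff_prime_int.1 hp).not_dvd_one

lemma sq_not_dvd {p : ℕ} (hp : p.Prime) {u : ℤ} (hu : |u| = 1) : ¬ (p : ℤ) ^ 2 ∣ p * u := by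
  intro h
  rw [sq] at h
  have h1 : (p : ℤ) ∣ u := (mul_dvd_mul_iff_left (by exact_mod_cast hp.ne_zero)).1 h
  have h2 : (p : ℤ) ∣ |u| := (dvd_abs _ _).2 h1
  rw [hu] at h2
  exact not_dvd_one' hp h2

theorem one_main {p g : ℕ} (hp : p.Prime) (hg : 4 ≤ g ∨ (g = 3 ∧ 3 ≤ p)) :
    ∃ P : ℤ[X], P.Monic ∧ P.natDegree = 2 * g ∧ Irreducible (P.map (Int.castRingHom ℚ)) ∧
      (∀ x : ℂ, aeval x P = 0 → ‖x‖ = Real.sqrt p) ∧
      (∀ i < 2 * g - 1, (p : ℤ) ∣ P.coeff i) ∧ ¬ (p : ℤ) ∣ P.coeff (2 * g - 1) ∧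
      (∀ x : ℂ, aeval x P = 0 → ∀ n : ℕ, 1 ≤ n →
        IntermediateField.adjoin ℚ {x ^ n} = IntermediateField.adjoin ℚ {x}) := by
  have hg3 : 3 ≤ g := by omega
  obtain ⟨k, rfl⟩ : ∃ k, g = k + 2 := ⟨g - 2, by omega⟩
  -- the choice of `u`
  obtain ⟨u, hu, huo, hu1, hu3⟩ : ∃ u : ℤ, |u| = 1 ∧ Odd u ∧ u ≠ dv p (-1) k ∧
      (k + 2 = 3 → u = 1) := by
    by_cases h : dv p (-1) k = 1
    · refine ⟨-1, by norm_num, by decide, by rw [h]; norm_num, ?_⟩
      intro h3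
      obtain rfl : k = 1 := by omega
      rw [dv_one] at h
      norm_num at h
    · exact ⟨1, by norm_num, by decide, fun h' => h h'.symm, fun _ => rfl⟩
  have hnorm : ∀ x : ℂ, aeval x (PO p (k + 2) u) = 0 → ‖x‖ = Real.sqrt p :=
    norm_smallO hp hg3 hu (smallO hp (by omega))
  have hrel : ∀ x x' : ℂ, x * x' = p →
      aeval x (PO p (k + 2) u) = x ^ (k + 2) * aeval (x + x') (HO p (k + 2) u) :=
    fun x x' h => aeval_PO (by omega) h
  have hroot : ∀ n : ℤ, (p : ℤ) ∣ n + 1 → (HO p (k + 2) u).eval n ≠ 0 :=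
    no_root hp (by omega) huo hu1 (fun n hn => root_small hp hrel hnorm hn)
  have h0 : ¬ (p : ℤ) ^ 2 ∣ (HO p (k + 2) u).coeff 0 := by
    have e : (HO p (k + 2) u).coeff 0 =
        (dickson 1 (p : ℤ) (k + 2)).coeff 0 + ((dickson 1 (p : ℤ) (k + 1)).coeff 0 + p * u) := by
      rw [HO, coeff_add, coeff_add, coeff_C_zero, show k + 2 - 1 = k + 1 from rfl]
    rw [e]
    obtain ⟨j, rfl⟩ : ∃ j, k = j + 1 := ⟨k - 1, by omega⟩
    intro h
    have h1 := (dvd_add_right (dk_coeff_zero p j)).1 h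
    rcases Nat.eq_zero_or_pos j with hj | hj
    · subst hj
      have hu' := hu3 rfl
      have e2 : (dickson 1 (p : ℤ) (0 + 1 + 1)).coeff 0 = -(2 * p) := by
        rw [show 0 + 1 + 1 = 0 + 2 from rfl, dickson_add_two, coeff_sub, coeff_C_mul,
          mul_coeff_zero, coeff_X_zero, dk_zero]
        have : (2 : ℤ[X]).coeff 0 = 2 := by
          rw [show (2 : ℤ[X]) = C 2 from rfl, coeff_C_zero]
        rw [this]
        ring
      rw [e2, hu'] at h1
      have h2 : (p : ℤ) ^ 2 ∣ p * (-1) := by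
        have : -(2 * (p : ℤ)) + p * 1 = p * (-1) := by ring
        rwa [this] at h1
      exact sq_not_dvd hp (by norm_num) h2
    · obtain ⟨i, rfl⟩ : ∃ i, j = i + 1 := ⟨j - 1, by omega⟩
      exact sq_not_dvd hp hu ((dvd_add_right (dk_coeff_zero p i)).1 h1)
  obtain ⟨hlow, htop⟩ := PO_low (p := p) hg3 u
  exact assembleO hp hg3 (monic_PO hg3 u) (natDegree_PO hg3 u) (monic_HO hg3 u)
    (natDegree_HO hg3 u) (HO_mod hg3 u) h0 hroot hrel hnorm hlow
    (by rw [htop]; exact not_dvd_one' hp)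

lemma norm_23 (x : ℂ) (hx : aeval x (PG 2 3 1 2 2) = 0) : ‖x‖ = Real.sqrt ((2 : ℕ) : ℝ) := by
  set f : ℝ → ℝ := fun t => t ^ 3 + t ^ 2 - 4 * t - 2 with hf
  have hfc : Continuous f := by
    rw [hf]
    fun_prop
  have hev : ∀ t : ℝ, aeval t (HG 2 3 1 2 2) = f t := by
    intro t
    unfold HG
    rw [show dickson 1 (((2 : ℕ) : ℤ)) 3 = dickson 1 (((2 : ℕ) : ℤ)) (1 + 2) from rfl,
      dickson_add_two, dickson_add_two, dk_zero, dickson_one]
    simp only [map_add, map_sub, map_mul, map_pow, aeval_X, aeval_C, map_ofNat]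
    simp [hf]
    ring
  obtain ⟨t1, a1, b1, c1⟩ := exists_zero hfc (a := -28 / 10) (b := -2) (by norm_num)
    (Or.inl ⟨by norm_num [hf], by norm_num [hf]⟩)
  obtain ⟨t2, a2, b2, c2⟩ := exists_zero hfc (a := -2) (b := 0) (by norm_num)
    (Or.inr ⟨by norm_num [hf], by norm_num [hf]⟩)
  obtain ⟨t3, a3, b3, c3⟩ := exists_zero hfc (a := 0) (b := 2) (by norm_num)
    (Or.inl ⟨by norm_num [hf], by norm_num [hf]⟩)
  have hbd : ∀ t : ℝ, -28 / 10 < t → t < 28 / 10 → t ^ 2 ≤ 4 * ((2 : ℕ) : ℝ) := by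
    intro t h1 h2
    push_cast
    nlinarith
  apply norm_of_rootsG Nat.prime_two le_rfl {t1, t2, t3} ?_ ?_ ?_ x hx
  · rw [Finset.card_insert_of_notMem, Finset.card_insert_of_notMem, Finset.card_singleton]
    · simp only [Finset.mem_singleton]
      linarith
    · simp only [Finset.mem_insert, Finset.mem_singleton, not_or]
      constructor <;> linarith
  · intro t ht
    simp only [Finset.mem_insert, Finset.mem_singleton] at ht
    rw [hev]
    rcases ht with rfl | rfl | rfl <;> assumption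
  · intro t ht
    simp only [Finset.mem_insert, Finset.mem_singleton] at ht
    rcases ht with rfl | rfl | rfl <;> exact hbd _ (by linarith) (by linarith)

theorem one_23 :
    ∃ P : ℤ[X], P.Monic ∧ P.natDegree = 2 * 3 ∧ Irreducible (P.map (Int.castRingHom ℚ)) ∧
      (∀ x : ℂ, aeval x P = 0 → ‖x‖ = Real.sqrt (2 : ℕ)) ∧
      (∀ i < 2 * 3 - 1, ((2 : ℕ) : ℤ) ∣ P.coeff i) ∧ ¬ ((2 : ℕ) : ℤ) ∣ P.coeff (2 * 3 - 1) ∧
      (∀ x : ℂ, aeval x P = 0 → ∀ n : ℕ, 1 ≤ n →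
        IntermediateField.adjoin ℚ {x ^ n} = IntermediateField.adjoin ℚ {x}) := by
  have hH : HG 2 3 1 2 2 = X ^ 3 + X ^ 2 - C 4 * X - C 2 := by
    unfold HG
    rw [show dickson 1 (((2 : ℕ) : ℤ)) 3 = dickson 1 (((2 : ℕ) : ℤ)) (1 + 2) from rfl,
      dickson_add_two, dickson_add_two, dk_zero, dickson_one]
    simp
    ring
  have hrel : ∀ x x' : ℂ, x * x' = (2 : ℕ) →
      aeval x (PG 2 3 1 2 2) = x ^ 3 * aeval (x + x') (HG 2 3 1 2 2) := by
    intro x x' h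
    rw [aeval_PG (by norm_num) h, aeval_HG h]
  refine assembleO Nat.prime_two le_rfl (monic_PG le_rfl 1 2 2) (natDegree_PG le_rfl 1 2 2)
    (monic_HG le_rfl 1 2 2) (natDegree_HG le_rfl 1 2 2) ?_ ?_ ?_ hrel norm_23 ?_ ?_
  · rw [hH]
    have e1 : (4 : ZMod 2) = 0 := by decide
    have e2 : (2 : ZMod 2) = 0 := by decide
    simp [Polynomial.map_sub, Polynomial.map_add]
    have e3 : (4 : (ZMod 2)[X]) = 0 := by
      rw [show (4 : (ZMod 2)[X]) = C 4 from rfl, e1, C_0]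
    have e4 : (2 : (ZMod 2)[X]) = 0 := by
      rw [show (2 : (ZMod 2)[X]) = C 2 from rfl, e2, C_0]
    rw [e3, e4]
    ring
  · rw [hH]
    simp
  · intro n hn h
    have h1 := root_small Nat.prime_two hrel norm_23 h
    rw [hH] at h
    simp at h
    push_cast at h1
    have h2 : n ≤ 2 := by nlinarith
    have h3 : -2 ≤ n := by nlinarith
    interval_cases n <;> simp at h
  · intro i hi
    have : PG 2 3 1 2 2 = X ^ 6 + X ^ 5 + C 2 * X ^ 4 + C 2 * X ^ 3 + C 4 * X ^ 2 + C 4 * X + C 8 := by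
      unfold PG
      simp
      ring
    rw [this]
    interval_cases i <;> simp [coeff_X, coeff_C]
    all_goals norm_num
  · have : PG 2 3 1 2 2 = X ^ 6 + X ^ 5 + C 2 * X ^ 4 + C 2 * X ^ 3 + C 4 * X ^ 2 + C 4 * X + C 8 := by
      unfold PG
      simp
      ring
    rw [this]
    simp [coeff_X, coeff_C]

theorem one_all {p g : ℕ} (hp : p.Prime) (hg : 3 ≤ g) :
    ∃ P : ℤ[X], P.Monic ∧ P.natDegree = 2 * g ∧ Irreducible (P.map (Int.castRingHom ℚ)) ∧
      (∀ x : ℂ, aeval x P = 0 → ‖x‖ = Real.sqrt p) ∧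
      (∀ i < 2 * g - 1, (p : ℤ) ∣ P.coeff i) ∧ ¬ (p : ℤ) ∣ P.coeff (2 * g - 1) ∧
      (∀ x : ℂ, aeval x P = 0 → ∀ n : ℕ, 1 ≤ n →
        IntermediateField.adjoin ℚ {x ^ n} = IntermediateField.adjoin ℚ {x}) := by
  by_cases h : 4 ≤ g ∨ (g = 3 ∧ 3 ≤ p)
  · exact one_main hp h
  · have h2 := hp.two_le
    obtain rfl : g = 3 := by omega
    obtain rfl : p = 2 := by omega
    exact one_23

end Pool.Agent.Y676.WP
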