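import Pool.Agent.Y676.WP.Small

/-! # p-rank one: irreducibility -/

set_option autoImplicit false

namespace Pool.Agent.Y676.WP

open Polynomial

lemma one_factor {p g : ℕ} (hp : p.Prime) {h F G : ℤ[X]} (hG : G.Monic) (hFG : F * G = h)
    (hmod : h.map (Int.castRingHom (ZMod p)) = X ^ (g - 1) * (X + 1))
    (hroot : ∀ n : ℤ, (p : ℤ) ∣ n + 1 → h.eval n ≠ 0)
    (h0 : ¬ (p : ℤ) ∣ G.coeff 0) : G.natDegree = 0 := by
  have : Fact p.Prime := ⟨hp⟩
  set G' := G.map (Int.castRingHom (ZMod p)) with hG'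
  have h1 : ¬ X ∣ G' := by
    rw [X_dvd_iff, hG', coeff_map, eq_intCast, ZMod.intCast_zmod_eq_zero_iff_dvd]
    exact h0
  have h2 : IsCoprime (X : (ZMod p)[X]) G' := (Irreducible.coprime_iff_not_dvd irreducible_X).2 h1
  have h3 : G' ∣ X ^ (g - 1) * (X + 1) := by
    rw [← hmod, ← hFG, Polynomial.map_mul]
    exact dvd_mul_left _ _
  have h4 : G' ∣ X + 1 := (h2.symm.pow_right (n := g - 1)).dvd_of_dvd_mul_left h3
  have hX1 : (X + 1 : (ZMod p)[X]) = X + C 1 := by rw [C_1]
  have h5 : G'.natDegree ≤ 1 := by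
    have := natDegree_le_of_dvd h4 (by rw [hX1]; exact X_add_C_ne_zero 1)
    rwa [hX1, natDegree_X_add_C] at this
  have h6 : G'.natDegree = G.natDegree := hG.natDegree_map _
  by_contra hne
  have h7 : G.natDegree = 1 := by omega
  have h8 : G = X + C (G.coeff 0) := hG.eq_X_add_C h7
  set m := G.coeff 0 with hm
  have h9 : (p : ℤ) ∣ -m + 1 := by
    have e : G' = X + C ((m : ℤ) : ZMod p) := by
      rw [hG', h8]
      simp
    obtain ⟨q, hq⟩ := h4
    have h10 := congrArg (eval (-((m : ℤ) : ZMod p))) hq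
    rw [e] at h10
    simp at h10
    rw [← ZMod.intCast_zmod_eq_zero_iff_dvd]
    push_cast
    exact h10
  apply hroot (-m) h9
  rw [← hFG, eval_mul, h8]
  simp

theorem irreducible_of_linear {p g : ℕ} (hp : p.Prime) (hg : 2 ≤ g) {h : ℤ[X]} (hm : h.Monic)
    (hd : h.natDegree = g)
    (hmod : h.map (Int.castRingHom (ZMod p)) = X ^ (g - 1) * (X + 1))
    (h0 : ¬ (p : ℤ) ^ 2 ∣ h.coeff 0)
    (hroot : ∀ n : ℤ, (p : ℤ) ∣ n + 1 → h.eval n ≠ 0) : Irreducible h := by
  rw [hm.irreducible_iff_natDegree]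
  refine ⟨?_, ?_⟩
  · rintro rfl
    rw [natDegree_one] at hd
    omega
  · intro F G hF hG hFG
    by_cases hG0 : (p : ℤ) ∣ G.coeff 0
    · left
      apply one_factor hp hF (by rw [mul_comm]; exact hFG) hmod hroot
      intro hF0
      apply h0
      rw [← hFG, mul_coeff_zero, sq]
      exact mul_dvd_mul hF0 hG0
    · right
      exact one_factor hp hG hFG hmod hroot hG0

/-- if all roots have absolute value `√p` and the real Weil polynomial is irreducible, then the Weil
polynomial is irreducible -/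
theorem irreducible_of_real {p g : ℕ} (hp : p.Prime) (hg : 3 ≤ g) {P h : ℤ[X]} (hmon : P.Monic)
    (hdeg : P.natDegree = 2 * g) (hhm : h.Monic) (hhd : h.natDegree = g) (hh : Irreducible h)
    (hrel : ∀ x x' : ℂ, x * x' = p → aeval x P = x ^ g * aeval (x + x') h)
    (hnorm : ∀ x : ℂ, aeval x P = 0 → ‖x‖ = Real.sqrt p) :
    Irreducible (P.map (Int.castRingHom ℚ)) := by
  obtain ⟨x, hx⟩ := IsAlgClosed.exists_aeval_eq_zero ℂ P (by
    rw [degree_eq_natDegree hmon.ne_zero, hdeg]
    exact_mod_cast (by omega : 2 * g ≠ 0))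
  have hxi : IsIntegral ℚ x := (show IsIntegral ℤ x from ⟨_, hmon, hx⟩).tower_top
  have hmap : P.map (Int.castRingHom ℚ) = P.map (algebraMap ℤ ℚ) := rfl
  have hxQ : aeval x (P.map (Int.castRingHom ℚ)) = 0 := by
    rw [hmap, aeval_map_algebraMap]
    exact hx
  have hdvd : minpoly ℚ x ∣ P.map (Int.castRingHom ℚ) := minpoly.dvd ℚ x hxQ
  have hmonQ : (P.map (Int.castRingHom ℚ)).Monic := hmon.map _
  have hdegQ : (P.map (Int.castRingHom ℚ)).natDegree = 2 * g := by
    rw [hmon.natDegree_map, hdeg]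
  have hp0' : (0 : ℝ) < p := by exact_mod_cast hp.pos
  have hx0 : x ≠ 0 := by
    rintro rfl
    have h1 := hnorm 0 hx
    rw [norm_zero] at h1
    exact (Real.sqrt_pos.2 hp0').ne h1
  -- the real part
  have hp0 : (0 : ℝ) < p := by exact_mod_cast hp.pos
  set x' : ℂ := starRingEnd ℂ x with hx'
  have hxx : x * x' = p := by
    rw [hx', Complex.mul_conj, Complex.normSq_eq_norm_sq, hnorm x hx, Real.sq_sqrt hp0.le]
    norm_num
  set β : ℂ := x + x' with hβ
  have hβr : β = ((2 * x.re : ℝ) : ℂ) := by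
    rw [hβ, hx', Complex.add_conj]
  have hβH : aeval β h = 0 := by
    rw [hrel x x' hxx] at hx
    rcases mul_eq_zero.1 hx with h1 | h1
    · exact absurd h1 (pow_ne_zero g hx0)
    · exact h1
  have hHirr : Irreducible (h.map (algebraMap ℤ ℚ)) :=
    (hhm.irreducible_iff_irreducible_map_fraction_map).1 hh
  have hHmin : minpoly ℚ β = h.map (algebraMap ℤ ℚ) := by
    symm
    apply minpoly.eq_of_irreducible_of_monic hHirr
    · rw [aeval_map_algebraMap]
      exact hβH
    · exact hhm.map _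
  have hβi : IsIntegral ℚ β := (show IsIntegral ℤ β from ⟨_, hhm, hβH⟩).tower_top
  set K := IntermediateField.adjoin ℚ {x} with hK
  set L := IntermediateField.adjoin ℚ {β} with hL
  have hfL : Module.finrank ℚ L = g := by
    rw [hL, IntermediateField.adjoin.finrank hβi, hHmin, hhm.natDegree_map,
      hhd]
  have hfK : Module.finrank ℚ K = (minpoly ℚ x).natDegree := IntermediateField.adjoin.finrank hxi
  have hxK : x ∈ K := IntermediateField.mem_adjoin_simple_self ℚ x
  have hLK : L ≤ K := by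
    rw [hL, IntermediateField.adjoin_le_iff, Set.singleton_subset_iff]
    have e : x' = p / x := by
      rw [eq_div_iff hx0, mul_comm, hxx]
    rw [hβ, e]
    exact add_mem hxK (div_mem (natCast_mem K p) hxK)
  have hfd : FiniteDimensional ℚ K := IntermediateField.adjoin.finiteDimensional hxi
  have hge : 2 * g ≤ (minpoly ℚ x).natDegree := by
    have h1 : Module.finrank ℚ L ∣ Module.finrank ℚ K := IntermediateField.finrank_dvd_of_le_right hLK
    rw [hfL, hfK] at h1
    obtain ⟨d, hd⟩ := h1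
    have hpos : 0 < (minpoly ℚ x).natDegree := minpoly.natDegree_pos hxi
    have hd0 : d ≠ 0 := by
      rintro rfl
      omega
    have hd1 : d ≠ 1 := by
      rintro rfl
      rw [mul_one] at hd
      have h2 : L = K := IntermediateField.eq_of_le_of_finrank_eq hLK (by rw [hfL, hfK, hd])
      -- `x` is real
      have h3 : L ≤ (IsScalarTower.toAlgHom ℚ ℝ ℂ).fieldRange := by
        rw [hL, IntermediateField.adjoin_le_iff, Set.singleton_subset_iff]
        exact ⟨2 * x.re, hβr.symm⟩
      have h4 : x ∈ (IsScalarTower.toAlgHom ℚ ℝ ℂ).fieldRange := h3 (by rw [h2]; exact hxK)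
      obtain ⟨r, hr⟩ := h4
      have h5 : x = (r : ℂ) := hr.symm
      have h6 : x' = x := by
        rw [hx', h5]
        exact Complex.conj_ofReal r
      have h7 : β ^ 2 = 4 * (p : ℂ) := by
        rw [hβ, ← hxx, h6]
        ring
      have h8 : minpoly ℚ β ∣ X ^ 2 - C (4 * (p : ℚ)) := by
        apply minpoly.dvd
        rw [map_sub, map_pow, aeval_X, aeval_C, h7]
        simp
      have h9 := natDegree_le_of_dvd h8 (X_pow_sub_C_ne_zero (by norm_num) _)
      rw [natDegree_X_pow_sub_C, hHmin, hhm.natDegree_map, hhd] at h9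
      omega
    have h10 : 2 ≤ d := by omega
    rw [hd, mul_comm 2 g]
    exact Nat.mul_le_mul_left g h10
  have heq := eq_of_monic_of_dvd_of_natDegree_le (minpoly.monic hxi) hmonQ hdvd (by
    rw [hdegQ]
    exact hge)
  rw [heq]
  exact minpoly.irreducible hxi

end Pool.Agent.Y676.WP
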