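import Pool.Agent.Y676.WP.Irred

/-! # The absolute values of the roots in small dimensions -/

set_option autoImplicit false

namespace Pool.Agent.Y676.WP

open Polynomial

lemma norm_of_real {x : ℂ} {β p : ℝ} (hp : 0 < p) (h : x ^ 2 - β * x + p = 0)
    (hβ : β ^ 2 ≤ 4 * p) : ‖x‖ = Real.sqrt p := by
  have hn : Complex.normSq x = p := by
    have hre := congrArg Complex.re h
    have him := congrArg Complex.im h
    simp [sq] at hre him
    rw [Complex.normSq_apply]
    have h1 : x.im * (2 * x.re - β) = 0 := by linarith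
    rcases mul_eq_zero.1 h1 with h2 | h2
    · rw [h2] at hre ⊢
      have h3 : (2 * x.re - β) ^ 2 = β ^ 2 - 4 * p := by nlinarith
      have h4 : (2 * x.re - β) ^ 2 = 0 := by
        apply le_antisymm
        · rw [h3]
          linarith
        · positivity
      have h5 : 2 * x.re - β = 0 := by
        exact pow_eq_zero_iff (two_ne_zero) |>.1 h4
      nlinarith
    · linear_combination (-1) * hre + x.re * h2
  rw [Complex.norm_def, hn]

theorem norm_of_roots {p g : ℕ} (hp : p.Prime) (hg : 3 ≤ g) {c : ℤ} (S : Finset ℝ)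
    (hS : S.card = g) (hr : ∀ s ∈ S, aeval s (HW p g c) = 0) (hb : ∀ s ∈ S, s ^ 2 ≤ 4 * p)
    (x : ℂ) (hx : aeval x (PW p g c) = 0) : ‖x‖ = Real.sqrt p := by
  have hp0 : (0 : ℝ) < p := by exact_mod_cast hp.pos
  have hx0 := ne_zero_of_root hp hg hx
  have hxx : x * (p / x) = p := mul_div_cancel₀ _ hx0
  have hβ : aeval (x + p / x) (HW p g c) = 0 := by
    rw [aeval_HW hxx]
    exact rel_of_root hp hg hx hxx
  set q : ℂ[X] := (HW p g c).map (algebraMap ℤ ℂ) with hq
  have hqm : q.Monic := (monic_HW hg c).map _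
  have hqd : q.natDegree = g := by
    rw [hq, (monic_HW hg c).natDegree_map, natDegree_HW hg c]
  have hmem : ∃ s ∈ S, x + p / x = (s : ℂ) := by
    by_contra hcon
    push Not at hcon
    have hT : (insert (x + p / x) (S.image (fun s : ℝ => (s : ℂ)))) ⊆ q.roots.toFinset := by
      intro z hz
      rw [Multiset.mem_toFinset, mem_roots hqm.ne_zero, IsRoot.def, hq, eval_map_algebraMap]
      rcases Finset.mem_insert.1 hz with h | h
      · rw [h]
        exact hβ
      · obtain ⟨s, hs, rfl⟩ := Finset.mem_image.1 h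
        have h1 := hr s hs
        have h2 : aeval ((algebraMap ℝ ℂ) s) (HW p g c) = algebraMap ℝ ℂ (aeval s (HW p g c)) :=
          aeval_algebraMap_apply ℂ s (HW p g c)
        rw [h1, map_zero] at h2
        exact h2
    have h1 := Finset.card_le_card hT
    rw [Finset.card_insert_of_notMem, Finset.card_image_of_injective _ Complex.ofReal_injective,
      hS] at h1
    · have h2 := Multiset.toFinset_card_le q.roots
      have h3 := q.card_roots'
      omega
    · intro h
      obtain ⟨s, hs, hs2⟩ := Finset.mem_image.1 h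
      exact hcon s hs hs2.symm
  obtain ⟨s, hs, hs2⟩ := hmem
  apply norm_of_real hp0 (β := s) _ (hb s hs)
  have h1 : x ^ 2 - (x + p / x) * x + p = 0 := by
    have : (x + p / x) * x = x ^ 2 + p := by
      field_simp
    rw [this]
    ring
  rw [hs2] at h1
  rw [Complex.ofReal_natCast]
  exact h1

/-- a zero between two points of different sign -/
lemma exists_zero {f : ℝ → ℝ} (hf : Continuous f) {a b : ℝ} (hab : a < b)
    (h : (f a < 0 ∧ 0 < f b) ∨ (0 < f a ∧ f b < 0)) : ∃ t, a < t ∧ t < b ∧ f t = 0 := by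
  rcases h with ⟨h1, h2⟩ | ⟨h1, h2⟩
  · obtain ⟨t, ht, ht2⟩ := intermediate_value_Ioo hab.le hf.continuousOn ⟨h1, h2⟩
    exact ⟨t, ht.1, ht.2, ht2⟩
  · obtain ⟨t, ht, ht2⟩ := intermediate_value_Ioo' hab.le hf.continuousOn ⟨h2, h1⟩
    exact ⟨t, ht.1, ht.2, ht2⟩

theorem norm_three {p : ℕ} (hp : p.Prime) (x : ℂ)
    (hx : aeval x (PW p 3 ((p : ℕ) : ℤ)) = 0) : ‖x‖ = Real.sqrt p := by
  have hp2 : (2 : ℝ) ≤ p := by exact_mod_cast hp.two_le
  set s : ℝ := Real.sqrt p with hs
  have hs2 : s ^ 2 = p := Real.sq_sqrt (by linarith)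
  have hs1 : 1 < s := by
    rw [hs, Real.lt_sqrt (by norm_num)]
    linarith
  set f : ℝ → ℝ := fun t => t ^ 3 - 2 * p * t + p with hf
  have hfc : Continuous f := by
    rw [hf]
    fun_prop
  have hev : ∀ t : ℝ, aeval t (HW p 3 ((p : ℕ) : ℤ)) = f t := by
    intro t
    have e : (3 : ℕ) = 1 + 2 := rfl
    rw [HW, e, dickson_add_two, dickson_add_two, dk_zero, dickson_one]
    simp only [map_add, map_sub, map_mul, aeval_X, aeval_C, map_ofNat]
    simp [hf]
    ring
  have f0 : f (-(2 * s)) < 0 := by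
    have : f (-(2 * s)) = - (s ^ 2 * (4 * s - 1)) := by
      rw [hf]
      simp only
      rw [← hs2]
      ring
    rw [this]
    have : 0 < s ^ 2 * (4 * s - 1) := mul_pos (by positivity) (by linarith)
    linarith
  have f1 : 0 < f 0 := by
    have : f 0 = p := by simp [hf]
    rw [this]
    linarith
  have f2 : f 1 < 0 := by
    have : f 1 = 1 - p := by
      rw [hf]
      simp only
      ring
    rw [this]
    linarith
  have f3 : 0 < f (2 * s) := by
    have : f (2 * s) = s ^ 2 * (4 * s + 1) := by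
      rw [hf]
      simp only
      rw [← hs2]
      ring
    rw [this]
    positivity
  obtain ⟨t1, a1, b1, c1⟩ := exists_zero hfc (a := -(2 * s)) (b := 0) (by linarith) (Or.inl ⟨f0, f1⟩)
  obtain ⟨t2, a2, b2, c2⟩ := exists_zero hfc (a := 0) (b := 1) (by linarith) (Or.inr ⟨f1, f2⟩)
  obtain ⟨t3, a3, b3, c3⟩ := exists_zero hfc (a := 1) (b := 2 * s) (by linarith) (Or.inl ⟨f2, f3⟩)
  have hbd : ∀ t : ℝ, -(2 * s) < t → t < 2 * s → t ^ 2 ≤ 4 * p := by
    intro t h1 h2
    rw [← hs2]
    nlinarith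
  apply norm_of_roots hp le_rfl {t1, t2, t3} ?_ ?_ ?_ x hx
  · rw [Finset.card_insert_of_notMem, Finset.card_insert_of_notMem, Finset.card_singleton]
    · simp only [Finset.mem_singleton]
      linarith
    · simp only [Finset.mem_insert, Finset.mem_singleton, not_or]
      constructor <;> linarith
  · intro t ht
    simp only [Finset.mem_insert, Finset.mem_singleton] at ht
    rw [hev]
    rcases ht with rfl | rfl | rfl <;> assumption
  · intro t ht
    simp only [Finset.mem_insert, Finset.mem_singleton] at ht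
    rcases ht with rfl | rfl | rfl <;> exact hbd _ (by linarith) (by linarith)

theorem norm_five {p : ℕ} (hp : p.Prime) (x : ℂ)
    (hx : aeval x (PW p 5 ((p ^ 2 : ℕ) : ℤ)) = 0) : ‖x‖ = Real.sqrt p := by
  have hp2 : (2 : ℝ) ≤ p := by exact_mod_cast hp.two_le
  set s : ℝ := Real.sqrt p with hs
  have hs2 : s ^ 2 = p := Real.sq_sqrt (by linarith)
  have hs1 : 7 / 5 < s := by
    rw [hs, Real.lt_sqrt (by norm_num)]
    norm_num
    linarith
  have hs3 : 27 / 10 < s ^ 3 := by
    have : s ^ 3 = s ^ 2 * s := by ring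
    rw [this, hs2]
    nlinarith
  set f : ℝ → ℝ := fun t => t ^ 5 - 5 * p * t ^ 3 + 6 * p ^ 2 * t + p with hf
  have hfc : Continuous f := by
    rw [hf]
    fun_prop
  have hev : ∀ t : ℝ, aeval t (HW p 5 ((p ^ 2 : ℕ) : ℤ)) = f t := by
    intro t
    have e : (5 : ℕ) = 1 + 2 + 2 := rfl
    rw [HW, e, dickson_add_two, dickson_add_two, dickson_add_two, dickson_add_two, dk_zero,
      dickson_one]
    simp only [map_add, map_sub, map_mul, aeval_X, aeval_C, map_ofNat]
    simp [hf]
    ring
  have hk : ∀ k : ℝ, f (k * s) = (k ^ 5 - 5 * k ^ 3 + 6 * k) * s ^ 5 + s ^ 2 := by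
    intro k
    rw [hf]
    simp only
    rw [← hs2]
    ring
  have hs5 : s ^ 5 = s ^ 2 * s ^ 3 := by ring
  have hs20 : 0 < s ^ 2 := by positivity
  have f0 : f (-2 * s) < 0 := by
    rw [hk, hs5]
    nlinarith
  have f1 : 0 < f ((-8 / 5) * s) := by
    rw [hk, hs5]
    nlinarith
  have f2 : f (-1 * s) < 0 := by
    rw [hk, hs5]
    nlinarith
  have f3 : 0 < f (0 * s) := by
    rw [hk]
    nlinarith
  have f4 : f ((8 / 5) * s) < 0 := by
    rw [hk, hs5]
    nlinarith
  have f5 : 0 < f (2 * s) := by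
    rw [hk, hs5]
    nlinarith
  obtain ⟨t1, a1, b1, c1⟩ := exists_zero hfc (by linarith) (Or.inl ⟨f0, f1⟩)
  obtain ⟨t2, a2, b2, c2⟩ := exists_zero hfc (by linarith) (Or.inr ⟨f1, f2⟩)
  obtain ⟨t3, a3, b3, c3⟩ := exists_zero hfc (by linarith) (Or.inl ⟨f2, f3⟩)
  obtain ⟨t4, a4, b4, c4⟩ := exists_zero hfc (by linarith) (Or.inr ⟨f3, f4⟩)
  obtain ⟨t5, a5, b5, c5⟩ := exists_zero hfc (by linarith) (Or.inl ⟨f4, f5⟩)
  have hbd : ∀ t : ℝ, -(2 * s) < t → t < 2 * s → t ^ 2 ≤ 4 * p := by
    intro t h1 h2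
    rw [← hs2]
    nlinarith
  apply norm_of_roots hp (by norm_num) {t1, t2, t3, t4, t5} ?_ ?_ ?_ x hx
  · rw [Finset.card_insert_of_notMem, Finset.card_insert_of_notMem, Finset.card_insert_of_notMem,
      Finset.card_insert_of_notMem, Finset.card_singleton]
    · simp only [Finset.mem_singleton]
      linarith
    · simp only [Finset.mem_insert, Finset.mem_singleton, not_or]
      constructor <;> linarith
    · simp only [Finset.mem_insert, Finset.mem_singleton, not_or]
      refine ⟨?_, ?_, ?_⟩ <;> linarith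
    · simp only [Finset.mem_insert, Finset.mem_singleton, not_or]
      refine ⟨?_, ?_, ?_, ?_⟩ <;> linarith
  · intro t ht
    simp only [Finset.mem_insert, Finset.mem_singleton] at ht
    rw [hev]
    rcases ht with rfl | rfl | rfl | rfl | rfl <;> assumption
  · intro t ht
    simp only [Finset.mem_insert, Finset.mem_singleton] at ht
    rcases ht with rfl | rfl | rfl | rfl | rfl <;> exact hbd _ (by linarith) (by linarith)

end Pool.Agent.Y676.WP
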