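import Pool.Agent.Y676.WP.Spec

/-! # Non-degeneracy for the pairs `(3, 3)` and `(4, 5)` -/

set_option autoImplicit false

namespace Pool.Agent.Y676.WP

open Polynomial

/-- valuation core for the larger family -/
theorem core_dataG {p g : ℕ} (hp : p.Prime) (hg : 3 ≤ g) {d c e : ℤ} (hpd : (p : ℤ) ∣ d)
    (hpc : (p : ℤ) ∣ c) {B : ValuationSubring ℂ}
    (he : B.valuation (e : ℂ) = B.valuation (p : ℂ)) {x x' ζ ζ' : ℂ} {n : ℕ}
    (D : PairG p g d c e B x x' ζ ζ' n) :
    0 < B.valuation x ∧ B.valuation x < 1 ∧ B.valuation x ^ g = B.valuation (p : ℂ) ∧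
      B.valuation x * B.valuation x' = B.valuation (p : ℂ) ∧
      B.valuation (ζ - 1) ≤ 1 ∧ IsIntegral ℤ ζ ∧ IsIntegral ℤ ζ' ∧
      B.valuation (x ^ g - ζ' ^ g * x' ^ g) = B.valuation (p : ℂ) ∧
      (ζ ^ g - 1) * (x ^ g - ζ' ^ g * x' ^ g) =
        -(d * ((ζ ^ 2 - 1) * (x ^ 2 - ζ' ^ 2 * x' ^ 2)) + c * ((ζ - 1) * (x - ζ' * x'))) := by
  obtain ⟨hB, hint, hxx, hx, hζ, hy, hn, hζn, hle⟩ := D
  have hp0 : (p : ℂ) ≠ 0 := by exact_mod_cast hp.ne_zero
  set v := B.valuation with hv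
  set a := v x with ha
  set b := v x' with hb
  set π := v (p : ℂ) with hπ
  have hπ0 : 0 < π := by
    rw [hπ, Valuation.pos_iff]
    exact hp0
  have hab : a * b = π := by
    rw [ha, hb, ← map_mul, hxx]
  have ha1 : a ≤ 1 := val_le_one B hint
  have ha0 : 0 < a := by
    rcases eq_or_lt_of_le (zero_le : 0 ≤ a) with h | h
    · rw [← h, zero_mul] at hab
      rw [← hab] at hπ0
      exact absurd hπ0 (lt_irrefl _)
    · exact h
  have hvc : v (c : ℂ) ≤ π := by
    obtain ⟨m, hm⟩ := hpc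
    rw [hm, Int.cast_mul, map_mul, Int.cast_natCast]
    exact mul_le_of_le_one_right' (val_int_le B m)
  have hvd : v (d : ℂ) ≤ π := by
    obtain ⟨m, hm⟩ := hpd
    rw [hm, Int.cast_mul, map_mul, Int.cast_natCast]
    exact mul_le_of_le_one_right' (val_int_le B m)
  set r : ℂ := x' ^ g + (d * (x ^ 2 + x' ^ 2) + c * (x + x')) with hr
  have hxg : x ^ g = -(r + e) := by
    rw [hr]
    linear_combination hx
  have hvs : v (x + x') ≤ a := (v.map_add x x').trans (max_le le_rfl hle)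
  have hb1 : b ≤ 1 := hle.trans ha1
  have hvs2 : v (x ^ 2 + x' ^ 2) ≤ a := by
    refine (v.map_add _ _).trans (max_le ?_ ?_)
    · rw [map_pow, sq]
      exact mul_le_of_le_one_right' ha1
    · rw [map_pow, sq]
      exact (mul_le_of_le_one_right' hb1).trans hle
  have hvq : v (d * (x ^ 2 + x' ^ 2) + c * (x + x')) ≤ π * a := by
    refine (v.map_add _ _).trans (max_le ?_ ?_)
    · rw [map_mul]
      exact mul_le_mul' hvd hvs2
    · rw [map_mul]
      exact mul_le_mul' hvc hvs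
  -- a < 1
  have ha_lt : a < 1 := by
    by_contra hcon
    rw [not_lt] at hcon
    have ha_eq : a = 1 := le_antisymm ha1 hcon
    have hbπ : b = π := by
      rw [← hab, ha_eq, one_mul]
    have h1 : v (x' ^ g) < 1 := by
      rw [map_pow, ← hb, hbπ]
      exact pow_lt_one₀ zero_le hB (by omega)
    have h2 : v (d * (x ^ 2 + x' ^ 2) + c * (x + x')) < 1 := by
      refine hvq.trans_lt ?_
      rw [ha_eq, mul_one]
      exact hB
    have h3 : v r < 1 := v.map_add_lt h1 h2
    have h4 : v (r + e) < 1 := v.map_add_lt h3 (by rw [he]; exact hB)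
    have h5 : v (x ^ g) = 1 := by
      rw [map_pow, ← ha, ha_eq, one_pow]
    rw [hxg, Valuation.map_neg] at h5
    rw [h5] at h4
    exact lt_irrefl _ h4
  have hb_lt : b < 1 := hle.trans_lt ha_lt
  have hbg : b ^ g < π := by
    have h1 : b ^ g = b ^ 2 * b ^ (g - 2) := by
      rw [← pow_add]
      congr 1
      omega
    have h2 : b ^ 2 ≤ π := by
      rw [sq, ← hab]
      exact mul_le_mul_left hle b
    have h3 : b ^ (g - 2) < 1 := pow_lt_one₀ zero_le hb_lt (by omega)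
    rw [h1]
    calc b ^ 2 * b ^ (g - 2) ≤ π * b ^ (g - 2) := mul_le_mul_left h2 _
      _ < π * 1 := (mul_lt_mul_iff_right₀ hπ0).2 h3
      _ = π := mul_one _
  have hcs : v (d * (x ^ 2 + x' ^ 2) + c * (x + x')) < π := by
    calc v (d * (x ^ 2 + x' ^ 2) + c * (x + x')) ≤ π * a := hvq
      _ < π * 1 := (mul_lt_mul_iff_right₀ hπ0).2 ha_lt
      _ = π := mul_one _
  have hvr : v r < π := v.map_add_lt (by rw [map_pow]; exact hbg) hcs
  have hag : a ^ g = π := by
    rw [ha, ← map_pow, hxg, Valuation.map_neg, add_comm, ← he]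
    exact Valuation.map_add_eq_of_lt_left v (by rw [he]; exact hvr)
  have hω : ζ ^ g * ζ' ^ g = 1 := by
    rw [← mul_pow, hζ, one_pow]
  have hζ'n : ζ' ^ n = 1 := by
    have h1 : ζ ^ n * ζ' ^ n = 1 := by
      rw [← mul_pow, hζ, one_pow]
    rwa [hζn, one_mul] at h1
  have hζi : IsIntegral ℤ ζ := integral_of_pow hn hζn
  have hζi' : IsIntegral ℤ ζ' := integral_of_pow hn hζ'n
  refine ⟨ha0, ha_lt, hag, hab, val_le_one B (hζi.sub isIntegral_one), hζi, hζi', ?_, ?_⟩
  · have h1 : v (ζ' ^ g * x' ^ g) < v (x ^ g) := by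
      rw [map_mul, map_pow v x', map_pow v x, ← ha, ← hb, hag]
      exact (mul_le_of_le_one_left' (val_le_one B (hζi'.pow g))).trans_lt hbg
    rw [Valuation.map_sub_eq_of_lt_left v h1, map_pow, ← ha, hag]
  · have h2 : ζ ^ 2 * ζ' ^ 2 = 1 := by
      rw [← mul_pow, hζ, one_pow]
    rw [mul_pow, mul_pow, mul_pow, mul_pow] at hy
    linear_combination hy - hx - x' ^ g * hω - c * x' * hζ - d * x' ^ 2 * h2

theorem core_33 {B : ValuationSubring ℂ} {x x' ζ ζ' : ℂ} {n : ℕ}
    (D : PairG 3 3 3 9 15 B x x' ζ ζ' n) : ζ = 1 := by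
  by_contra hne
  have hB := D.hB
  have h5 : B.valuation (5 : ℂ) = 1 := by
    have := val_eq_one B hB (m := 5) (by norm_num)
    exact_mod_cast this
  have h2 : B.valuation (2 : ℂ) = 1 := by
    have := val_eq_one B hB (m := 2) (by norm_num)
    exact_mod_cast this
  have he : B.valuation (((15 : ℤ) : ℂ)) = B.valuation ((3 : ℕ) : ℂ) := by
    have : ((15 : ℤ) : ℂ) = 5 * ((3 : ℕ) : ℂ) := by norm_num
    rw [this, map_mul, h5, one_mul]
  obtain ⟨ha0, ha_lt, hag, hab, hvζ, hζi, hζi', e1, e2⟩ :=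
    core_dataG Nat.prime_three le_rfl (by norm_num) (by norm_num) he D
  have ht0 : B.valuation (ζ - 1) ≠ 0 := by
    rw [Ne, Valuation.zero_iff]
    exact sub_ne_zero.2 hne
  have hB3 : B.valuation (3 : ℂ) = B.valuation x ^ 3 := by
    rw [hag]
    norm_num
  rw [← hag] at hab e1
  set a := B.valuation x with ha
  set t := B.valuation (ζ - 1) with ht
  have hpos : 0 < t := lt_of_le_of_ne zero_le (Ne.symm ht0)
  have hb : B.valuation x' = a ^ 2 := by
    apply mul_left_cancel₀ ha0.ne'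
    rw [hab, pow_succ' a 2]
  have k1 : B.valuation (x ^ 2 - ζ' ^ 2 * x' ^ 2) = a ^ 2 := by
    rw [Valuation.map_sub_eq_of_lt_left, map_pow]
    rw [map_mul, map_pow B.valuation x', map_pow B.valuation x, hb, ← pow_mul]
    refine (mul_le_of_le_one_left' (val_le_one B (hζi'.pow 2))).trans_lt ?_
    exact pow_lt_pow_right_of_lt_one₀ ha0 ha_lt (by norm_num)
  have k2 : B.valuation (x - ζ' * x') ≤ a := by
    refine (B.valuation.map_sub _ _).trans (max_le le_rfl ?_)
    rw [map_mul, hb]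
    refine (mul_le_of_le_one_left' (val_le_one B hζi')).trans ?_
    exact (pow_lt_self_of_lt_one₀ ha0 ha_lt (by norm_num)).le
  have hfac : ζ ^ 3 - 1 = (ζ - 1) * ((ζ - 1) ^ 2 + 3 * ζ) := by ring
  have h3ζ : B.valuation (3 * ζ) ≤ a ^ 3 := by
    rw [map_mul, hB3]
    exact mul_le_of_le_one_right' (val_le_one B hζi)
  have n2 : B.valuation ((9 : ℤ) * ((ζ - 1) * (x - ζ' * x'))) ≤ a ^ 6 * (t * a) := by
    have : ((9 : ℤ) : ℂ) = 3 * 3 := by norm_num
    rw [this, map_mul, map_mul, map_mul, hB3, ← pow_add]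
    exact mul_le_mul' le_rfl (mul_le_mul' le_rfl k2)
  have n1 : B.valuation ((3 : ℤ) * ((ζ ^ 2 - 1) * (x ^ 2 - ζ' ^ 2 * x' ^ 2))) =
      a ^ 3 * (B.valuation (ζ ^ 2 - 1) * a ^ 2) := by
    have : ((3 : ℤ) : ℂ) = 3 := by norm_num
    rw [this, map_mul, map_mul, hB3, k1]
  have hid : B.valuation (ζ ^ 3 - 1) * a ^ 3 =
      B.valuation ((3 : ℤ) * ((ζ ^ 2 - 1) * (x ^ 2 - ζ' ^ 2 * x' ^ 2)) +
        (9 : ℤ) * ((ζ - 1) * (x - ζ' * x'))) := by
    rw [← e1, ← map_mul, e2, Valuation.map_neg]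
  rcases lt_or_eq_of_le hvζ with hlt | heq
  · have q1 : B.valuation (ζ + 1) = 1 := by
      have h4 : ζ + 1 = 2 + (ζ - 1) := by ring
      rw [h4, vadd_left (by rw [h2]; exact hlt), h2]
    have q2 : B.valuation (ζ ^ 2 - 1) = t := by
      have h4 : ζ ^ 2 - 1 = (ζ - 1) * (ζ + 1) := by ring
      rw [h4, map_mul, q1, mul_one]
    rw [q2] at n1
    have q3 : B.valuation (ζ ^ 3 - 1) * a ^ 3 = a ^ 3 * (t * a ^ 2) := by
      rw [hid, vadd_left, n1]
      rw [n1]
      refine n2.trans_lt ?_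
      have w1 : a ^ 6 * (t * a) = t * a ^ 7 := by
        rw [mul_left_comm, ← pow_succ]
      have w2 : a ^ 3 * (t * a ^ 2) = t * a ^ 5 := by
        rw [mul_left_comm, ← pow_add]
      rw [w1, w2]
      exact (mul_lt_mul_iff_right₀ hpos).2 (pow_lt_pow_right_of_lt_one₀ ha0 ha_lt (by norm_num))
    have q4 : B.valuation (ζ ^ 3 - 1) = t * a ^ 2 := by
      rw [mul_comm] at q3
      exact mul_left_cancel₀ (pow_pos ha0 3).ne' q3
    have q5 : B.valuation ((ζ - 1) ^ 2 + 3 * ζ) = a ^ 2 := by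
      rw [hfac, map_mul] at q4
      exact mul_left_cancel₀ ht0 q4
    have q6 : t ^ 2 = a ^ 2 := by
      rw [ht, ← map_pow]
      have : (ζ - 1) ^ 2 = ((ζ - 1) ^ 2 + 3 * ζ) + -(3 * ζ) := by ring
      rw [this, vadd_left, q5]
      rw [q5, Valuation.map_neg]
      exact h3ζ.trans_lt (pow_lt_pow_right_of_lt_one₀ ha0 ha_lt (by norm_num))
    have q7 : t = a := (pow_left_inj₀ zero_le zero_le (by norm_num)).1 q6
    have q8 : B.valuation (ζ ^ 3 - 1) = a ^ 3 := by
      rw [q4, q7, ← pow_succ']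
    have q9 : ζ ^ 3 ≠ 1 := by
      intro h
      rw [h, sub_self, map_zero] at q8
      exact (pow_pos ha0 3).ne q8
    have q10 := root_bound Nat.prime_three B hB D.hn
      (show (ζ ^ 3) ^ n = 1 by rw [← pow_mul, mul_comm, pow_mul, D.hζn, one_pow]) q9
    rw [q8, ← hag] at q10
    exact absurd q10 (not_le.2 (by
      rw [← pow_mul]
      exact pow_lt_pow_right_of_lt_one₀ ha0 ha_lt (by norm_num)))
  · have q1 : B.valuation (ζ ^ 3 - 1) = 1 := by
      rw [hfac, map_mul, ← ht, heq, one_mul, vadd_left, map_pow, ← ht, heq, one_pow]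
      rw [map_pow, ← ht, heq, one_pow]
      exact h3ζ.trans_lt (pow_lt_one₀ zero_le ha_lt (by norm_num))
    rw [q1, one_mul] at hid
    have q2 : a ^ 3 ≤ a ^ 5 := by
      rw [hid]
      refine (B.valuation.map_add _ _).trans (max_le ?_ ?_)
      · rw [n1]
        have : B.valuation (ζ ^ 2 - 1) ≤ 1 := val_le_one B ((hζi.pow 2).sub isIntegral_one)
        calc a ^ 3 * (B.valuation (ζ ^ 2 - 1) * a ^ 2) ≤ a ^ 3 * (1 * a ^ 2) :=
              mul_le_mul' le_rfl (mul_le_mul' this le_rfl)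
          _ = a ^ 5 := by rw [one_mul, ← pow_add]
      · refine n2.trans ?_
        rw [heq, one_mul, ← pow_succ]
        exact pow_le_pow_of_le_one zero_le ha_lt.le (by norm_num)
    exact absurd q2 (not_le.2 (pow_lt_pow_right_of_lt_one₀ ha0 ha_lt (by norm_num)))

theorem core_45 {B : ValuationSubring ℂ} {x x' ζ ζ' : ℂ} {n : ℕ}
    (D : PairG 5 4 0 5 10 B x x' ζ ζ' n) : ζ = 1 := by
  by_contra hne
  have hB := D.hB
  have hu : ∀ m : ℤ, IsCoprime m ((5 : ℕ) : ℤ) → B.valuation (m : ℂ) = 1 :=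
    fun m hm => val_eq_one B hB hm
  have h2 : B.valuation (2 : ℂ) = 1 := by exact_mod_cast hu 2 (by norm_num)
  have h8 : B.valuation (8 : ℂ) = 1 := by exact_mod_cast hu 8 (by norm_num)
  have h12 : B.valuation (12 : ℂ) = 1 := by exact_mod_cast hu 12 (by norm_num)
  have he : B.valuation (((10 : ℤ) : ℂ)) = B.valuation ((5 : ℕ) : ℂ) := by
    have : ((10 : ℤ) : ℂ) = 2 * ((5 : ℕ) : ℂ) := by norm_num
    rw [this, map_mul, h2, one_mul]
  obtain ⟨ha0, ha_lt, hag, hab, hvζ, hζi, hζi', e1, e2⟩ :=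
    core_dataG (by norm_num : Nat.Prime 5) (by norm_num) (by norm_num) (by norm_num) he D
  have hx4 := D.hx
  have ht0 : B.valuation (ζ - 1) ≠ 0 := by
    rw [Ne, Valuation.zero_iff]
    exact sub_ne_zero.2 hne
  have hB5 : B.valuation (5 : ℂ) = B.valuation x ^ 4 := by
    rw [hag]
    norm_num
  rw [← hag] at hab e1
  set a := B.valuation x with ha
  set t := B.valuation (ζ - 1) with ht
  have hb : B.valuation x' = a ^ 3 := by
    apply mul_left_cancel₀ ha0.ne'
    rw [hab, pow_succ' a 3]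
  have hle : ∀ k l : ℕ, k ≤ l → a ^ l ≤ a ^ k :=
    fun k l h => pow_le_pow_of_le_one zero_le ha_lt.le h
  have k2 : B.valuation (x - ζ' * x') = a := by
    rw [Valuation.map_sub_eq_of_lt_left]
    rw [map_mul, hb]
    refine (mul_le_of_le_one_left' (val_le_one B hζi')).trans_lt ?_
    exact pow_lt_self_of_lt_one₀ ha0 ha_lt (by norm_num)
  have e3 : (ζ ^ 4 - 1) * (x ^ 4 - ζ' ^ 4 * x' ^ 4) = -(5 * ((ζ - 1) * (x - ζ' * x'))) := by
    rw [e2]
    push_cast
    ring
  have e4 : B.valuation (ζ ^ 4 - 1) = t * a := by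
    have h1 : B.valuation (ζ ^ 4 - 1) * a ^ 4 = a ^ 4 * (t * a) := by
      rw [← e1, ← map_mul, e3, Valuation.map_neg, map_mul, map_mul, hB5, k2, e1]
    rw [mul_comm] at h1
    exact mul_left_cancel₀ (pow_pos ha0 4).ne' h1
  have e5 : B.valuation (ζ + 1) * B.valuation (ζ ^ 2 + 1) = a := by
    apply mul_left_cancel₀ ht0
    rw [← e4, ← map_mul, ← map_mul]
    congr 1
    ring
  rcases lt_or_eq_of_le hvζ with hlt | heq
  · have h3 : B.valuation (ζ + 1) = 1 := by
      have h4 : ζ + 1 = 2 + (ζ - 1) := by ring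
      rw [h4, vadd_left (by rw [h2]; exact hlt), h2]
    have h5 : B.valuation (ζ ^ 2 + 1) = 1 := by
      have h4 : ζ ^ 2 + 1 = 2 + (ζ - 1) * (ζ + 1) := by ring
      rw [h4, vadd_left, h2]
      rw [h2, map_mul, h3, mul_one]
      exact hlt
    rw [h3, h5, one_mul] at e5
    exact ha_lt.ne e5.symm
  · rw [heq, one_mul] at e4
    set δ : ℂ := ζ ^ 4 - 1 with hδ
    have hδi : IsIntegral ℤ δ := (hζi.pow 4).sub isIntegral_one
    have hδ0 : δ ≠ 0 := by
      intro h
      rw [h, map_zero] at e4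
      exact ha0.ne e4
    have hint : ∀ m : ℤ, IsIntegral ℤ (m : ℂ) := fun m => by
      exact_mod_cast isIntegral_algebraMap (R := ℤ) (A := ℂ) (x := m)
    have hi2 : IsIntegral ℤ (2 : ℂ) := by exact_mod_cast hint 2
    have hw : B.valuation (δ ^ 3 + 2 * δ ^ 2 + 2 * δ + 1) ≤ 1 :=
      val_le_one B ((((hδi.pow 3).add (hi2.mul (hδi.pow 2))).add (hi2.mul hδi)).add isIntegral_one)
    -- step 1
    have s1 : ζ ^ 20 - 1 = δ * (δ ^ 4 + 5 * (δ ^ 3 + 2 * δ ^ 2 + 2 * δ + 1)) := by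
      rw [hδ]
      ring
    have s2 : ζ ^ 20 = 1 := by
      by_contra hcon
      have h1 := root_bound (by norm_num : Nat.Prime 5) B hB D.hn
        (show (ζ ^ 20) ^ n = 1 by rw [← pow_mul, mul_comm, pow_mul, D.hζn, one_pow]) hcon
      have h3 : B.valuation (ζ ^ 20 - 1) ≤ a ^ 5 := by
        rw [s1, map_mul, e4, pow_succ' a 4]
        apply mul_le_mul' le_rfl
        refine (B.valuation.map_add _ _).trans (max_le ?_ ?_)
        · rw [map_pow, e4]
        · rw [map_mul, hB5]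
          exact mul_le_of_le_one_right' hw
      rw [← hag] at h1
      have h4 : a ^ 4 ≤ a ^ 20 := by
        calc a ^ 4 ≤ B.valuation (ζ ^ 20 - 1) ^ (5 - 1) := h1
          _ ≤ (a ^ 5) ^ 4 := pow_le_pow_left₀ zero_le h3 _
          _ = a ^ 20 := by rw [← pow_mul]
      exact absurd h4 (not_le.2 (pow_lt_pow_right_of_lt_one₀ ha0 ha_lt (by norm_num)))
    have s3 : δ ^ 4 + 5 * (δ ^ 3 + 2 * δ ^ 2 + 2 * δ + 1) = 0 := by
      rw [s2, sub_self] at s1
      rcases mul_eq_zero.1 s1.symm with h | h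
      · exact absurd h hδ0
      · exact h
    -- step 3
    set s : ℂ := x' ^ 4 + 5 * (x + x') with hs
    have s4 : x ^ 4 = -(10 + s) := by
      have h1 : x ^ 4 + x' ^ 4 + ((0 : ℤ) : ℂ) * (x ^ 2 + x' ^ 2) + ((5 : ℤ) : ℂ) * (x + x')
        + ((10 : ℤ) : ℂ) = 0 := hx4
      push_cast at h1
      rw [hs]
      linear_combination h1
    have s5 : B.valuation s ≤ a ^ 5 := by
      refine (B.valuation.map_add _ _).trans (max_le ?_ ?_)
      · rw [map_pow, hb, ← pow_mul]
        exact hle _ _ (by norm_num)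
      · rw [map_mul, hB5, pow_succ a 4]
        apply mul_le_mul' le_rfl
        refine (B.valuation.map_add _ _).trans (max_le le_rfl ?_)
        rw [hb]
        exact (pow_lt_self_of_lt_one₀ ha0 ha_lt (by norm_num)).le
    -- step 4
    set E : ℂ := 2 * δ - (ζ - 1) * x with hE
    have s6 : 5 * E = -(δ * s + (δ * (ζ' ^ 4 * x' ^ 4) + 5 * ((ζ - 1) * (ζ' * x')))) := by
      have h1 := e3
      rw [s4] at h1
      rw [hE]
      linear_combination (-1) * h1
    have s7 : B.valuation E ≤ a ^ 2 := by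
      have h1 : a ^ 4 * B.valuation E ≤ a ^ 4 * a ^ 2 := by
        rw [← pow_add, ← hB5, ← map_mul, s6, Valuation.map_neg]
        refine (B.valuation.map_add _ _).trans (max_le ?_
          ((B.valuation.map_add _ _).trans (max_le ?_ ?_)))
        · rw [map_mul, e4, pow_succ' a 5]
          exact mul_le_mul' le_rfl s5
        · rw [map_mul, e4, pow_succ' a 5]
          apply mul_le_mul' le_rfl
          rw [map_mul, map_pow B.valuation x', hb, ← pow_mul]
          exact (mul_le_of_le_one_left' (val_le_one B (hζi'.pow 4))).trans (hle _ _ (by norm_num))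
        · rw [map_mul, map_mul, map_mul, hB5, ← ht, heq, one_mul, hb]
          calc a ^ 4 * (B.valuation ζ' * a ^ 3) ≤ a ^ 4 * (1 * a ^ 3) :=
                mul_le_mul' le_rfl (mul_le_mul' (val_le_one B hζi') le_rfl)
            _ = a ^ 7 := by rw [one_mul, ← pow_add]
            _ ≤ a ^ (4 + 2) := hle _ _ (by norm_num)
      exact le_of_mul_le_mul_left h1 (pow_pos ha0 4)
    have v2δ : B.valuation (2 * δ) = a := by rw [map_mul, h2, e4, one_mul]
    have vζx : B.valuation ((ζ - 1) * x) = a := by rw [map_mul, ← ht, heq, one_mul]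
    -- step 5
    have s8 : B.valuation (16 * δ ^ 4 - (ζ - 1) ^ 4 * x ^ 4) ≤ a ^ 5 := by
      have h1 : 16 * δ ^ 4 - (ζ - 1) ^ 4 * x ^ 4 =
          E * ((2 * δ + (ζ - 1) * x) * ((2 * δ) ^ 2 + ((ζ - 1) * x) ^ 2)) := by
        rw [hE]
        ring
      rw [h1, map_mul, map_mul]
      calc B.valuation E * (B.valuation (2 * δ + (ζ - 1) * x) *
            B.valuation ((2 * δ) ^ 2 + ((ζ - 1) * x) ^ 2)) ≤ a ^ 2 * (a * a ^ 2) := by
            apply mul_le_mul' s7 (mul_le_mul' ?_ ?_)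
            · exact (B.valuation.map_add _ _).trans (max_le v2δ.le vζx.le)
            · refine (B.valuation.map_add _ _).trans (max_le ?_ ?_)
              · rw [map_pow, v2δ]
              · rw [map_pow, vζx]
        _ = a ^ 5 := by rw [← pow_succ', ← pow_add]
    -- step 6
    have s9 : 10 * ((ζ - 1) ^ 4 - 8) = (16 * δ ^ 4 - (ζ - 1) ^ 4 * x ^ 4) +
        (5 * (δ * (16 * (δ ^ 2 + 2 * δ + 2))) + -((ζ - 1) ^ 4 * s)) := by
      rw [s4]
      linear_combination (-16) * s3
    have s10 : B.valuation ((ζ - 1) ^ 4 - 8) < 1 := by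
      have h10 : B.valuation (10 : ℂ) = a ^ 4 := by
        have : (10 : ℂ) = 2 * 5 := by norm_num
        rw [this, map_mul, h2, hB5, one_mul]
      have h1 : a ^ 4 * B.valuation ((ζ - 1) ^ 4 - 8) ≤ a ^ 4 * a := by
        rw [← h10, ← map_mul, s9, h10, ← pow_succ]
        refine (B.valuation.map_add _ _).trans (max_le s8
          ((B.valuation.map_add _ _).trans (max_le ?_ ?_)))
        · rw [map_mul, map_mul, hB5, e4, pow_succ a 4]
          apply mul_le_mul' le_rfl
          apply mul_le_of_le_one_right'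
          apply val_le_one
          have hi16 : IsIntegral ℤ (16 : ℂ) := by exact_mod_cast hint 16
          exact hi16.mul (((hδi.pow 2).add (hi2.mul hδi)).add hi2)
        · rw [Valuation.map_neg, map_mul, map_pow, ← ht, heq, one_pow, one_mul]
          exact s5
      exact (le_of_mul_le_mul_left h1 (pow_pos ha0 4)).trans_lt ha_lt
    -- step 7
    have hv1 : B.valuation (ζ + 1) ≤ 1 := val_le_one B (hζi.add isIntegral_one)
    have hv2 : B.valuation (ζ ^ 2 + 1) ≤ 1 := val_le_one B ((hζi.pow 2).add isIntegral_one)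
    rcases lt_or_eq_of_le hv1 with h | h
    · have h1 : B.valuation ((ζ + 1) * ((ζ - 3) * ((ζ - 1) ^ 2 + 4))) < 1 := by
        rw [map_mul]
        apply mul_lt_one_of_lt_of_le h
        apply val_le_one
        have hi3 : IsIntegral ℤ (3 : ℂ) := by exact_mod_cast hint 3
        have hi4 : IsIntegral ℤ (4 : ℂ) := by exact_mod_cast hint 4
        exact (hζi.sub hi3).mul (((hζi.sub isIntegral_one).pow 2).add hi4)
      have h3 : (8 : ℂ) = ((ζ - 1) ^ 4 - 8) - (ζ + 1) * ((ζ - 3) * ((ζ - 1) ^ 2 + 4)) := by ring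
      have h4 := B.valuation.map_sub_lt s10 h1
      rw [← h3, h8] at h4
      exact lt_irrefl _ h4
    · rw [h, one_mul] at e5
      have h1 : B.valuation ((ζ ^ 2 + 1) * (ζ ^ 2 - 4 * ζ + 5)) < 1 := by
        rw [map_mul, e5]
        apply mul_lt_one_of_lt_of_le ha_lt
        apply val_le_one
        have hi5 : IsIntegral ℤ (5 : ℂ) := by exact_mod_cast hint 5
        have hi4 : IsIntegral ℤ (4 : ℂ) := by exact_mod_cast hint 4
        exact ((hζi.pow 2).sub (hi4.mul hζi)).add hi5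
      have h3 : (12 : ℂ) = (ζ ^ 2 + 1) * (ζ ^ 2 - 4 * ζ + 5) - ((ζ - 1) ^ 4 - 8) := by ring
      have h4 := B.valuation.map_sub_lt h1 s10
      rw [← h3, h12] at h4
      exact lt_irrefl _ h4

end Pool.Agent.Y676.WP
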