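import Mathlib

/-! # Roots of unity and valuations of the complex numbers -/

set_option autoImplicit false

namespace Pool.Agent.Y676.WP

open Polynomial

/-- a valuation ring of the complex numbers over a prime number (the argument is the one of
`Pool.Agent.TH343.PR.exists_val`) -/
lemma exists_val {p : ℕ} (hp : p.Prime) : ∃ B : ValuationSubring ℂ, (p : ℂ) ∈ B.nonunits := by
  set A : Subring ℂ := (Int.castRingHom ℂ).range with hA
  have hpA : (p : ℂ) ∈ A := ⟨(p : ℤ), by simp⟩
  set I : Ideal A := Ideal.span {(⟨(p : ℂ), hpA⟩ : A)} with hI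
  have hItop : I ≠ ⊤ := by
    intro h
    have h1 : (1 : A) ∈ I := by
      rw [h]
      trivial
    rw [hI, Ideal.mem_span_singleton'] at h1
    obtain ⟨⟨a, m, hm⟩, ha⟩ := h1
    have h2 : (a : ℂ) * (p : ℂ) = 1 := congrArg (fun z : A => (z : ℂ)) ha
    have h3 : ((m * p : ℤ) : ℂ) = ((1 : ℤ) : ℂ) := by
      rw [Int.cast_mul, Int.cast_natCast, Int.cast_one]
      rw [← hm] at h2
      exact h2
    have h4 : m * p = 1 := by exact_mod_cast h3
    have h5 : (p : ℤ) ∣ 1 := ⟨m, by rw [← h4]; ring⟩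
    have h6 : (p : ℤ) = 1 := by
      exact Int.eq_one_of_dvd_one (by positivity) h5
    have h7 : p = 1 := by exact_mod_cast h6
    exact hp.ne_one h7
  obtain ⟨B, _, hB⟩ := Ideal.image_subset_nonunits_valuationSubring I hItop
  refine ⟨B, hB ⟨⟨(p : ℂ), hpA⟩, ?_, rfl⟩⟩
  exact Ideal.subset_span rfl

lemma val_le_one (B : ValuationSubring ℂ) {z : ℂ} (hz : IsIntegral ℤ z) : B.valuation z ≤ 1 := by
  have h1 : IsIntegral B z := hz.tower_top
  obtain ⟨y, hy⟩ := (IsIntegrallyClosed.isIntegral_iff (R := B) (K := ℂ)).1 h1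
  rw [B.valuation_le_one_iff, ← hy]
  exact y.2

lemma val_p_lt {p : ℕ} (B : ValuationSubring ℂ) (h : (p : ℂ) ∈ B.nonunits) :
    B.valuation (p : ℂ) < 1 := (ValuationSubring.mem_nonunits_iff B).1 h

lemma val_int_le (B : ValuationSubring ℂ) (m : ℤ) : B.valuation (m : ℂ) ≤ 1 :=
  val_le_one B (by exact_mod_cast isIntegral_algebraMap (R := ℤ) (A := ℂ) (x := m))

/-- integers prime to `p` are units -/
lemma val_eq_one {p : ℕ} (B : ValuationSubring ℂ) (h : B.valuation (p : ℂ) < 1) {m : ℤ}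
    (hm : IsCoprime m (p : ℤ)) : B.valuation (m : ℂ) = 1 := by
  apply le_antisymm (val_int_le B m)
  obtain ⟨a, b, hab⟩ := hm
  by_contra hcon
  rw [not_le] at hcon
  have h1 : (a : ℂ) * m + (b : ℂ) * p = 1 := by exact_mod_cast hab
  have h2 : B.valuation ((a : ℂ) * m) < 1 := by
    rw [map_mul]
    exact mul_lt_one_of_nonneg_of_lt_one_right (val_int_le B a) zero_le hcon
  have h3 : B.valuation ((b : ℂ) * p) < 1 := by
    rw [map_mul]
    exact mul_lt_one_of_nonneg_of_lt_one_right (val_int_le B b) zero_le h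
  have h4 := B.valuation.map_add_lt h2 h3
  rw [h1, map_one] at h4
  exact lt_irrefl _ h4

lemma integral_of_pow {ζ : ℂ} {n : ℕ} (hn : 1 ≤ n) (h : ζ ^ n = 1) : IsIntegral ℤ ζ := by
  refine ⟨X ^ n - 1, monic_X_pow_sub_C (1 : ℤ) (by omega), ?_⟩
  simp [h]

/-- For a root of unity `ω ≠ 1`: `|p| ≤ |ω - 1| ^ (p - 1)`. -/
theorem root_bound {p : ℕ} (hp : p.Prime) (B : ValuationSubring ℂ)
    (hB : B.valuation (p : ℂ) < 1) {ω : ℂ} {n : ℕ} (hn : 1 ≤ n) (hω : ω ^ n = 1) (h1 : ω ≠ 1) :
    B.valuation (p : ℂ) ≤ B.valuation (ω - 1) ^ (p - 1) := by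
  have hoz : orderOf ω ≠ 0 := by
    intro h
    rw [orderOf_eq_zero_iff'] at h
    exact h n hn hω
  have ho1 : orderOf ω ≠ 1 := by
    rw [Ne, orderOf_eq_one_iff]
    exact h1
  obtain ⟨l, hl, hlo⟩ := Nat.exists_prime_and_dvd ho1
  have hprim : IsPrimitiveRoot ω (orderOf ω) := IsPrimitiveRoot.orderOf ω
  have hint : IsIntegral ℤ ω := integral_of_pow hn hω
  set m := orderOf ω / l with hm
  have hml : orderOf ω = m * l := (Nat.div_mul_cancel hlo).symm
  have hm0 : m ≠ 0 := by
    intro h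
    rw [h, zero_mul] at hml
    exact hoz hml
  have hprim' : IsPrimitiveRoot (ω ^ m) l := hprim.pow (Nat.pos_of_ne_zero hoz) hml
  -- comparison
  have hcmp : B.valuation (ω ^ m - 1) ≤ B.valuation (ω - 1) := by
    rw [← geom_sum_mul, map_mul]
    apply mul_le_of_le_one_left'
    apply val_le_one
    apply IsIntegral.sum
    intro i _
    exact hint.pow i
  obtain ⟨z, hz, hzl⟩ := hprim'.self_sub_one_pow_dvd_order (k := l - 1) (by
    have := hl.pos
    omega)
  have hzi : IsIntegral ℤ z := by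
    have h2 : Algebra.adjoin ℤ {ω ^ m} ≤ integralClosure ℤ ℂ := by
      rw [Algebra.adjoin_le_iff, Set.singleton_subset_iff]
      exact hint.pow m
    exact h2 hz
  have hle : B.valuation (l : ℂ) ≤ B.valuation (ω - 1) ^ (l - 1) := by
    rw [hzl, map_mul, map_pow]
    calc B.valuation z * B.valuation (ω ^ m - 1) ^ (l - 1)
        ≤ 1 * B.valuation (ω - 1) ^ (l - 1) :=
          mul_le_mul' (val_le_one B hzi) (pow_le_pow_left₀ zero_le hcmp _)
      _ = _ := one_mul _
  by_cases hlp : l = p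
  · rw [hlp] at hle
    exact hle
  · have hcop : IsCoprime (l : ℤ) (p : ℤ) := by
      rw [Nat.isCoprime_iff_coprime]
      exact (Nat.coprime_primes hl hp).2 hlp
    have h2 := val_eq_one B hB hcop
    rw [Int.cast_natCast] at h2
    rw [h2] at hle
    have h3 : 1 ≤ B.valuation (ω - 1) := by
      by_contra hcon
      rw [not_le] at hcon
      have h4 := pow_lt_one₀ zero_le hcon (n := l - 1) (by
        have := hl.two_le
        omega)
      exact absurd hle (not_le.2 h4)
    exact hB.le.trans (one_le_pow₀ h3)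

end Pool.Agent.Y676.WP
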